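import Pool.Agent.TD.Y.Defs

/-!
# Block Y: cohomology groups, with and without supports, and pull back
-/

open scoped ContDiff Topology

namespace Pool.Agent.TD

namespace LogSpace

variable {X Φ : Type} [TopologicalSpace X] (L : LogSpace X Φ)

/-- Closed forms of type `(p,q)`. -/
noncomputable def Zf (p q : ℕ) : Submodule ℝ (L.G p q) := LinearMap.ker (L.ddG p q)

/-- Exact forms of type `(p,q)`. -/
noncomputable def Bf (p : ℕ) : (q : ℕ) → Submodule ℝ (L.G p q)
  | 0 => ⊥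
  | q + 1 => LinearMap.range (L.ddG p q)

/-- The Dolbeault cohomology group `H^{p,q}`: the classes of the closed forms modulo exact forms,
as a subspace of the space of all forms modulo exact forms. -/
noncomputable def H (p q : ℕ) : Submodule ℝ (L.G p q ⧸ L.Bf p q) :=
  (L.Zf p q).map (L.Bf p q).mkQ

/-- Forms with compact support. -/
def Gc (p q : ℕ) : Submodule ℝ (L.G p q) where
  carrier := {c | ∃ K : Set X, IsCompact K ∧ ∀ z, z ∉ K → c.1 z = 0}
  zero_mem' := ⟨∅, isCompact_empty, fun _ _ => rfl⟩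
  add_mem' := by
    rintro c c' ⟨K, hK, h⟩ ⟨K', hK', h'⟩
    refine ⟨K ∪ K', hK.union hK', fun z hz => ?_⟩
    show c.1 z + c'.1 z = 0
    rw [h z (fun h => hz (Or.inl h)), h' z (fun h => hz (Or.inr h)), add_zero]
  smul_mem' := by
    rintro r c ⟨K, hK, h⟩
    refine ⟨K, hK, fun z hz => ?_⟩
    show r • c.1 z = 0
    rw [h z hz, smul_zero]

/-- Closed forms with compact support. -/
noncomputable def Zc (p q : ℕ) : Submodule ℝ (L.G p q) := L.Zf p q ⊓ L.Gc p q

/-- Differentials of forms with compact support. -/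
noncomputable def Bc (p : ℕ) : (q : ℕ) → Submodule ℝ (L.G p q)
  | 0 => ⊥
  | q + 1 => (L.Gc p q).map (L.ddG p q)

/-- The Dolbeault cohomology group with compact supports `H_c^{p,q}`: the classes of the closed
forms with compact support modulo differentials of forms with compact support. -/
noncomputable def Hc (p q : ℕ) : Submodule ℝ (L.G p q ⧸ L.Bc p q) :=
  (L.Zc p q).map (L.Bc p q).mkQ

end LogSpace

namespace Mor

variable {X Φ X' Φ' : Type} [TopologicalSpace X] [TopologicalSpace X'] {L : LogSpace X Φ}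
  {L' : LogSpace X' Φ'} (m : Mor L L')

theorem pullG_dd (p q : ℕ) (c : L'.G p q) :
    m.pullG p (q + 1) (L'.ddG p q c) = L.ddG p q (m.pullG p q c) := by
  apply Subtype.ext
  funext z
  rw [pullG_val, LogSpace.ddG_val, LogSpace.ddG_val, pullG_val]
  obtain ⟨θ, h, e⟩ := L'.exists_germ (c.1 (m.toFun z))
  rw [← e, LogSpace.ddS_germ, pullS_germ, pullS_germ, LogSpace.ddS_germ]
  obtain ⟨s, hs, -⟩ := h
  exact L.germ_congr (dd_pullR m.ix hs).symm _ _

theorem pullG_Z {p q : ℕ} {c : L'.G p q} (h : c ∈ L'.Zf p q) : m.pullG p q c ∈ L.Zf p q := by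
  have h' : L'.ddG p q c = 0 := h
  show L.ddG p q (m.pullG p q c) = 0
  rw [← pullG_dd, h', map_zero]

theorem pullG_B {p q : ℕ} {c : L'.G p q} (h : c ∈ L'.Bf p q) : m.pullG p q c ∈ L.Bf p q := by
  cases q with
  | zero =>
    have h' : c = 0 := h
    rw [h', map_zero]
    exact zero_mem _
  | succ q =>
    obtain ⟨e, rfl⟩ := h
    exact ⟨m.pullG p q e, (m.pullG_dd p q e).symm⟩

/-- The map `H^{p,q}(L') → H^{p,q}(L)` induced by a morphism. -/
noncomputable def mapH (p q : ℕ) : L'.H p q →ₗ[ℝ] L.H p q :=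
  (Submodule.mapQ (L'.Bf p q) (L.Bf p q) (m.pullG p q) (fun _ hc => m.pullG_B hc)).restrict
    (by
      rintro _ ⟨c, hc, rfl⟩
      exact ⟨m.pullG p q c, m.pullG_Z hc, rfl⟩)

/-- Proper maps: preimages of compact sets are compact. -/
def IsProp : Prop := ∀ K : Set X', IsCompact K → IsCompact (m.toFun ⁻¹' K)

variable {m}

theorem pullG_Gc (hm : m.IsProp) {p q : ℕ} {c : L'.G p q} (h : c ∈ L'.Gc p q) :
    m.pullG p q c ∈ L.Gc p q := by
  obtain ⟨K, hK, h⟩ := h
  refine ⟨m.toFun ⁻¹' K, hm K hK, fun z hz => ?_⟩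
  rw [pullG_val, h _ hz, map_zero]

theorem pullG_Bc (hm : m.IsProp) {p q : ℕ} {c : L'.G p q} (h : c ∈ L'.Bc p q) :
    m.pullG p q c ∈ L.Bc p q := by
  cases q with
  | zero =>
    have h' : c = 0 := h
    rw [h', map_zero]
    exact zero_mem _
  | succ q =>
    obtain ⟨e, he, rfl⟩ := h
    exact ⟨m.pullG p q e, pullG_Gc hm he, (m.pullG_dd p q e).symm⟩

/-- The map `H_c^{p,q}(L') → H_c^{p,q}(L)` induced by a proper morphism. -/
noncomputable def mapHc (hm : m.IsProp) (p q : ℕ) : L'.Hc p q →ₗ[ℝ] L.Hc p q :=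
  (Submodule.mapQ (L'.Bc p q) (L.Bc p q) (m.pullG p q) (fun _ hc => pullG_Bc hm hc)).restrict
    (by
      rintro _ ⟨c, hc, rfl⟩
      exact ⟨m.pullG p q c, ⟨m.pullG_Z hc.1, pullG_Gc hm hc.2⟩, rfl⟩)

/-- Bijectivity of `mapH` in terms of forms. -/
theorem mapH_bijective (m : Mor L L') {p q : ℕ}
    (h1 : ∀ c ∈ L.Zf p q, ∃ a ∈ L'.Zf p q, c - m.pullG p q a ∈ L.Bf p q)
    (h2 : ∀ a ∈ L'.Zf p q, m.pullG p q a ∈ L.Bf p q → a ∈ L'.Bf p q) :
    Function.Bijective (m.mapH p q) := by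
  constructor
  · rw [injective_iff_map_eq_zero]
    rintro ⟨_, a, ha, rfl⟩ h
    have h3 : (L.Bf p q).mkQ (m.pullG p q a) = 0 := congrArg Subtype.val h
    rw [Submodule.mkQ_apply, Submodule.Quotient.mk_eq_zero] at h3
    apply Subtype.ext
    show (L'.Bf p q).mkQ a = 0
    rw [Submodule.mkQ_apply, Submodule.Quotient.mk_eq_zero]
    exact h2 a ha h3
  · rintro ⟨_, c, hc, rfl⟩
    obtain ⟨a, ha, h⟩ := h1 c hc
    refine ⟨⟨(L'.Bf p q).mkQ a, a, ha, rfl⟩, ?_⟩
    apply Subtype.ext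
    show (L.Bf p q).mkQ (m.pullG p q a) = (L.Bf p q).mkQ c
    rw [Submodule.mkQ_apply, Submodule.mkQ_apply, eq_comm, Submodule.Quotient.eq]
    exact h

/-- Bijectivity of `mapHc` in terms of forms. -/
theorem mapHc_bijective {m : Mor L L'} (hm : m.IsProp) {p q : ℕ}
    (h1 : ∀ c ∈ L.Zc p q, ∃ a ∈ L'.Zc p q, c - m.pullG p q a ∈ L.Bc p q)
    (h2 : ∀ a ∈ L'.Zc p q, m.pullG p q a ∈ L.Bc p q → a ∈ L'.Bc p q) :
    Function.Bijective (mapHc hm p q) := by
  constructor
  · rw [injective_iff_map_eq_zero]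
    rintro ⟨_, a, ha, rfl⟩ h
    have h3 : (L.Bc p q).mkQ (m.pullG p q a) = 0 := congrArg Subtype.val h
    rw [Submodule.mkQ_apply, Submodule.Quotient.mk_eq_zero] at h3
    apply Subtype.ext
    show (L'.Bc p q).mkQ a = 0
    rw [Submodule.mkQ_apply, Submodule.Quotient.mk_eq_zero]
    exact h2 a ha h3
  · rintro ⟨_, c, hc, rfl⟩
    obtain ⟨a, ha, h⟩ := h1 c hc
    refine ⟨⟨(L'.Bc p q).mkQ a, a, ha, rfl⟩, ?_⟩
    apply Subtype.ext
    show (L.Bc p q).mkQ (m.pullG p q a) = (L.Bc p q).mkQ c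
    rw [Submodule.mkQ_apply, Submodule.mkQ_apply, eq_comm, Submodule.Quotient.eq]
    exact h

end Mor

end Pool.Agent.TD
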