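import Pool.Agent.TD.A2

/-!
# Block Y: analytifications of schemes, fans, tropical toric varieties (MP_90358a_ag)

A `K`-scheme is a scheme `X` with a ring homomorphism `ι : K → Γ(X, ⊤)` (equivalently a morphism
`X → Spec K`).  A point of `X^an` is a point `x` of `X` with an absolute value on the residue field
of `x` which extends the absolute value of `K`; it is encoded as a multiplicative seminorm on the
local ring of `x` whose kernel is the maximal ideal.
-/

open scoped ContDiff Topology
open AlgebraicGeometry CategoryTheory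

namespace Pool.Agent.TD

/-! ### Abbreviations -/

/-- The points of a scheme. -/
abbrev Pt (X : Scheme.{0}) : Type := X

/-- The open subsets of a scheme. -/
abbrev Op (X : Scheme.{0}) : Type := X.Opens

/-- The ring of functions on an open subset. -/
abbrev Fn (X : Scheme.{0}) (U : Op X) : Type := Γ(X, U)

/-- The local ring at a point. -/
abbrev Lr (X : Scheme.{0}) (x : Pt X) : Type := X.presheaf.stalk x

/-- The germ of a function at a point. -/
noncomputable abbrev gm {X : Scheme.{0}} (U : Op X) (x : Pt X) (h : x ∈ U) (f : Fn X U) : Lr X x :=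
  X.presheaf.germ U x h f

/-- Restriction of functions. -/
abbrev resF {X : Scheme.{0}} {U V : Op X} (h : V ≤ U) (f : Fn X U) : Fn X V :=
  X.presheaf.map (homOfLE h).op f

/-- Structures of `K`-scheme: homomorphisms from `K` to the ring of global functions. -/
abbrev Str (K : Type) [NormedField K] (X : Scheme.{0}) : Type := K →+* Fn X ⊤

/-! ### Analytification -/

section An

variable {K : Type} [NormedField K]

/-- Restriction of global functions. -/
def resT (X : Scheme.{0}) (U : Op X) : Fn X ⊤ →+* Fn X U :=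
  (X.presheaf.map (homOfLE (le_top : U ≤ ⊤)).op).hom

/-- The structure map of a `K`-scheme on an open subset. -/
def stK {X : Scheme.{0}} (ι : Str K X) (U : Op X) : K →+* Fn X U := (resT X U).comp ι

/-- A point of the analytification of the `K`-scheme `(X, ι)`. -/
structure An (X : Scheme.{0}) (ι : Str K X) where
  /-- the underlying point of the scheme -/
  pt : Pt X
  /-- the multiplicative seminorm on the local ring -/
  v : Lr X pt → ℝ
  nonneg : ∀ a, 0 ≤ v a
  one : v 1 = 1
  mul : ∀ a b, v (a * b) = v a * v b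
  add : ∀ a b, v (a + b) ≤ max (v a) (v b)
  ext : ∀ c : K, v (gm ⊤ pt trivial (ι c)) = ‖c‖
  ker : ∀ a, v a = 0 ↔ ¬ IsUnit a

namespace An

variable {X : Scheme.{0}} {ι : Str K X}

/-- The open subset `U^an`. -/
def opn (ι : Str K X) (U : Op X) : Set (An X ι) := {z | z.pt ∈ U}

open Classical in
/-- The absolute value `|f|(z)` of a function `f` on `U` (`0` if `z` is not above `U`). -/
noncomputable def absv (U : Op X) (f : Fn X U) (z : An X ι) : ℝ :=
  if h : z.pt ∈ U then z.v (gm U z.pt h f) else 0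

/-- The topology of the analytification: the coarsest one such that `U^an` is open and `|f|` is
continuous on `U^an`, for all open `U` and all functions `f` on `U`. -/
instance : TopologicalSpace (An X ι) := TopologicalSpace.generateFrom
  {A | ∃ (U : Op X) (f : Fn X U) (V : Set ℝ), IsOpen V ∧
    A = {z : An X ι | z.pt ∈ U ∧ absv U f z ∈ V}}

theorem isOpen_basic (U : X.Opens) (f : Γ(X, U)) {V : Set ℝ} (hV : IsOpen V) :
    IsOpen {z : An X ι | z.pt ∈ U ∧ absv U f z ∈ V} :=
  TopologicalSpace.isOpen_generateFrom_of_mem ⟨U, f, V, hV, rfl⟩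

theorem isOpen_opn (U : X.Opens) : IsOpen (opn ι U) := by
  have h := isOpen_basic (ι := ι) U 0 (isOpen_univ (X := ℝ))
  convert h using 1
  ext z
  simp [opn]

theorem continuousOn_absv (U : X.Opens) (f : Γ(X, U)) :
    ContinuousOn (fun z : An X ι => absv U f z) (opn ι U) := by
  rw [continuousOn_iff' ]
  intro V hV
  refine ⟨_, isOpen_basic (ι := ι) U f hV, ?_⟩
  ext z
  simp only [Set.mem_inter_iff, Set.mem_preimage, Set.mem_setOf_eq, opn]
  tauto

end An

/-- Pairs of an open subset and a function on it. -/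
abbrev Fns (X : Scheme.{0}) : Type := Σ U : Op X, Fn X U

/-- The functions `log |f|`, `f` a function on an open subset of `X`. -/
noncomputable def anLS (X : Scheme.{0}) (ι : Str K X) : LogSpace (An X ι) (Fns X) where
  dom F := {z | z.pt ∈ F.1 ∧ An.absv F.1 F.2 z ≠ 0}
  lf F z := Real.log (An.absv F.1 F.2 z)
  isOpen_dom F := An.isOpen_basic F.1 F.2 (isOpen_compl_singleton (x := (0 : ℝ)))
  cont F := by
    have h := (An.continuousOn_absv (ι := ι) F.1 F.2).mono
      (fun z (hz : z.pt ∈ F.1 ∧ An.absv F.1 F.2 z ≠ 0) => hz.1)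
    exact ContinuousOn.log h (fun z hz => hz.2)

end An

/-! ### Fans -/

section Fan

variable {n : ℕ}

/-- The pairing of `M = ℤ^n` and `N_ℝ = ℝ^n`. -/
def pair (m : Fin n → ℤ) (x : Fin n → ℝ) : ℝ := ∑ i, (m i : ℝ) * x i

/-- Rational polyhedral cones: generated by finitely many integral vectors. -/
def IsRatCone (σ : Set (Fin n → ℝ)) : Prop :=
  ∃ V : Finset (Fin n → ℤ), σ = {x | ∃ a : (Fin n → ℤ) → ℝ, (∀ v, 0 ≤ a v) ∧
    x = ∑ v ∈ V, a v • (fun i => (v i : ℝ))}

/-- Faces of a rational cone: cut out by an integral linear form which is non-negative on it. -/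
def IsFace (τ σ : Set (Fin n → ℝ)) : Prop :=
  ∃ m : Fin n → ℤ, (∀ x ∈ σ, 0 ≤ pair m x) ∧ τ = {x ∈ σ | pair m x = 0}

/-- A rational fan in `ℝ^n`: a finite nonempty set of strongly convex rational polyhedral cones,
containing the faces of its members, such that the intersection of two members is a face of both. -/
structure Fan (n : ℕ) where
  cones : Set (Set (Fin n → ℝ))
  fin : cones.Finite
  ne : cones.Nonempty
  rat : ∀ σ ∈ cones, IsRatCone σ
  pointed : ∀ σ ∈ cones, ∀ x ∈ σ, -x ∈ σ → x = 0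
  face : ∀ σ ∈ cones, ∀ τ, IsFace τ σ → τ ∈ cones
  inter : ∀ σ ∈ cones, ∀ τ ∈ cones, IsFace (σ ∩ τ) σ ∧ IsFace (σ ∩ τ) τ

/-- The monoid `S_σ` of the characters which are non-negative on `σ`. -/
def dualM (σ : Set (Fin n → ℝ)) : AddSubmonoid (Fin n → ℤ) where
  carrier := {m | ∀ x ∈ σ, 0 ≤ pair m x}
  zero_mem' := by
    intro x _
    simp [pair]
  add_mem' := by
    intro m m' h h' x hx
    have e : pair (m + m') x = pair m x + pair m' x := by
      simp only [pair, Pi.add_apply, Int.cast_add, add_mul, Finset.sum_add_distrib]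
    rw [e]
    exact add_nonneg (h x hx) (h' x hx)

/-- The type of the elements of `S_σ`. -/
abbrev Sg (σ : Set (Fin n → ℝ)) : Type := dualM σ

/-- The underlying character. -/
abbrev Sg.m {σ : Set (Fin n → ℝ)} (m : Sg σ) : Fin n → ℤ := m.1

/-- The group `σ^⊥` of the characters which vanish on `σ`. -/
def perpM (σ : Set (Fin n → ℝ)) : AddSubgroup (Fin n → ℤ) where
  carrier := {m | ∀ x ∈ σ, pair m x = 0}
  zero_mem' := by
    intro x _
    simp [pair]
  add_mem' := by
    intro m m' h h' x hx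
    have e : pair (m + m') x = pair m x + pair m' x := by
      simp only [pair, Pi.add_apply, Int.cast_add, add_mul, Finset.sum_add_distrib]
    rw [e, h x hx, h' x hx, add_zero]
  neg_mem' := by
    intro m h x hx
    have e : pair (-m) x = -pair m x := by
      simp [pair]
    rw [e, h x hx, neg_zero]

/-- The type of the elements of `σ^⊥`. -/
abbrev Pg (σ : Set (Fin n → ℝ)) : Type := perpM σ

/-- The tropical toric variety `Trop(Y_Σ)`: the disjoint union of the strata
`N(σ)_ℝ = N_ℝ / span σ = Hom(σ^⊥, ℝ)`, `σ ∈ Σ`. -/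
structure TropPt (F : Fan n) where
  cone : F.cones
  val : Pg cone.1 →+ ℝ

namespace TropPt

variable {F : Fan n}

/-- The open subset `Trop(U_σ)`: the union of the strata of the faces of `σ`. -/
def opn (σ : F.cones) : Set (TropPt F) := {b | b.cone.1 ⊆ σ.1}

/-- `m` vanishes on the cone of `b`. -/
abbrev InPerp (m : Fin n → ℤ) (b : TropPt F) : Prop := m ∈ perpM b.cone.1

open Classical in
/-- The absolute value `|χ^m|(b) = exp ⟨m, b⟩`, and `0` if `m` is not in `σ^⊥`. -/
noncomputable def absv (m : Fin n → ℤ) (b : TropPt F) : ℝ :=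
  if h : InPerp m b then Real.exp (b.val ⟨m, h⟩) else 0

/-- The topology: `Trop(U_σ)` is open, and `|χ^m|` is continuous on it for `m ∈ S_σ`. -/
instance : TopologicalSpace (TropPt F) := TopologicalSpace.generateFrom
  {A | ∃ (σ : F.cones) (m : dualM σ.1) (V : Set ℝ), IsOpen V ∧
    A = {b : TropPt F | b ∈ opn σ ∧ absv m.1 b ∈ V}}

theorem isOpen_basic (σ : F.cones) (m : dualM σ.1) {V : Set ℝ} (hV : IsOpen V) :
    IsOpen {b : TropPt F | b ∈ opn σ ∧ absv m.1 b ∈ V} :=
  TopologicalSpace.isOpen_generateFrom_of_mem ⟨σ, m, V, hV, rfl⟩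

theorem isOpen_opn (σ : F.cones) : IsOpen (opn σ) := by
  have h := isOpen_basic σ 0 (isOpen_univ (X := ℝ))
  convert h using 1
  ext z
  simp

theorem continuousOn_absv (σ : F.cones) (m : dualM σ.1) :
    ContinuousOn (fun b : TropPt F => absv m.1 b) (opn σ) := by
  rw [continuousOn_iff' ]
  intro V hV
  refine ⟨_, isOpen_basic σ m hV, ?_⟩
  ext z
  simp only [Set.mem_inter_iff, Set.mem_preimage, Set.mem_setOf_eq]
  tauto

theorem perp_sub {σ τ : Set (Fin n → ℝ)} (h : τ ⊆ σ) {m : Fin n → ℤ} (hm : m ∈ perpM σ) :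
    m ∈ perpM τ := fun x hx => hm x (h hx)

theorem perp_dual {σ : Set (Fin n → ℝ)} {m : Fin n → ℤ} (hm : m ∈ perpM σ) : m ∈ dualM σ :=
  fun x hx => (hm x hx).ge

end TropPt

/-- The `LogSpace` structure of `Trop(Y_Σ)`: the characters. -/
noncomputable def tropLS (F : Fan n) : LogSpace (TropPt F) (Fin n → ℤ) where
  dom m := {b | m ∈ perpM b.cone.1}
  lf m b := Real.log (TropPt.absv m b)
  isOpen_dom m := by
    rw [isOpen_iff_mem_nhds]
    intro b hb
    refine Filter.mem_of_superset ((TropPt.isOpen_opn b.cone).mem_nhds (Set.Subset.refl _)) ?_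
    intro b' hb'
    exact TropPt.perp_sub hb' hb
  cont m := by
    intro b hb
    have h1 := TropPt.continuousOn_absv b.cone ⟨m, TropPt.perp_dual hb⟩
    have h2 : ContinuousAt (fun b : TropPt F => TropPt.absv m b) b :=
      h1.continuousAt ((TropPt.isOpen_opn b.cone).mem_nhds (Set.Subset.refl _))
    have h3 : TropPt.absv m b ≠ 0 := by
      have : m ∈ perpM b.cone.1 := hb
      simp only [TropPt.absv, dif_pos this]
      exact (Real.exp_pos _).ne'
    exact (h2.log h3).continuousWithinAt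

end Fan

/-! ### Toric varieties -/

/-- A structure of toric variety with fan `F` on the `K`-scheme `(Y, ι)`: affine open subsets
`U_σ`, `σ ∈ F`, which cover `Y`, with `U_σ ∩ U_τ = U_{σ ∩ τ}`; characters `χ^m ∈ Γ(Y, U_σ)` for
`m ∈ S_σ`, multiplicative and compatible with restriction, which form a basis of the
`K`-vector space `Γ(Y, U_σ)` (so `Γ(Y, U_σ) = K[S_σ]`). -/
structure Toric {K : Type} [NormedField K] {n : ℕ} (F : Fan n) (Y : Scheme.{0})
    (ι : Str K Y) where
  U : F.cones → Op Y
  affine : ∀ σ, IsAffineOpen (U σ)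
  cover : ⨆ σ, U σ = ⊤
  inter : ∀ σ τ ρ : F.cones, ρ.1 = σ.1 ∩ τ.1 → U σ ⊓ U τ = U ρ
  chi : ∀ σ : F.cones, Sg σ.1 → Fn Y (U σ)
  chi_one : ∀ σ (m : Sg σ.1), m.m = 0 → chi σ m = 1
  chi_mul : ∀ σ (m m' m'' : Sg σ.1), m''.m = m.m + m'.m → chi σ m'' = chi σ m * chi σ m'
  chi_resF : ∀ (σ τ : F.cones) (h : U τ ≤ U σ) (m : Sg σ.1) (m' : Sg τ.1), τ.1 ⊆ σ.1 →
    m'.m = m.m → resF h (chi σ m) = chi τ m'
  basis : ∀ σ, Function.Bijective
    (fun a : Sg σ.1 →₀ K => a.sum fun m c => stK ι (U σ) c * chi σ m)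

theorem Toric.chi_zero {K : Type} [NormedField K] {n : ℕ} {F : Fan n} {Y : Scheme.{0}}
    {ι : K →+* Γ(Y, ⊤)} (T : Toric F Y ι) (σ : F.cones) : T.chi σ 0 = 1 := T.chi_one σ 0 rfl

theorem Toric.chi_add {K : Type} [NormedField K] {n : ℕ} {F : Fan n} {Y : Scheme.{0}}
    {ι : K →+* Γ(Y, ⊤)} (T : Toric F Y ι) (σ : F.cones) (m m' : dualM σ.1) :
    T.chi σ (m + m') = T.chi σ m * T.chi σ m' := T.chi_mul σ m m' (m + m') rfl

theorem Toric.chi_res {K : Type} [NormedField K] {n : ℕ} {F : Fan n} {Y : Scheme.{0}}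
    {ι : K →+* Γ(Y, ⊤)} (T : Toric F Y ι) (σ τ : F.cones) (h : T.U τ ≤ T.U σ) (m : dualM σ.1)
    (m' : dualM τ.1) (hs : τ.1 ⊆ σ.1) (e : m'.1 = m.1) :
    Y.presheaf.map (homOfLE h).op (T.chi σ m) = T.chi τ m' := T.chi_resF σ τ h m m' hs e

end Pool.Agent.TD
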