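import Pool.Agent.TD.Y.Coh

/-!
# Block Y: the tropicalization map of a toric variety
-/

open scoped ContDiff Topology
open AlgebraicGeometry CategoryTheory

namespace Pool.Agent.TD

namespace An

variable {K : Type} [NormedField K] {X : Scheme.{0}} {ι : K →+* Γ(X, ⊤)}

theorem absv_of_mem {U : X.Opens} (f : Γ(X, U)) {z : An X ι} (h : z.pt ∈ U) :
    absv U f z = z.v (X.presheaf.germ U z.pt h f) := by
  unfold absv
  rw [dif_pos h]

theorem absv_nonneg (U : X.Opens) (f : Γ(X, U)) (z : An X ι) : 0 ≤ absv U f z := by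
  unfold absv
  split_ifs
  · exact z.nonneg _
  · exact le_rfl

theorem absv_one {U : X.Opens} {z : An X ι} (h : z.pt ∈ U) : absv U (1 : Γ(X, U)) z = 1 := by
  rw [absv_of_mem _ h, map_one, z.one]

theorem absv_mul {U : X.Opens} (f g : Γ(X, U)) (z : An X ι) :
    absv U (f * g) z = absv U f z * absv U g z := by
  by_cases h : z.pt ∈ U
  · rw [absv_of_mem _ h, absv_of_mem _ h, absv_of_mem _ h, map_mul, z.mul]
  · unfold absv
    simp [h]

theorem absv_add {U : X.Opens} (f g : Γ(X, U)) (z : An X ι) :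
    absv U (f + g) z ≤ max (absv U f z) (absv U g z) := by
  by_cases h : z.pt ∈ U
  · rw [absv_of_mem _ h, absv_of_mem _ h, absv_of_mem _ h, map_add]
    exact z.add _ _
  · unfold absv
    simp [h]

theorem absv_res {U V : X.Opens} (i : V ≤ U) (f : Γ(X, U)) {z : An X ι} (h : z.pt ∈ V) :
    absv V (X.presheaf.map (homOfLE i).op f) z = absv U f z := by
  rw [absv_of_mem _ h, absv_of_mem _ (i h)]
  congr 1
  exact TopCat.Presheaf.germ_res_apply X.presheaf (homOfLE i) z.pt h f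

theorem absv_stK {U : X.Opens} (c : K) {z : An X ι} (h : z.pt ∈ U) :
    absv U (stK ι U c) z = ‖c‖ := by
  have e : stK ι U c = X.presheaf.map (homOfLE (le_top : U ≤ ⊤)).op (ι c) := rfl
  have ht : z.pt ∈ (⊤ : X.Opens) := trivial
  rw [e, absv_res _ _ h, absv_of_mem (ι c) ht]
  exact z.ext c

end An

namespace Toric

variable {K : Type} [NormedField K] {n : ℕ} {F : Fan n} {Y : Scheme.{0}} {ι : K →+* Γ(Y, ⊤)}
  (T : Toric F Y ι)

instance finite_cones (F : Fan n) : Finite F.cones := F.fin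

/-- The intersection of two cones of a fan. -/
def capC (σ τ : F.cones) : F.cones := ⟨σ.1 ∩ τ.1, F.face σ.1 σ.2 _ (F.inter _ σ.2 _ τ.2).1⟩

theorem exists_min (x : Y) :
    ∃ σ : F.cones, x ∈ T.U σ ∧ ∀ τ : F.cones, x ∈ T.U τ → σ.1 ⊆ τ.1 := by
  have hne : {σ : F.cones | x ∈ T.U σ}.Nonempty := by
    have h : x ∈ (⨆ σ, T.U σ : Y.Opens) := by
      rw [T.cover]
      trivial
    obtain ⟨σ, hσ⟩ := TopologicalSpace.Opens.mem_iSup.1 h
    exact ⟨σ, hσ⟩
  obtain ⟨σ, hσ, hmin⟩ := (Set.toFinite {σ : F.cones | x ∈ T.U σ}).exists_minimalFor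
    (fun σ => σ.1) _ hne
  refine ⟨σ, hσ, fun τ hτ => ?_⟩
  have h1 : x ∈ T.U (capC σ τ) := by
    rw [← T.inter σ τ (capC σ τ) rfl]
    exact ⟨hσ, hτ⟩
  have h2 : σ.1 ⊆ (capC σ τ).1 := hmin h1 Set.inter_subset_left
  exact h2.trans Set.inter_subset_right

/-- The smallest cone `σ` with `x ∈ U_σ`. -/
noncomputable def minCone (x : Y) : F.cones := (T.exists_min x).choose

theorem mem_minCone (x : Y) : x ∈ T.U (T.minCone x) := (T.exists_min x).choose_spec.1

theorem minCone_le {x : Y} {τ : F.cones} (h : x ∈ T.U τ) : (T.minCone x).1 ⊆ τ.1 :=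
  (T.exists_min x).choose_spec.2 τ h

theorem U_mono {σ τ : F.cones} (h : τ.1 ⊆ σ.1) : T.U τ ≤ T.U σ := by
  have h1 := T.inter σ τ τ (Set.inter_eq_right.2 h).symm
  rw [← h1]
  exact inf_le_left

theorem mem_U_iff {x : Y} {τ : F.cones} : x ∈ T.U τ ↔ (T.minCone x).1 ⊆ τ.1 :=
  ⟨T.minCone_le, fun h => T.U_mono h (T.mem_minCone x)⟩

theorem absv_chi_ne_zero {σ : F.cones} {m : dualM σ.1} (hm : m.1 ∈ perpM σ.1) {z : An Y ι}
    (hz : z.pt ∈ T.U σ) : An.absv (T.U σ) (T.chi σ m) z ≠ 0 := by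
  have hm' : -m.1 ∈ dualM σ.1 := TropPt.perp_dual ((perpM σ.1).neg_mem hm)
  have h1 : T.chi σ m * T.chi σ ⟨-m.1, hm'⟩ = 1 := by
    rw [← T.chi_add, ← T.chi_zero]
    congr 1
    apply Subtype.ext
    show m.1 + -m.1 = 0
    exact add_neg_cancel _
  have h2 := An.absv_mul (T.chi σ m) (T.chi σ ⟨-m.1, hm'⟩) z
  rw [h1, An.absv_one hz] at h2
  intro h
  rw [h, zero_mul] at h2
  exact one_ne_zero h2

/-- `log |χ^m|` at `z`, on the smallest chart containing `z`. -/
noncomputable def lgc (z : An Y ι) (m : Pg (T.minCone z.pt).1) : ℝ :=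
  Real.log (An.absv (T.U (T.minCone z.pt))
    (T.chi (T.minCone z.pt) ⟨m.1, TropPt.perp_dual m.2⟩) z)

theorem lgc_add (z : An Y ι) (m m' : Pg (T.minCone z.pt).1) :
    T.lgc z (m + m') = T.lgc z m + T.lgc z m' := by
  have e : T.chi (T.minCone z.pt) ⟨(m + m').1, TropPt.perp_dual (m + m').2⟩ =
      T.chi (T.minCone z.pt) ⟨m.1, TropPt.perp_dual m.2⟩ *
      T.chi (T.minCone z.pt) ⟨m'.1, TropPt.perp_dual m'.2⟩ := by
    rw [← T.chi_add]
    rfl
  unfold lgc
  rw [e, An.absv_mul, Real.log_mul (T.absv_chi_ne_zero m.2 (T.mem_minCone z.pt))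
    (T.absv_chi_ne_zero m'.2 (T.mem_minCone z.pt))]

/-- The tropicalization map `Y^an → Trop(Y)`. -/
noncomputable def trop (z : An Y ι) : TropPt F where
  cone := T.minCone z.pt
  val := AddMonoidHom.mk' (T.lgc z) (T.lgc_add z)

@[simp] theorem trop_cone (z : An Y ι) : (T.trop z).cone = T.minCone z.pt := rfl

/-- The value `|χ^m|` at the tropicalization, for `m ∈ σ^⊥`, `σ` the cone of the point. -/
theorem absv_trop_perp {z : An Y ι} {σ : F.cones} (hσ : z.pt ∈ T.U σ) {m : dualM σ.1}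
    (hm : m.1 ∈ perpM (T.minCone z.pt).1) :
    TropPt.absv m.1 (T.trop z) = An.absv (T.U σ) (T.chi σ m) z := by
  have h1 : TropPt.absv m.1 (T.trop z) = Real.exp (Real.log (An.absv (T.U (T.minCone z.pt))
      (T.chi (T.minCone z.pt) ⟨m.1, TropPt.perp_dual hm⟩) z)) := by
    unfold TropPt.absv
    have : m.1 ∈ perpM (T.trop z).cone.1 := hm
    rw [dif_pos this]
    rfl
  have hne := T.absv_chi_ne_zero (m := ⟨m.1, TropPt.perp_dual hm⟩) hm (T.mem_minCone z.pt)
  rw [h1, Real.exp_log (lt_of_le_of_ne (An.absv_nonneg _ _ _) hne.symm)]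
  rw [← T.chi_res σ (T.minCone z.pt) (T.U_mono (T.minCone_le hσ)) m
    ⟨m.1, TropPt.perp_dual hm⟩ (T.minCone_le hσ) rfl]
  exact An.absv_res _ _ (T.mem_minCone z.pt)

end Toric

end Pool.Agent.TD
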