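import Pool.Agent.TD.Y.Map
import Pool.Agent.TD.A3

/-! Block Y: restriction of a `LogSpace` to an open subset, real affine space. -/

open scoped ContDiff Topology

namespace Pool.Agent.TD

namespace LogSpace

variable {X Φ : Type} [TopologicalSpace X] (L : LogSpace X Φ) {p q : ℕ}

/-- Restriction to a subset. -/
def restr (W : Set X) : LogSpace W Φ where
  dom f := {z | z.1 ∈ L.dom f}
  lf f z := L.lf f z.1
  isOpen_dom f := (L.isOpen_dom f).preimage continuous_subtype_val
  cont f := (L.cont f).comp continuous_subtype_val.continuousOn (fun _ hz => hz)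

/-- The inclusion of a subset. -/
def incl (W : Set X) : Mor (L.restr W) L where
  toFun := Subtype.val
  cont := continuous_subtype_val
  ix := id
  dom_sub _ _ h := h
  lf_eq _ _ _ := rfl

theorem incl_affAt (W : Set X) (z : W) : (L.incl W).AffAt z := by
  intro f hf
  refine ⟨1, fun _ => f, fun _ => 1, 0, fun _ => hf, Filter.Eventually.of_forall fun z' => ?_⟩
  simp [incl]

/-- The stalks of the restriction to an open subset are the stalks of the space. -/
theorem incl_bij {W : Set X} (hW : IsOpen W) (z : W) :
    Function.Bijective ((L.incl W).pullS p q z) := by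
  refine ⟨Mor.pullS_injective _ (L.incl_affAt W z) ?_, Mor.pullS_surjective _ (L.incl_affAt W z)⟩
  intro V hV
  exact hW.isOpenMap_subtype_val.image_mem_nhds hV

/-- Real affine space with its coordinates. -/
def rnLS (r : ℕ) : LogSpace (Fin r → ℝ) (Fin r) where
  dom _ := Set.univ
  lf i x := x i
  isOpen_dom _ := isOpen_univ
  cont i := (continuous_apply i).continuousOn

end LogSpace

end Pool.Agent.TD
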