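import Pool.Agent.TD.Y.Defs

/-! Block Y: rational cones: Farkas lemma (module TD_Y_Cone). -/

namespace Pool.Agent.TD

variable {n : ℕ}

/-- An integral vector as a real vector. -/
def rv (v : Fin n → ℤ) : Fin n → ℝ := fun i => (v i : ℝ)

theorem pair_add_left (m m' : Fin n → ℤ) (x : Fin n → ℝ) :
    pair (m + m') x = pair m x + pair m' x := by
  simp only [pair, Pi.add_apply, Int.cast_add, add_mul, Finset.sum_add_distrib]

theorem pair_neg_left (m : Fin n → ℤ) (x : Fin n → ℝ) : pair (-m) x = -pair m x := by
  simp [pair]

theorem pair_add_right (m : Fin n → ℤ) (x y : Fin n → ℝ) :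
    pair m (x + y) = pair m x + pair m y := by
  simp only [pair, Pi.add_apply, mul_add, Finset.sum_add_distrib]

theorem pair_smul_right (m : Fin n → ℤ) (a : ℝ) (x : Fin n → ℝ) :
    pair m (a • x) = a * pair m x := by
  simp only [pair, Pi.smul_apply, smul_eq_mul, Finset.mul_sum]
  exact Finset.sum_congr rfl fun i _ => by ring

/-- Farkas lemma over an ordered field (Bartl's proof). -/
theorem farkas_field {k W ι : Type} [Field k] [LinearOrder k] [IsStrictOrderedRing k]
    [AddCommGroup W] [Module k W] (s : Finset ι) : ∀ (a : ι → W →ₗ[k] k) (c : W →ₗ[k] k),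
      (∀ x, (∀ i ∈ s, a i x ≤ 0) → c x ≤ 0) →
      ∃ l : ι → k, (∀ i, 0 ≤ l i) ∧ c = ∑ i ∈ s, l i • a i := by
  classical
  induction s using Finset.induction_on with
  | empty =>
    intro a c h
    refine ⟨fun _ => 0, fun _ => le_rfl, ?_⟩
    ext x
    have h1 := h x (by simp)
    have h2 := h (-x) (by simp)
    rw [map_neg] at h2
    simp only [Finset.sum_empty, LinearMap.zero_apply]
    linarith
  | insert j s hj ih =>
    intro a c h
    by_cases h0 : ∀ x, (∀ i ∈ s, a i x ≤ 0) → c x ≤ 0
    · obtain ⟨l, hl, hc⟩ := ih a c h0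
      refine ⟨fun i => if i = j then 0 else l i, fun i => ?_, ?_⟩
      · dsimp only
        split_ifs
        · exact le_rfl
        · exact hl i
      · dsimp only
        rw [Finset.sum_insert hj, if_pos rfl, zero_smul, zero_add, hc]
        refine Finset.sum_congr rfl fun i hi => ?_
        rw [if_neg (by rintro rfl; exact hj hi)]
    · push Not at h0
      obtain ⟨y, hy, hcy⟩ := h0
      have hb : 0 < a j y := by
        by_contra hb
        push Not at hb
        refine absurd (h y fun i hi => ?_) (not_le.mpr hcy)
        rcases Finset.mem_insert.mp hi with rfl | hi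
        · exact hb
        · exact hy i hi
      obtain ⟨l, hl, hc⟩ := ih (fun i => a i - (a i y / a j y) • a j) (c - (c y / a j y) • a j) (by
        intro x hx
        have h1 := h (x - (a j x / a j y) • y) (by
          intro i hi
          rcases Finset.mem_insert.mp hi with rfl | hi
          · rw [map_sub, map_smul, smul_eq_mul, div_mul_cancel₀ _ hb.ne', sub_self]
          · have h2 := hx i hi
            simp only [LinearMap.sub_apply, LinearMap.smul_apply, smul_eq_mul] at h2
            rw [map_sub, map_smul, smul_eq_mul]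
            calc a i x - a j x / a j y * a i y = a i x - a i y / a j y * a j x := by ring
              _ ≤ 0 := h2)
        rw [map_sub, map_smul, smul_eq_mul] at h1
        simp only [LinearMap.sub_apply, LinearMap.smul_apply, smul_eq_mul]
        calc c x - c y / a j y * a j x = c x - a j x / a j y * c y := by ring
          _ ≤ 0 := h1)
      refine ⟨fun i => if i = j then c y / a j y - ∑ i ∈ s, l i * (a i y / a j y) else l i,
        fun i => ?_, ?_⟩
      · dsimp only
        split_ifs
        · have h1 : ∑ i ∈ s, l i * (a i y / a j y) ≤ 0 :=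
            Finset.sum_nonpos fun i hi => mul_nonpos_of_nonneg_of_nonpos (hl i)
              (div_nonpos_of_nonpos_of_nonneg (hy i hi) hb.le)
          have h2 : 0 < c y / a j y := div_pos hcy hb
          linarith
        · exact hl i
      · dsimp only
        rw [Finset.sum_insert hj, if_pos rfl]
        have h1 : ∑ i ∈ s, (if i = j then c y / a j y - ∑ i ∈ s, l i * (a i y / a j y) else l i) • a i
            = ∑ i ∈ s, l i • a i := by
          refine Finset.sum_congr rfl fun i hi => ?_
          rw [if_neg (by rintro rfl; exact hj hi)]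
        rw [h1]
        have h2 : c = ∑ i ∈ s, l i • (a i - (a i y / a j y) • a j) + (c y / a j y) • a j := by
          rw [← hc]
          abel
        conv_lhs => rw [h2]
        have h3 : ∀ t : k, (c y / a j y - t) • a j = (c y / a j y) • a j - t • a j :=
          fun t => by
            ext w
            simp only [LinearMap.smul_apply, LinearMap.sub_apply, smul_eq_mul]
            ring
        rw [h3]
        simp only [smul_sub, Finset.sum_sub_distrib, smul_smul, ← Finset.sum_smul]
        abel

/-- The rational linear form of an integral vector. -/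
noncomputable def qf (v : Fin n → ℤ) : (Fin n → ℚ) →ₗ[ℚ] ℚ where
  toFun x := ∑ i, (v i : ℚ) * x i
  map_add' x y := by simp [mul_add, Finset.sum_add_distrib]
  map_smul' c x := by
    simp only [Pi.smul_apply, smul_eq_mul, RingHom.id_apply, Finset.mul_sum]
    exact Finset.sum_congr rfl fun i _ => by ring

theorem qf_apply (v : Fin n → ℤ) (x : Fin n → ℚ) : qf v x = ∑ i, (v i : ℚ) * x i := rfl

/-- Clearing denominators. -/
theorem clear_den (x : Fin n → ℚ) : ∃ (N : ℕ) (m : Fin n → ℤ), 0 < N ∧
    ∀ i, (m i : ℚ) = N * x i := by
  refine ⟨∏ i, (x i).den, fun i => (x i).num * ∏ j ∈ Finset.univ.erase i, ((x j).den : ℤ),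
    Finset.prod_pos fun i _ => (x i).pos, fun i => ?_⟩
  rw [← Finset.mul_prod_erase Finset.univ (fun i => (x i).den) (Finset.mem_univ i)]
  push_cast
  have h : (x i).den * x i = ((x i).num : ℚ) := by
    rw [mul_comm]
    exact Rat.mul_den_eq_num _
  calc ((x i).num : ℚ) * ∏ j ∈ Finset.univ.erase i, ((x j).den : ℚ)
      = ((x i).den * x i) * ∏ j ∈ Finset.univ.erase i, ((x j).den : ℚ) := by rw [h]
    _ = _ := by ring

/-- Farkas lemma for rational cones: an integral vector outside the cone is separated from it by
an integral linear form.  (Prove it over `ℚ` by Fourier-Motzkin elimination / induction on the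
number of generators, and clear denominators; an integral vector in the real cone generated by
integral vectors is in the rational cone.) -/
theorem farkas {γ : Set (Fin n → ℝ)} (h : IsRatCone γ) (v : Fin n → ℤ) (hv : rv v ∉ γ) :
    ∃ m ∈ dualM γ, pair m (rv v) < 0 := by
  obtain ⟨V, rfl⟩ := h
  by_cases h0 : ∀ x : Fin n → ℚ, (∀ w ∈ V, -qf w x ≤ 0) → -qf v x ≤ 0
  · exfalso
    obtain ⟨l, hl, hc⟩ := farkas_field V (fun w => -qf w) (-qf v) h0
    apply hv
    refine ⟨fun w => (l w : ℝ), fun w => Rat.cast_nonneg.mpr (hl w), ?_⟩
    funext i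
    have h1 := congrArg (fun f : (Fin n → ℚ) →ₗ[ℚ] ℚ => f (Pi.single i 1)) hc
    simp only [LinearMap.neg_apply, LinearMap.sum_apply, LinearMap.smul_apply, qf_apply,
      smul_eq_mul, Pi.single_apply, mul_ite, mul_one, mul_zero, Finset.sum_ite_eq',
      Finset.mem_univ, if_true, mul_neg, Finset.sum_neg_distrib, neg_inj] at h1
    simp only [rv, Finset.sum_apply, Pi.smul_apply, smul_eq_mul]
    have h2 : ((v i : ℚ) : ℝ) = ((∑ w ∈ V, l w * (w i : ℚ) : ℚ) : ℝ) := by rw [h1]
    push_cast at h2
    exact h2
  · push Not at h0
    obtain ⟨x, hx, hvx⟩ := h0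
    obtain ⟨N, m, hN, hm⟩ := clear_den x
    have hp : ∀ w : Fin n → ℤ, pair m (rv w) = (N : ℝ) * ((qf w x : ℚ) : ℝ) := by
      intro w
      have h1 : ∀ i, (m i : ℝ) = (N : ℝ) * (x i : ℝ) := by
        intro i
        have h2 : ((m i : ℚ) : ℝ) = ((N * x i : ℚ) : ℝ) := by rw [hm i]
        push_cast at h2
        exact h2
      simp only [pair, rv, qf_apply]
      push_cast
      rw [Finset.mul_sum]
      refine Finset.sum_congr rfl fun i _ => ?_
      rw [h1]
      ring
    have hN' : (0 : ℝ) < N := by exact_mod_cast hN
    refine ⟨m, ?_, ?_⟩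
    · rintro _ ⟨a, ha, rfl⟩
      have h1 : pair m (∑ w ∈ V, a w • (fun i => (w i : ℝ))) = ∑ w ∈ V, a w * pair m (rv w) := by
        classical
        have h2 : ∀ s : Finset (Fin n → ℤ), pair m (∑ w ∈ s, a w • (fun i => (w i : ℝ))) =
            ∑ w ∈ s, a w * pair m (rv w) := by
          intro s
          induction s using Finset.induction_on with
          | empty => simp [pair]
          | insert w s hw ih =>
            rw [Finset.sum_insert hw, Finset.sum_insert hw, pair_add_right, ih, pair_smul_right]
            rfl
        exact h2 V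
      rw [h1]
      refine Finset.sum_nonneg fun w hw => mul_nonneg (ha w) ?_
      rw [hp]
      have h3 : 0 ≤ qf w x := by
        have := hx w hw
        linarith
      have h4 : (0 : ℝ) ≤ ((qf w x : ℚ) : ℝ) := by exact_mod_cast h3
      positivity
    · rw [hp]
      have h3 : qf v x < 0 := by linarith
      have h4 : ((qf v x : ℚ) : ℝ) < 0 := by exact_mod_cast h3
      exact mul_neg_of_pos_of_neg hN' h4

end Pool.Agent.TD
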