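import Pool.Agent.TD.Y.Fib
import Pool.Agent.TD.H.Cx

/-! Block Y: the comparison of the Dolbeault cohomology of `Trop(Y)` and `Y^an`, `Y` toric
(stage 1). -/

open scoped ContDiff Topology
open AlgebraicGeometry CategoryTheory

namespace Pool.Agent.TD

namespace Toric

variable {K : Type} [NormedField K] [IsUltrametricDist K] {n : ℕ} {F : Fan n}
  {Y : Scheme.{0}} {ι : K →+* Γ(Y, ⊤)} (T : Toric F Y ι)

theorem isProp : T.tropMor.IsProp := fun _ h => T.isCompact_preimage h

theorem properOn : ProperOn Set.univ T.trop := by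
  refine properOn_of_comp T.continuous_trop isClosed_univ fun Z hZ => ?_
  rw [Set.univ_inter]
  exact T.isCompact_preimage hZ

theorem supp_pullG {p q : ℕ} (c : (tropLS F).G p q) {z : An Y ι}
    (h : z ∈ (anLS Y ι).supp (T.tropMor.pullG p q c)) : T.trop z ∈ (tropLS F).supp c := by
  intro h0
  apply h
  rw [Mor.pullG_val]
  have h1 : c.1 (T.tropMor.toFun z) = 0 := h0
  rw [h1, map_zero]

section inst

variable [T2Space (An Y ι)] [LocallyCompactSpace (An Y ι)]

/-- The complex of forms on `Y^an`, pushed forward to `Trop(Y)`. -/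
noncomputable def cxP (p : ℕ) : SCx (TropPt F) := ((anLS Y ι).cx T.cutOff p).push T.properOn

/-- The class of a form. -/
noncomputable def clsP (p q : ℕ) : (anLS Y ι).G p q →+ (T.cxP p).G q :=
  ((anLS Y ι).cx T.cutOff p).cls Set.univ q

theorem clsP_surj (p q : ℕ) : Function.Surjective (T.clsP p q) :=
  ((anLS Y ι).cx T.cutOff p).cls_surjective q

theorem clsP_eq_zero {p q : ℕ} {c : (anLS Y ι).G p q} : T.clsP p q c = 0 ↔ c = 0 := by
  have h1 := ((anLS Y ι).cx T.cutOff p).cls_eq_zero (S := Set.univ) (q := q) (c := c)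
  refine Iff.trans h1 ?_
  constructor
  · intro h
    apply Subtype.ext
    funext z
    exact ((anLS Y ι).disjoint_supp_iff p c Set.univ).1 h z trivial
  · rintro rfl
    exact ((anLS Y ι).disjoint_supp_iff p 0 Set.univ).2 fun z _ => rfl

theorem clsP_inj {p q : ℕ} {c c' : (anLS Y ι).G p q} (h : T.clsP p q c = T.clsP p q c') :
    c = c' := by
  rw [← sub_eq_zero] at h ⊢
  rw [← map_sub] at h
  exact T.clsP_eq_zero.1 h

theorem clsP_d (p q : ℕ) (c : (anLS Y ι).G p q) :
    (T.cxP p).d q (T.clsP p q c) = T.clsP p (q + 1) ((anLS Y ι).ddG p q c) := rfl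

theorem supp_clsP {p q : ℕ} (c : (anLS Y ι).G p q) :
    (T.cxP p).supp (T.clsP p q c) = T.trop '' ((anLS Y ι).supp c) := by
  have h := ((anLS Y ι).cx T.cutOff p).push_supp T.properOn c
  rw [Set.inter_univ] at h
  exact h

/-- The morphism of complexes with supports. -/
noncomputable def shom (p : ℕ) : SHom ((tropLS F).cx cutOff_trop p) (T.cxP p) where
  f q := (T.clsP p q).comp (T.tropMor.pullG p q).toAddMonoidHom
  comm q c := congrArg (T.clsP p (q + 1)) (T.tropMor.pullG_dd p q c)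
  supp q c := by
    have h := T.supp_clsP (T.tropMor.pullG p q c)
    refine h.trans_subset ?_
    rintro _ ⟨z, hz, rfl⟩
    exact T.supp_pullG c hz

theorem shom_f (p q : ℕ) (c : (tropLS F).G p q) :
    (T.shom p).f q c = T.clsP p q (T.tropMor.pullG p q c) := rfl

theorem qiso (h : F2 K) (p : ℕ) (b : TropPt F) : (T.shom p).QIso {b} := by
  have hst := starAt_trop b
  have key : ∀ {q : ℕ} (P : An Y ι → Prop),
      (∀ z ∈ (Set.univ : Set (An Y ι)) ∩ T.trop ⁻¹' {b}, P z) ↔ ∀ z, T.trop z = b → P z := by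
    intro q P
    constructor
    · intro h z hz
      exact h z ⟨trivial, hz⟩
    · rintro h z ⟨-, hz⟩
      exact h z hz
  refine ⟨?_, ?_⟩
  · intro q c hc hb
    rcases q with _ | q
    · have h1 : ((anLS Y ι).cx T.cutOff p).Bd (Set.univ ∩ T.trop ⁻¹' {b}) 0
          (T.tropMor.pullG p 0 c) :=
        (((anLS Y ι).cx T.cutOff p).push_Bd T.properOn {b} (T.tropMor.pullG p 0 c)).1 hb
      rw [(anLS Y ι).cx_Bd_zero_iff T.cutOff, key (q := 0)] at h1
      have h2 := ((tropLS F).cx_Cl_iff cutOff_trop p {b} 0 c).1 hc b rfl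
      rw [(tropLS F).cx_Bd_zero_iff cutOff_trop]
      intro z hz
      rw [Set.mem_singleton_iff.1 hz]
      exact T.fib_inj h b c h2 h1
    · exact (tropLS F).cx_Bd_of_star cutOff_trop p hst q c hc
  · intro q e he
    obtain ⟨c, rfl⟩ := T.clsP_surj p q e
    have h1 : ((anLS Y ι).cx T.cutOff p).Cl (Set.univ ∩ T.trop ⁻¹' {b}) q c :=
      (((anLS Y ι).cx T.cutOff p).push_Cl T.properOn {b} c).1 he
    rw [(anLS Y ι).cx_Cl_iff T.cutOff, key (q := 0)] at h1
    rcases q with _ | q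
    · obtain ⟨a, ha, hac⟩ := T.fib_zero h b c h1
      refine ⟨a, ?_, ?_⟩
      · exact ((tropLS F).cx_Cl_iff cutOff_trop p {b} 0 a).2 (by rintro _ rfl; exact ha)
      · have h2 : ((anLS Y ι).cx T.cutOff p).Bd (Set.univ ∩ T.trop ⁻¹' {b}) 0
            (c - T.tropMor.pullG p 0 a) := by
          rw [(anLS Y ι).cx_Bd_zero_iff T.cutOff, key (q := 0)]
          intro z hz
          have h3 := hac z hz
          show c.1 z - (T.tropMor.pullG p 0 a).1 z = 0
          rw [h3, sub_self]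
        have h3 := (((anLS Y ι).cx T.cutOff p).push_Bd T.properOn {b}
          (c - T.tropMor.pullG p 0 a)).2 h2
        have h4 : T.clsP p 0 (c - T.tropMor.pullG p 0 a) =
            T.clsP p 0 c - (T.shom p).f 0 a := map_sub (T.clsP p 0) _ _
        rw [← h4]
        exact h3
    · obtain ⟨e, he'⟩ := T.fib_exact h b c h1
      refine ⟨(0 : (tropLS F).G p (q + 1)), ?_, ?_⟩
      · refine ((tropLS F).cx_Cl_iff cutOff_trop p {b} (q + 1) 0).2 ?_
        rintro z -
        exact map_zero _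
      · have h2 : ((anLS Y ι).cx T.cutOff p).Bd (Set.univ ∩ T.trop ⁻¹' {b}) (q + 1) c := by
          rw [(anLS Y ι).cx_Bd_succ_iff T.cutOff]
          exact ⟨e, (key (q := 0) _).2 fun z hz => (he' z hz).symm⟩
        have h3 := (((anLS Y ι).cx T.cutOff p).push_Bd T.properOn {b} c).2 h2
        have h4 : T.clsP p (q + 1) c - (T.shom p).f (q + 1) (0 : (tropLS F).G p (q + 1)) =
            T.clsP p (q + 1) c := by
          rw [shom_f, map_zero, map_zero, sub_zero]
        rw [h4]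
        exact h3

theorem cxP_complete (p : ℕ) : (T.cxP p).Complete :=
  SCx.push_complete _ T.properOn ((anLS Y ι).cx_complete T.cutOff p)

end inst

theorem exists_exhaustion (F : Fan n) : Nonempty (CompactExhaustion (TropPt F)) := by
  obtain ⟨B, h1, h2, h3⟩ := exists_exhT F
  exact ⟨⟨B, h1, h2, h3⟩⟩

theorem bdG_iff [T2Space (An Y ι)] [LocallyCompactSpace (An Y ι)] {p q : ℕ}
    (c : (anLS Y ι).G p q) : (T.cxP p).BdG q (T.clsP p q c) ↔ c ∈ (anLS Y ι).Bf p q := by
  rcases q with _ | q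
  · exact T.clsP_eq_zero
  · constructor
    · rintro ⟨e, he⟩
      obtain ⟨e, rfl⟩ := T.clsP_surj p q e
      rw [T.clsP_d] at he
      exact ⟨e, (T.clsP_inj he).symm⟩
    · rintro ⟨e, rfl⟩
      exact ⟨T.clsP p q e, rfl⟩

theorem gc_iff {p q : ℕ} (c : (tropLS F).G p q) : c ∈ (tropLS F).Gc p q ↔
    IsCompact ((tropLS F).supp c) := by
  constructor
  · rintro ⟨K, hK, h⟩
    refine hK.of_isClosed_subset ((tropLS F).isClosed_supp c) fun z hz => ?_
    by_contra hz'
    exact hz (h z hz')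
  · intro h
    refine ⟨_, h, fun z hz => ?_⟩
    by_contra h'
    exact hz h'

theorem gcY_iff [T2Space (An Y ι)] [LocallyCompactSpace (An Y ι)] {p q : ℕ}
    (c : (anLS Y ι).G p q) : c ∈ (anLS Y ι).Gc p q ↔
    IsCompact ((T.cxP p).supp (T.clsP p q c)) := by
  rw [T.supp_clsP]
  constructor
  · rintro ⟨K, hK, h⟩
    have h1 : IsCompact ((anLS Y ι).supp c) :=
      hK.of_isClosed_subset ((anLS Y ι).isClosed_supp c) fun z hz => by
        by_contra hz'
        exact hz (h z hz')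
    exact h1.image T.continuous_trop
  · intro h
    refine ⟨_, T.isCompact_preimage h, fun z hz => ?_⟩
    by_contra h'
    exact hz ⟨z, h', rfl⟩

theorem bdC_iff [T2Space (An Y ι)] [LocallyCompactSpace (An Y ι)] {p q : ℕ}
    (c : (anLS Y ι).G p q) : (T.cxP p).BdC q (T.clsP p q c) ↔ c ∈ (anLS Y ι).Bc p q := by
  rcases q with _ | q
  · exact T.clsP_eq_zero
  · constructor
    · rintro ⟨e, he1, he⟩
      obtain ⟨e, rfl⟩ := T.clsP_surj p q e
      rw [T.clsP_d] at he
      exact ⟨e, (T.gcY_iff e).2 he1, (T.clsP_inj he).symm⟩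
    · rintro ⟨e, he1, rfl⟩
      exact ⟨T.clsP p q e, (T.gcY_iff e).1 he1, rfl⟩

/-- Stage 1, in terms of forms. -/
theorem stage1_forms (h : F2 K) (p q : ℕ) :
    ((∀ c ∈ (anLS Y ι).Zf p q, ∃ a ∈ (tropLS F).Zf p q,
      c - T.tropMor.pullG p q a ∈ (anLS Y ι).Bf p q) ∧
    (∀ a ∈ (tropLS F).Zf p q, T.tropMor.pullG p q a ∈ (anLS Y ι).Bf p q →
      a ∈ (tropLS F).Bf p q)) ∧
    (∀ c ∈ (anLS Y ι).Zc p q, ∃ a ∈ (tropLS F).Zc p q,
      c - T.tropMor.pullG p q a ∈ (anLS Y ι).Bc p q) ∧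
    (∀ a ∈ (tropLS F).Zc p q, T.tropMor.pullG p q a ∈ (anLS Y ι).Bc p q →
      a ∈ (tropLS F).Bc p q) := by
  have := T.t2
  have := T.locallyCompact
  obtain ⟨E⟩ := exists_exhaustion F
  have hG := (T.shom p).qiso_global ((tropLS F).cx_complete cutOff_trop p) (T.cxP_complete p) E
    fun b => T.qiso h p b
  have hC := (T.shom p).qiso_compact ((tropLS F).cx_complete cutOff_trop p) (T.cxP_complete p) E
    fun b => T.qiso h p b
  refine ⟨⟨?_, ?_⟩, ?_, ?_⟩
  · intro c hc
    have hc' : (anLS Y ι).ddG p q c = 0 := hc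
    obtain ⟨a, ha, hb⟩ := hG.2 q (T.clsP p q c) (by rw [T.clsP_d, hc', map_zero])
    refine ⟨a, ha, ?_⟩
    rw [shom_f, ← map_sub, T.bdG_iff] at hb
    exact hb
  · intro a ha hb
    have h1 := hG.1 q a ha (by rw [shom_f]; exact (T.bdG_iff _).2 hb)
    rcases q with _ | q
    · exact h1
    · obtain ⟨e, he⟩ := h1
      exact ⟨e, he.symm⟩
  · intro c hc
    have hc' : (anLS Y ι).ddG p q c = 0 := hc.1
    obtain ⟨a, ha1, ha, hb⟩ := hC.2 q (T.clsP p q c) ((T.gcY_iff c).1 hc.2)
      (by rw [T.clsP_d, hc', map_zero])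
    refine ⟨a, ⟨ha, (gc_iff a).2 ha1⟩, ?_⟩
    rw [shom_f, ← map_sub, T.bdC_iff] at hb
    exact hb
  · intro a ha hb
    have h1 := hC.1 q a ((gc_iff a).1 ha.2) ha.1 (by rw [shom_f]; exact (T.bdC_iff _).2 hb)
    rcases q with _ | q
    · exact h1
    · obtain ⟨e, he1, he⟩ := h1
      exact ⟨e, (gc_iff e).2 he1, he.symm⟩

/-- Stage 1: the tropicalization map induces isomorphisms on Dolbeault cohomology, with and
without supports. -/
theorem stage1 (h : F2 K) (p q : ℕ) : Function.Bijective (T.tropMor.mapH p q) ∧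
    Function.Bijective (Mor.mapHc T.isProp p q) := by
  obtain ⟨⟨h1, h2⟩, h3, h4⟩ := T.stage1_forms h p q
  exact ⟨Mor.mapH_bijective _ h1 h2, Mor.mapHc_bijective T.isProp h3 h4⟩

end Toric

end Pool.Agent.TD
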