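import Pool.Agent.TD.T.Basic
import Pool.Agent.TD.A3
import Pool.Agent.TD.BG.Stmts
import Pool.Agent.TD.BG.TOP
import Pool.Agent.TD.BG.BND
import Pool.Agent.TD.BG.EXH
import Pool.Agent.TD.BG.NHD
import Pool.Agent.TD.BG.CUT

/-! Block Y: facts on Berkovich spectra, from block M (module TD_Y_BerFacts). -/

open scoped Topology

namespace Pool.Agent.TD

variable {K : Type} [NormedField K] [IsUltrametricDist K] {A : Type} [CommRing A] [Algebra K A]

/-- From `BG.BND_Stmt` and `isCompact_of_bounded` (T/Basic.lean). -/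
theorem ber_compact (G : Finset A) (hG : Algebra.adjoin K (G : Set A) = ⊤) (R : ℝ) :
    IsCompact {z : Ber K A | ∀ g ∈ G, z.v g ≤ R} := by
  have h1 := BG.BND_thm K A (G : Set A) hG {z : Ber K A | ∀ g ∈ G, z.v g ≤ R}
    (fun a ha => ⟨R, fun z hz => hz a (Finset.mem_coe.mp ha)⟩)
  choose C hC using h1
  refine Ber.isCompact_of_bounded ?_ C (fun z hz a => hC a z hz)
  have h2 : {z : Ber K A | ∀ g ∈ G, z.v g ≤ R} = ⋂ g ∈ G, {z : Ber K A | z.v g ≤ R} := by
    ext z
    simp only [Set.mem_ofPred_eq, Set.mem_iInter]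
  rw [h2]
  exact isClosed_biInter fun g _ => isClosed_le (Ber.continuous_v g) continuous_const

/-- From `BG.EXH_Stmt`. -/
theorem ber_locallyCompact (h : Algebra.FiniteType K A) : LocallyCompactSpace (Ber K A) :=
  (BG.EXH_thm BG.TOP_thm BG.BND_thm K A).1

/-- From `BG.CUT_Stmt`. -/
theorem ber_cutOff (h : Algebra.FiniteType K A) : (berLS K A).CutOff :=
  BG.CUT_thm BG.TOP_thm (BG.NHD_thm BG.TOP_thm BG.BND_thm) K A

end Pool.Agent.TD
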