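import Mathlib

/-! Block Y: multiplicative seminorms and localization (module TD_Y_LB). -/

namespace Pool.Agent.TD

/-- Multiplicative ultrametric seminorms. -/
structure MSN (A : Type) [CommRing A] where
  v : A → ℝ
  nonneg : ∀ a, 0 ≤ v a
  one : v 1 = 1
  mul : ∀ a b, v (a * b) = v a * v b
  add : ∀ a b, v (a + b) ≤ max (v a) (v b)

/-- A multiplicative seminorm extends to a localization if it does not vanish on the elements
which are inverted. -/
theorem MSN.exists_loc {A B : Type} [CommRing A] [CommRing B] [Algebra A B] (M : Submonoid A)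
    [IsLocalization M B] (v : MSN A) (h : ∀ m ∈ M, v.v m ≠ 0) :
    ∃ w : MSN B, ∀ a, w.v (algebraMap A B a) = v.v a := by
  obtain ⟨w, hw⟩ : ∃ w : B → ℝ, ∀ (a : A) (m : M), w (IsLocalization.mk' B a m) =
      v.v a / v.v m := by
    refine ⟨fun b => v.v (IsLocalization.sec M b).1 / v.v (IsLocalization.sec M b).2, ?_⟩
    intro a m
    have h1 := IsLocalization.mk'_sec (M := M) B (IsLocalization.mk' B a m)
    rw [IsLocalization.eq] at h1
    obtain ⟨c, hc⟩ := h1
    have h2 := congrArg v.v hc
    rw [v.mul, v.mul, v.mul, v.mul] at h2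
    have h3 := mul_left_cancel₀ (h c c.2) h2
    have h4 := h m m.2
    have h5 := h _ (IsLocalization.sec M (IsLocalization.mk' B a m)).2.2
    show v.v (IsLocalization.sec M (IsLocalization.mk' B a m)).1 /
      v.v (IsLocalization.sec M (IsLocalization.mk' B a m)).2 = v.v a / v.v m
    rw [div_eq_div_iff h5 h4]
    linarith
  have hs : ∀ b : B, ∃ (a : A) (m : M), b = IsLocalization.mk' B a m := by
    intro b
    obtain ⟨a, m, hb⟩ := IsLocalization.exists_mk'_eq M b
    exact ⟨a, m, hb.symm⟩
  refine ⟨⟨w, ?_, ?_, ?_, ?_⟩, ?_⟩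
  · intro b
    obtain ⟨a, m, rfl⟩ := hs b
    rw [hw]
    exact div_nonneg (v.nonneg _) (v.nonneg _)
  · have h1 := hw 1 1
    rw [IsLocalization.mk'_one, map_one, Submonoid.coe_one, v.one, div_one] at h1
    exact h1
  · intro b b'
    obtain ⟨a, m, rfl⟩ := hs b
    obtain ⟨a', m', rfl⟩ := hs b'
    rw [← IsLocalization.mk'_mul, hw, hw, hw, Submonoid.coe_mul, v.mul, v.mul, div_mul_div_comm]
  · intro b b'
    obtain ⟨a, m, rfl⟩ := hs b
    obtain ⟨a', m', rfl⟩ := hs b'
    rw [← IsLocalization.mk'_add, hw, hw, hw, Submonoid.coe_mul, v.mul]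
    have h1 : 0 < v.v m := lt_of_le_of_ne (v.nonneg _) (h m m.2).symm
    have h2 : 0 < v.v m' := lt_of_le_of_ne (v.nonneg _) (h m' m'.2).symm
    have h3 := v.add (a * m') (a' * m)
    rw [v.mul, v.mul] at h3
    have h4 : v.v a / v.v m = v.v a * v.v m' / (v.v m * v.v m') := by
      rw [mul_div_mul_right _ _ h2.ne']
    have h5 : v.v a' / v.v m' = v.v a' * v.v m / (v.v m * v.v m') := by
      rw [mul_comm (v.v m), mul_div_mul_right _ _ h1.ne']
    rw [h4, h5, max_div_div_right (mul_pos h1 h2).le]
    exact div_le_div_of_nonneg_right h3 (mul_pos h1 h2).le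
  · intro a
    show w (algebraMap A B a) = v.v a
    rw [← IsLocalization.mk'_one B a (M := M), hw, Submonoid.coe_one, v.one, div_one]

/-- The extension of a multiplicative seminorm to a localization is unique. -/
theorem MSN.loc_unique {A B : Type} [CommRing A] [CommRing B] [Algebra A B] (M : Submonoid A)
    [IsLocalization M B] (w w' : MSN B)
    (h : ∀ a, w.v (algebraMap A B a) = w'.v (algebraMap A B a)) : ∀ b, w.v b = w'.v b := by
  intro b
  obtain ⟨a, m, rfl⟩ := IsLocalization.exists_mk'_eq M b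
  have key : ∀ u : MSN B, u.v (IsLocalization.mk' B a m) * u.v (algebraMap A B m) =
      u.v (algebraMap A B a) := by
    intro u
    rw [← u.mul, IsLocalization.mk'_spec]
  have hne : ∀ u : MSN B, u.v (algebraMap A B m) ≠ 0 := by
    intro u h0
    obtain ⟨c, hc⟩ := (IsLocalization.map_units B m).exists_right_inv
    have h1 := u.one
    rw [← hc, u.mul, h0, zero_mul] at h1
    exact zero_ne_one h1
  have h1 := key w
  have h2 := key w'
  rw [h a, ← h2, h m] at h1
  exact mul_right_cancel₀ (hne w') h1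

end Pool.Agent.TD
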