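import Pool.Agent.TD.Y.Chart
import Pool.Agent.TD.Y.LocBer

/-! Block Y: the analytification of an affine open subset is the Berkovich spectrum of its ring
of functions (module TD_Y_CH2). -/

open scoped Topology
open AlgebraicGeometry CategoryTheory

namespace Pool.Agent.TD

variable {K : Type} [NormedField K] {X : Scheme.{0}} {ι : K →+* Γ(X, ⊤)} {U : X.Opens}
  {A : Type} [CommRing A] [Algebra K A]

namespace An

/-- The seminorm of a point. -/
noncomputable def msn (z : An X ι) : MSN (X.presheaf.stalk z.pt) where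
  v := z.v
  nonneg := z.nonneg
  one := z.one
  mul := z.mul
  add := z.add

theorem mem_primeIdealOf (hU : IsAffineOpen U) {x : X} (hx : x ∈ U) (f : Γ(X, U)) :
    f ∈ (hU.primeIdealOf ⟨x, hx⟩).asIdeal ↔ x ∉ X.basicOpen f := by
  have h1 := hU.fromSpec_preimage_basicOpen f
  have h2 := hU.fromSpec_primeIdealOf ⟨x, hx⟩
  have h3 : hU.primeIdealOf ⟨x, hx⟩ ∈ hU.fromSpec ⁻¹ᵁ X.basicOpen f ↔ x ∈ X.basicOpen f := by
    show hU.fromSpec (hU.primeIdealOf ⟨x, hx⟩) ∈ X.basicOpen f ↔ _
    rw [h2]
  rw [← h3, h1]
  exact not_not.symm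

theorem eq_of_v {z z' : An X ι} (h : z.pt = z'.pt)
    (hv : ∀ (V : X.Opens) (f : Γ(X, V)), absv V f z = absv V f z') : z = z' := by
  obtain ⟨x, v, h1, h2, h3, h4, h5, h6⟩ := z
  obtain ⟨x', v', h1', h2', h3', h4', h5', h6'⟩ := z'
  obtain rfl : x = x' := h
  have : v = v' := by
    funext a
    obtain ⟨V, hV, f, rfl⟩ := TopCat.Presheaf.germ_exist X.presheaf a
    have h := hv V f
    rw [absv_of_mem _ hV, absv_of_mem _ hV] at h
    exact h
  subst this
  rfl

theorem ext_absv (hU : IsAffineOpen U) {z z' : An X ι} (hz : z.pt ∈ U) (hz' : z'.pt ∈ U)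
    (h : ∀ f : Γ(X, U), absv U f z = absv U f z') : z = z' := by
  have hpt : z.pt = z'.pt := by
    have h1 : hU.primeIdealOf ⟨z.pt, hz⟩ = hU.primeIdealOf ⟨z'.pt, hz'⟩ := by
      apply PrimeSpectrum.ext
      ext f
      rw [mem_primeIdealOf hU hz, mem_primeIdealOf hU hz', ← absv_ne_zero_iff f hz,
        ← absv_ne_zero_iff f hz', h f]
    have h2 := hU.fromSpec_primeIdealOf ⟨z.pt, hz⟩
    rw [h1, hU.fromSpec_primeIdealOf ⟨z'.pt, hz'⟩] at h2
    exact h2.symm
  refine eq_of_v hpt fun V f => ?_
  by_cases hV : z.pt ∈ V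
  · obtain ⟨g, h', hne, hfr⟩ := exists_frac hU V f hz hV
    rw [(hfr z hz hne).2, (hfr z' hz' (by rwa [← h h'])).2, h, h]
  · have hV' : z'.pt ∉ V := by rwa [← hpt]
    unfold absv
    rw [dif_neg hV, dif_neg hV']

/-- Every seminorm on `Γ(X, U)` comes from exactly one point of `U^an`, `U` affine. -/
theorem toBer_bijective (hU : IsAffineOpen U) (φ : A ≃+* Γ(X, U))
    (hφ : ∀ c, φ (algebraMap K A c) = stK ι U c) :
    Function.Bijective (toBer (ι := ι) φ.toRingHom hφ) := by
  constructor
  · intro z z' h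
    apply Subtype.ext
    refine ext_absv hU z.2 z'.2 fun f => ?_
    have h1 := congrArg (fun y : Ber K A => y.v (φ.symm f)) h
    have h2 : absv U (φ.toRingHom (φ.symm f)) z.1 = absv U (φ.toRingHom (φ.symm f)) z'.1 := h1
    have h3 : φ.toRingHom (φ.symm f) = f := φ.apply_symm_apply f
    rwa [h3] at h2
  · intro y
    -- the prime ideal
    let P : Ideal Γ(X, U) :=
      { carrier := {f | y.v (φ.symm f) = 0}
        zero_mem' := by
          show y.v (φ.symm 0) = 0
          rw [map_zero, y.zero]
        add_mem' := by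
          intro f g hf hg
          have hf' : y.v (φ.symm f) = 0 := hf
          have hg' : y.v (φ.symm g) = 0 := hg
          show y.v (φ.symm (f + g)) = 0
          rw [map_add]
          refine le_antisymm ((y.add _ _).trans ?_) (y.nonneg _)
          rw [hf', hg', max_self]
        smul_mem' := by
          intro c f hf
          have hf' : y.v (φ.symm f) = 0 := hf
          show y.v (φ.symm (c * f)) = 0
          rw [map_mul, y.mul, hf', mul_zero] }
    have hP : P.IsPrime := by
      refine ⟨?_, ?_⟩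
      · intro h
        have h1 : (1 : Γ(X, U)) ∈ P := by rw [h]; trivial
        have h2 : y.v (φ.symm 1) = 0 := h1
        rw [map_one, y.one] at h2
        exact one_ne_zero h2
      · intro f g h
        have h2 : y.v (φ.symm (f * g)) = 0 := h
        rw [map_mul, y.mul] at h2
        exact mul_eq_zero.1 h2
    let p : PrimeSpectrum Γ(X, U) := ⟨P, hP⟩
    have hx : hU.fromSpec p ∈ U := by
      have h1 : hU.fromSpec p ∈ Set.range hU.fromSpec := ⟨p, rfl⟩
      rw [hU.range_fromSpec] at h1
      exact h1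
    let := TopCat.Presheaf.algebra_section_stalk X.presheaf
      (⟨hU.fromSpec p, hx⟩ : (U : TopologicalSpace.Opens X))
    have hloc : IsLocalization P.primeCompl (X.presheaf.stalk (hU.fromSpec p)) :=
      hU.isLocalization_stalk' p hx
    let v' : MSN Γ(X, U) :=
      { v := fun f => y.v (φ.symm f)
        nonneg := fun f => y.nonneg _
        one := by rw [map_one, y.one]
        mul := fun f g => by rw [map_mul, y.mul]
        add := fun f g => by rw [map_add]; exact y.add _ _ }
    obtain ⟨w, hw⟩ := MSN.exists_loc P.primeCompl (B := X.presheaf.stalk (hU.fromSpec p)) v'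
      (fun m hm => hm)
    have hw' : ∀ f : Γ(X, U), w.v (X.presheaf.germ U (hU.fromSpec p) hx f) = y.v (φ.symm f) :=
      hw
    let z : An X ι :=
      { pt := hU.fromSpec p
        v := w.v
        nonneg := w.nonneg
        one := w.one
        mul := w.mul
        add := w.add
        ext := by
          intro c
          have h1 : X.presheaf.germ ⊤ (hU.fromSpec p) trivial (ι c) =
              X.presheaf.germ U (hU.fromSpec p) hx (stK ι U c) :=
            (TopCat.Presheaf.germ_res_apply X.presheaf (homOfLE (le_top : U ≤ ⊤)) _ hx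
              (ι c)).symm
          show w.v (X.presheaf.germ ⊤ (hU.fromSpec p) trivial (ι c)) = _
          rw [h1, hw', ← hφ, φ.symm_apply_apply, y.ext]
        ker := by
          intro a
          obtain ⟨f, s, rfl⟩ := IsLocalization.exists_mk'_eq P.primeCompl a
          have h1 : w.v (IsLocalization.mk' _ f s) * y.v (φ.symm s.1) = y.v (φ.symm f) := by
            rw [← hw' s.1, ← hw' f]
            have h2 := w.mul (IsLocalization.mk' (X.presheaf.stalk (hU.fromSpec p)) f s)
              (algebraMap _ _ s.1)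
            rw [IsLocalization.mk'_spec] at h2
            exact h2.symm
          rw [IsLocalization.AtPrime.isUnit_mk'_iff (X.presheaf.stalk (hU.fromSpec p)) P f s]
          constructor
          · intro h h2
            rw [h, zero_mul] at h1
            exact h2 h1.symm
          · intro h
            have h3 : y.v (φ.symm f) = 0 := by
              by_contra h4
              exact h h4
            rw [h3] at h1
            exact (mul_eq_zero.1 h1).resolve_right s.2 }
    refine ⟨⟨z, hx⟩, ?_⟩
    apply Ber.ext_v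
    intro a
    show absv U (φ a) z = y.v a
    rw [absv_of_mem _ hx]
    have h1 := hw' (φ a)
    rw [φ.symm_apply_apply] at h1
    exact h1

theorem toBer_homeo (hU : IsAffineOpen U) (φ : A ≃+* Γ(X, U))
    (hφ : ∀ c, φ (algebraMap K A c) = stK ι U c) :
    IsHomeomorph (toBer (ι := ι) φ.toRingHom hφ) := by
  have hb := toBer_bijective (ι := ι) hU φ hφ
  have hc := toBer_continuous (ι := ι) φ.toRingHom hφ
  have hind : Topology.IsInducing (toBer (ι := ι) φ.toRingHom hφ) := by
    refine ⟨le_antisymm hc.le_induced ?_⟩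
    have e1 : (instTopologicalSpaceSubtype : TopologicalSpace (opn ι U)) =
      TopologicalSpace.generateFrom _ := induced_generateFrom_eq
    rw [e1]
    refine le_generateFrom ?_
    rintro _ ⟨_, ⟨V, f, W, hW, rfl⟩, rfl⟩
    have hv : ∀ (g : Γ(X, U)) (z : opn ι U),
        (toBer (ι := ι) φ.toRingHom hφ z).v (φ.symm g) = absv U g z.1 := by
      intro g z
      show absv U (φ (φ.symm g)) z.1 = _
      rw [φ.apply_symm_apply]
    let Q : Γ(X, U) × Γ(X, U) → Prop := fun gh => ∀ z' : An X ι, z'.pt ∈ U →
      absv U gh.2 z' ≠ 0 → z'.pt ∈ V ∧ absv V f z' = absv U gh.1 z' / absv U gh.2 z'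
    refine isOpen_induced_iff.2 ⟨⋃ gh : {gh : Γ(X, U) × Γ(X, U) // Q gh},
      {b : Ber K A | b.v (φ.symm gh.1.2) ≠ 0 ∧
        b.v (φ.symm gh.1.1) / b.v (φ.symm gh.1.2) ∈ W}, ?_, ?_⟩
    · refine isOpen_iUnion fun gh => ?_
      rw [isOpen_iff_mem_nhds]
      rintro b ⟨hb1, hb2⟩
      have h1 : ContinuousAt (fun b : Ber K A => b.v (φ.symm gh.1.1) / b.v (φ.symm gh.1.2)) b :=
        (Ber.continuous_v _).continuousAt.div (Ber.continuous_v _).continuousAt hb1
      have h2 : ∀ᶠ b : Ber K A in 𝓝 b, b.v (φ.symm gh.1.2) ≠ 0 :=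
        (Ber.continuous_v _).continuousAt.eventually_ne hb1
      exact h2.and (h1.eventually_mem (hW.mem_nhds hb2))
    · ext z
      simp only [Set.preimage_iUnion, Set.mem_iUnion, Set.mem_preimage]
      constructor
      · rintro ⟨gh, h1, h2⟩
        rw [hv] at h1
        rw [hv, hv] at h2
        obtain ⟨h3, h4⟩ := gh.2 z.1 z.2 h1
        refine ⟨h3, ?_⟩
        rw [h4]
        exact h2
      · rintro ⟨h1, h2⟩
        obtain ⟨g, h, hne, hfr⟩ := exists_frac hU V f z.2 h1
        refine ⟨⟨(g, h), hfr⟩, ?_, ?_⟩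
        · rw [hv]
          exact hne
        · rw [hv, hv, ← (hfr z.1 z.2 hne).2]
          exact h2
  exact (isHomeomorph_iff_isEmbedding_surjective).2 ⟨⟨hind, hb.1⟩, hb.2⟩

end An

end Pool.Agent.TD
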