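import Pool.Agent.TD.Y.LocP

/-! Block Y: the comparison morphism is locally affine (module TD_Y_L1). -/

open scoped ContDiff Topology
open AlgebraicGeometry CategoryTheory

namespace Pool.Agent.TD

namespace Toric

variable {K : Type} [NormedField K] {n : ℕ} {F : Fan n} {Y : Scheme.{0}} {ι : K →+* Γ(Y, ⊤)}
  (T : Toric F Y ι)

/-- The difference of a function on `U_σ` and its projection vanishes at the points of the orbit
of `σ`. -/
theorem absv_sub_incH_projH (σ : F.cones) (a : AddMonoidAlgebra K (dualM σ.1)) {z : An Y ι}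
    (hz : T.minCone z.pt = σ) :
    An.absv (T.U σ) (T.evHom σ a - T.evHom σ (incH K σ.1 (projH K σ.1 a))) z = 0 := by
  rw [← map_sub, T.absv_incH_projH σ _ hz, map_sub, projH_incH, sub_self, map_zero, map_zero,
    An.absv_zero]

/-- If `|g - g_0| < |g|` then `|g_0| = |g|`. -/
theorem absv_eq_of_sub_lt {X : Scheme.{0}} {ι : K →+* Γ(X, ⊤)} {U : X.Opens} {g g₀ : Γ(X, U)}
    {z : An X ι} (h : An.absv U (g - g₀) z < An.absv U g z) : An.absv U g z = An.absv U g₀ z := by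
  apply le_antisymm
  · have h1 := An.absv_add (g - g₀) g₀ z
    rw [sub_add_cancel] at h1
    rcases le_max_iff.1 h1 with h2 | h2
    · exact absurd h2 (not_le.2 h)
    · exact h2
  · have h1 := An.absv_add g (-(g - g₀)) z
    rw [An.absv_neg, show g + -(g - g₀) = g₀ by ring] at h1
    exact h1.trans (max_le le_rfl h.le)

/-- Near a point `z` of the orbit of `σ` where it does not vanish a function on `U_σ` has the
absolute value of a quotient of two polynomials in the characters of `σ^⊥`. -/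
theorem exists_polys (σ : F.cones) {r : ℕ} {e : Fin r → Fin n → ℤ} (he : IsPB σ.1 e)
    (z : An.opn ι (T.U σ)) (hz : T.minCone z.1.pt = σ) (g : Γ(Y, T.U σ))
    (hg : An.absv (T.U σ) g z.1 ≠ 0) : ∃ P Q : MvPolynomial (Fin r) K,
      An.absv (T.U σ) (T.evPoly σ he P) z.1 ≠ 0 ∧ An.absv (T.U σ) (T.evPoly σ he Q) z.1 ≠ 0 ∧
      ∀ᶠ z' : An.opn ι (T.U σ) in 𝓝 z, Real.log (An.absv (T.U σ) g z'.1) =
        Real.log (An.absv (T.U σ) (T.evPoly σ he P) z'.1) -
          Real.log (An.absv (T.U σ) (T.evPoly σ he Q) z'.1) := by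
  obtain ⟨a, rfl⟩ := (T.evHom_bij σ).2 g
  obtain ⟨P, Q, hQ, hPQ⟩ := exists_poly he (projH K σ.1 a)
  set g₀ := T.evHom σ (incH K σ.1 (projH K σ.1 a)) with hg₀
  have hQne : ∀ z' : An.opn ι (T.U σ), An.absv (T.U σ) (T.evPoly σ he Q) z'.1 ≠ 0 := by
    intro z'
    rw [← T.locMor_v]
    exact varM_ne_zero (T.locMor_X_ne_zero σ he z') hQ
  have hmul : T.evPoly σ he Q * g₀ = T.evPoly σ he P := by
    rw [T.evPoly_eq, T.evPoly_eq, hg₀, ← map_mul, ← map_mul, hPQ]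
  have habs : ∀ z' : An Y ι, An.absv (T.U σ) (T.evPoly σ he Q) z' * An.absv (T.U σ) g₀ z' =
      An.absv (T.U σ) (T.evPoly σ he P) z' := by
    intro z'
    rw [← An.absv_mul, hmul]
  have hcont : ∀ g : Γ(Y, T.U σ), Continuous fun z' : An.opn ι (T.U σ) =>
      An.absv (T.U σ) g z'.1 := fun g => (An.continuousOn_absv (ι := ι) (T.U σ) g).domRestrict
  have hlt : An.absv (T.U σ) (T.evHom σ a - g₀) z.1 < An.absv (T.U σ) (T.evHom σ a) z.1 := by
    rw [hg₀, T.absv_sub_incH_projH σ a hz]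
    exact lt_of_le_of_ne (An.absv_nonneg _ _ _) hg.symm
  have hg0z : An.absv (T.U σ) g₀ z.1 ≠ 0 := by
    rw [← absv_eq_of_sub_lt hlt]
    exact hg
  refine ⟨P, Q, ?_, hQne z, ?_⟩
  · rw [← habs]
    exact mul_ne_zero (hQne z) hg0z
  · have h1 : ∀ᶠ z' : An.opn ι (T.U σ) in 𝓝 z,
        An.absv (T.U σ) (T.evHom σ a - g₀) z'.1 < An.absv (T.U σ) (T.evHom σ a) z'.1 :=
      (hcont _).continuousAt.eventually_lt (hcont _).continuousAt hlt
    have h2 : ∀ᶠ z' : An.opn ι (T.U σ) in 𝓝 z, An.absv (T.U σ) g₀ z'.1 ≠ 0 :=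
      (hcont _).continuousAt.eventually_ne hg0z
    filter_upwards [h1, h2] with z' h1 h2
    rw [absv_eq_of_sub_lt h1, ← habs, Real.log_mul (hQne z') h2]
    ring

/-- Near a point `z` of the orbit of `σ` every function is, in absolute value,
a product of powers of functions pulled back from `M(K[T])`: first `exists_frac`; a function
`g = ∑_{m ∈ S_σ} a_m χ^m` on `U_σ` with `|g(z)| ≠ 0` has `|g| = |g_0|` near `z`,
`g_0 = ∑_{m ∈ σ^⊥} a_m χ^m`, as `|g - g_0|(z) = 0`; and `g_0` is a polynomial in the `χ^{e_i}`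
divided by a monomial. -/
theorem locMor_affAt (σ : F.cones) {r : ℕ} {e : Fin r → Fin n → ℤ} (he : IsPB σ.1 e)
    (z : An.opn ι (T.U σ)) (hz : T.minCone z.1.pt = σ) : (T.locMor σ he).AffAt z := by
  rintro ⟨V, f⟩ ⟨hV, hf⟩
  obtain ⟨g, h, hh, hgh⟩ := An.exists_frac (T.affine σ) V f z.2 hV
  have hf' : An.absv V f z.1 ≠ 0 := hf
  have hg : An.absv (T.U σ) g z.1 ≠ 0 := by
    intro h0
    rw [(hgh z.1 z.2 hh).2, h0, zero_div] at hf'
    exact hf' rfl
  obtain ⟨P₁, Q₁, hP₁, hQ₁, he₁⟩ := T.exists_polys σ he z hz g hg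
  obtain ⟨P₂, Q₂, hP₂, hQ₂, he₂⟩ := T.exists_polys σ he z hz h hh
  have hcont : ∀ g : Γ(Y, T.U σ), Continuous fun z' : An.opn ι (T.U σ) =>
      An.absv (T.U σ) g z'.1 := fun g => (An.continuousOn_absv (ι := ι) (T.U σ) g).domRestrict
  have h1 : ∀ᶠ z' : An.opn ι (T.U σ) in 𝓝 z, An.absv (T.U σ) g z'.1 ≠ 0 :=
    (hcont _).continuousAt.eventually_ne hg
  have h2 : ∀ᶠ z' : An.opn ι (T.U σ) in 𝓝 z, An.absv (T.U σ) h z'.1 ≠ 0 :=
    (hcont _).continuousAt.eventually_ne hh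
  refine ⟨4, ![P₁, Q₁, P₂, Q₂], ![1, -1, -1, 1], 0, ?_, ?_⟩
  · intro i
    fin_cases i
    · exact hP₁
    · exact hQ₁
    · exact hP₂
    · exact hQ₂
  · filter_upwards [he₁, he₂, h1, h2] with z' he₁ he₂ h1 h2
    show Real.log (An.absv V f z'.1) = 0 + ∑ i : Fin 4, (![1, -1, -1, 1] : Fin 4 → ℝ) i *
      Real.log (An.absv (T.U σ) (T.evPoly σ he
        ((![P₁, Q₁, P₂, Q₂] : Fin 4 → MvPolynomial (Fin r) K) i)) z'.1)
    rw [(hgh z'.1 z'.2 h2).2, Real.log_div h1 h2, he₁, he₂, Fin.sum_univ_four]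
    simp only [Matrix.cons_val]
    ring

end Toric

end Pool.Agent.TD
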