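import Pool.Agent.TD.Y.Cone2

/-! Block Y: faces of the cones of a fan (module TD_Y_Cone4). -/

namespace Pool.Agent.TD

variable {n : ℕ}

/-- The integral pairing. -/
def Cone4.ip (m v : Fin n → ℤ) : ℤ := ∑ i, m i * v i

theorem Cone4.pair_rv (m v : Fin n → ℤ) : pair m (rv v) = (Cone4.ip m v : ℝ) := by
  simp [pair, rv, Cone4.ip]

theorem Cone4.pair_sum (m : Fin n → ℤ) (V : Finset (Fin n → ℤ)) (a : (Fin n → ℤ) → ℝ) :
    pair m (∑ v ∈ V, a v • rv v) = ∑ v ∈ V, a v * pair m (rv v) := by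
  classical
  induction V using Finset.induction_on with
  | empty => simp [pair]
  | insert v V hv ih => rw [Finset.sum_insert hv, Finset.sum_insert hv, pair_add_right,
      pair_smul_right, ih]

theorem Cone4.gen_mem {V : Finset (Fin n → ℤ)} {v : Fin n → ℤ} (hv : v ∈ V) :
    rv v ∈ {x | ∃ a : (Fin n → ℤ) → ℝ, (∀ v, 0 ≤ a v) ∧
    x = ∑ v ∈ V, a v • (fun i => (v i : ℝ))} := by
  classical
  refine ⟨fun w => if w = v then 1 else 0, fun w => by dsimp only; split_ifs <;> norm_num, ?_⟩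
  rw [Finset.sum_eq_single v]
  · dsimp only
    rw [if_pos rfl, one_smul]
    rfl
  · intro w _ hw
    simp [hw]
  · intro h
    exact absurd hv h

/-- The dual monoid of a face is obtained by inverting the linear form which defines the face. -/
theorem face_dual {σ : Set (Fin n → ℝ)} (h : IsRatCone σ) {m : Fin n → ℤ} (hm : m ∈ dualM σ)
    {m' : Fin n → ℤ} (hm' : m' ∈ dualM {x ∈ σ | pair m x = 0}) :
    ∃ k : ℕ, m' + k • m ∈ dualM σ := by
  obtain ⟨V, rfl⟩ := h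
  have key : ∀ v ∈ V, 0 ≤ Cone4.ip m' v + (∑ w ∈ V, (Cone4.ip m' w).natAbs : ℕ) * Cone4.ip m v := by
    intro v hv
    have hg := Cone4.gen_mem hv
    have h1 : 0 ≤ Cone4.ip m v := by
      have := hm (rv v) hg
      rw [Cone4.pair_rv] at this
      exact_mod_cast this
    rcases h1.eq_or_lt with h2 | h2
    · have h3 : 0 ≤ Cone4.ip m' v := by
        have := hm' (rv v) ⟨hg, by rw [Cone4.pair_rv, ← h2]; norm_num⟩
        rw [Cone4.pair_rv] at this
        exact_mod_cast this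
      rw [← h2, mul_zero, add_zero]
      exact h3
    · have h3 : (Cone4.ip m' v).natAbs ≤ ∑ w ∈ V, (Cone4.ip m' w).natAbs :=
        Finset.single_le_sum (f := fun w => (Cone4.ip m' w).natAbs) (fun _ _ => Nat.zero_le _) hv
      have h4 : |Cone4.ip m' v| ≤ ((∑ w ∈ V, (Cone4.ip m' w).natAbs : ℕ) : ℤ) := by
        rw [Int.abs_eq_natAbs]
        exact_mod_cast h3
      have h5 : -Cone4.ip m' v ≤ |Cone4.ip m' v| := neg_le_abs _
      have h6 : (0 : ℤ) ≤ ((∑ w ∈ V, (Cone4.ip m' w).natAbs : ℕ) : ℤ) := Int.natCast_nonneg _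
      nlinarith
  refine ⟨∑ w ∈ V, (Cone4.ip m' w).natAbs, ?_⟩
  rintro x ⟨a, ha, rfl⟩
  change 0 ≤ pair _ (∑ v ∈ V, a v • rv v)
  rw [Cone4.pair_sum]
  refine Finset.sum_nonneg fun v hv => mul_nonneg (ha v) ?_
  rw [Cone4.pair_rv]
  have h7 : Cone4.ip (m' + (∑ w ∈ V, (Cone4.ip m' w).natAbs) • m) v =
      Cone4.ip m' v + (∑ w ∈ V, (Cone4.ip m' w).natAbs : ℕ) * Cone4.ip m v := by
    unfold Cone4.ip
    rw [Finset.mul_sum, ← Finset.sum_add_distrib]
    refine Finset.sum_congr rfl fun i _ => ?_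
    rw [Pi.add_apply, Pi.smul_apply, nsmul_eq_mul]
    ring
  rw [h7]
  exact_mod_cast key v hv

/-- A member of a fan contained in another one is a face of it. -/
theorem Fan.face_of_sub (F : Fan n) {σ τ : F.cones} (h : τ.1 ⊆ σ.1) : IsFace τ.1 σ.1 := by
  have h1 := (F.inter σ.1 σ.2 τ.1 τ.2).1
  rwa [Set.inter_eq_right.2 h] at h1

/-- The face of a cone cut out by a character. -/
def Fan.faceC (F : Fan n) (σ : F.cones) (m : dualM σ.1) : F.cones :=
  ⟨{x ∈ σ.1 | pair m.1 x = 0}, F.face σ.1 σ.2 _ ⟨m.1, m.2, rfl⟩⟩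

/-- Separation lemma: two cones of a fan are separated by a hyperplane which cuts both of them in
their common face. -/
theorem Fan.sep (F : Fan n) (σ τ : F.cones) : ∃ m : Fin n → ℤ, m ∈ dualM σ.1 ∧ -m ∈ dualM τ.1 ∧
    (∀ x ∈ σ.1, pair m x = 0 → x ∈ τ.1) ∧ ∀ x ∈ τ.1, pair m x = 0 → x ∈ σ.1 := by
  have hσ := F.rat σ.1 σ.2
  have hτ := F.rat τ.1 τ.2
  obtain ⟨m, hm, hl⟩ := exists_relint (hσ.sub hτ)
  have i1 : ∀ x ∈ σ.1, x ∈ {z | ∃ x ∈ σ.1, ∃ y ∈ τ.1, z = x - y} := fun x hx =>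
    ⟨x, hx, 0, hτ.zero_mem, by simp⟩
  have i2 : ∀ x ∈ τ.1, -x ∈ {z | ∃ x ∈ σ.1, ∃ y ∈ τ.1, z = x - y} := fun x hx =>
    ⟨0, hσ.zero_mem, x, hx, by simp⟩
  have pn : ∀ x, pair m (-x) = -pair m x := by
    intro x
    have := pair_smul_right m (-1) x
    rwa [neg_one_smul, neg_one_mul] at this
  have f1 := (F.inter σ.1 σ.2 τ.1 τ.2).1
  have f2 := (F.inter σ.1 σ.2 τ.1 τ.2).2
  refine ⟨m, fun x hx => hm x (i1 x hx), ?_, ?_, ?_⟩
  · intro x hx
    rw [pair_neg_left, ← pn]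
    exact hm _ (i2 x hx)
  · intro x hx h0
    obtain ⟨s, hs, t, ht, e⟩ := hl x (i1 x hx) h0
    have e' : t = x + s := by
      have : t = s - -x := by
        rw [e]
        abel
      rw [this]
      abel
    obtain ⟨m2, hm2, hf⟩ := f1
    have ht' : t ∈ σ.1 ∩ τ.1 := ⟨e' ▸ hσ.add_mem hx hs, ht⟩
    rw [hf] at ht'
    have h1 := ht'.2
    rw [e', pair_add_right] at h1
    have h2 := hm2 x hx
    have h3 := hm2 s hs
    have h4 : x ∈ σ.1 ∩ τ.1 := by
      rw [hf]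
      exact ⟨hx, by linarith⟩
    exact h4.2
  · intro x hx h0
    obtain ⟨s, hs, t, ht, e⟩ := hl (-x) (i2 x hx) (by rw [pn, h0, neg_zero])
    have e' : s = x + t := by
      have : x = s - t := by
        rw [← e, neg_neg]
      rw [this]
      abel
    obtain ⟨m2, hm2, hf⟩ := f2
    have hs' : s ∈ σ.1 ∩ τ.1 := ⟨hs, e' ▸ hτ.add_mem hx ht⟩
    rw [hf] at hs'
    have h1 := hs'.2
    rw [e', pair_add_right] at h1
    have h2 := hm2 x hx
    have h3 := hm2 t ht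
    have h4 : x ∈ σ.1 ∩ τ.1 := by
      rw [hf]
      exact ⟨hx, by linarith⟩
    exact h4.1

/-- `σ^⊥` has a basis. -/
theorem perp_basis (σ : Set (Fin n → ℝ)) : ∃ (r : ℕ) (e : Fin r → Fin n → ℤ),
    (∀ i, e i ∈ perpM σ) ∧ ∀ m ∈ perpM σ, ∃! a : Fin r → ℤ, m = ∑ i, a i • e i := by
  obtain ⟨r, ⟨b⟩⟩ := Submodule.nonempty_basis_of_pid (Pi.basisFun ℤ (Fin n))
    (AddSubgroup.toIntSubmodule (perpM σ))
  have hs : ∀ a : Fin r → ℤ, ((∑ i, a i • b i : AddSubgroup.toIntSubmodule (perpM σ)) :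
      Fin n → ℤ) = ∑ i, a i • (b i : Fin n → ℤ) := by
    intro a
    rw [Submodule.coe_sum]
    rfl
  refine ⟨r, fun i => (b i : Fin n → ℤ), fun i => (b i).2, ?_⟩
  intro m hm
  refine ⟨b.equivFun ⟨m, hm⟩, ?_, ?_⟩
  · change m = ∑ i, b.equivFun ⟨m, hm⟩ i • (b i : Fin n → ℤ)
    rw [← hs, b.sum_equivFun]
  · intro a ha
    have ha' : m = ∑ i, a i • (b i : Fin n → ℤ) := ha
    have h1 : (⟨m, hm⟩ : AddSubgroup.toIntSubmodule (perpM σ)) = ∑ i, a i • b i := by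
      apply Subtype.ext
      rw [hs]
      exact ha'
    rw [h1]
    funext j
    simp [Module.Basis.equivFun_apply, Finsupp.single_apply]

end Pool.Agent.TD
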