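import Pool.Agent.TD.A3

/-! Block Y: germs of forms only depend on the functions `lf f` near the point. -/

open scoped ContDiff Topology

namespace Pool.Agent.TD

namespace LogSpace

variable {X Φ Φ' : Type} [TopologicalSpace X] (L : LogSpace X Φ) {p q : ℕ} {z : X}

theorem germ_pullR_congr (φ φ' : Φ' → Φ) {s : Finset Φ'} {θ : Raw Φ' p q} (hs : IsSF s θ)
    (hφ : ∀ f ∈ s, z ∈ L.dom (φ f)) (hφ' : ∀ f ∈ s, z ∈ L.dom (φ' f))
    (e : ∀ f ∈ s, ∀ᶠ z' in 𝓝 z, L.lf (φ f) z' = L.lf (φ' f) z')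
    (h : L.SFat z (pullR φ θ)) (h' : L.SFat z (pullR φ' θ)) :
    L.germ (pullR φ θ) h = L.germ (pullR φ' θ) h' := by
  classical
  rw [germ_eq_iff]
  have hd : ∀ᶠ z' in 𝓝 z, ∀ f ∈ s, z' ∈ L.dom (φ f) ∧ z' ∈ L.dom (φ' f) ∧
      L.lf (φ f) z' = L.lf (φ' f) z' := by
    rw [Filter.eventually_all_finset]
    intro f hf
    have h1 : ∀ᶠ z' in 𝓝 z, z' ∈ L.dom (φ f) := (L.isOpen_dom _).mem_nhds (hφ f hf)
    have h2 : ∀ᶠ z' in 𝓝 z, z' ∈ L.dom (φ' f) := (L.isOpen_dom _).mem_nhds (hφ' f hf)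
    exact h1.and (h2.and (e f hf))
  refine ⟨s.image φ ∪ s.image φ', ?_, _, hd, ?_, ?_⟩
  · have h1 : IsSF (s.image φ ∪ s.image φ') (pullR φ θ) :=
      (hs.pullR (φ := φ)).mono Finset.subset_union_left
    have h2 : IsSF (s.image φ ∪ s.image φ') (pullR φ' θ) :=
      (hs.pullR (φ := φ')).mono Finset.subset_union_right
    have h3 := h1.add (h2.smul (-1))
    have h4 : pullR φ θ + (-1 : ℝ) • pullR φ' θ = pullR φ θ - pullR φ' θ := by
      rw [neg_smul, one_smul, sub_eq_add_neg]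
    rwa [h4] at h3
  · intro f hf z' hz'
    rcases Finset.mem_union.1 hf with hf | hf
    · obtain ⟨g, hg, rfl⟩ := Finset.mem_image.1 hf
      exact (hz' g hg).1
    · obtain ⟨g, hg, rfl⟩ := Finset.mem_image.1 hf
      exact (hz' g hg).2.1
  · intro σ hσ hσP x w v hx hw hv
    obtain ⟨α, hα, hα'⟩ := hs
    let ℓ : s → ((↥(s.image φ ∪ s.image φ') → ℝ) →ₗ[ℝ] ℝ) := fun f =>
      LinearMap.proj ⟨φ f.1, Finset.mem_union_left _ (Finset.mem_image_of_mem _ f.2)⟩ -
        LinearMap.proj ⟨φ' f.1, Finset.mem_union_right _ (Finset.mem_image_of_mem _ f.2)⟩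
    have h0 : ∀ f : s, ∀ y ∈ σ, ℓ f y = 0 := by
      intro f y hy
      obtain ⟨z', hz', rfl⟩ := hσP hy
      show L.lf (φ f.1) z' - L.lf (φ' f.1) z' = 0
      rw [(hz' f.1 f.2).2.2, sub_self]
    have h1 : ∀ f : s, ∀ y ∈ vectorSpan ℝ σ, ℓ f y = 0 := by
      intro f y hy
      rw [vectorSpan_def] at hy
      induction hy using Submodule.span_induction with
      | mem y hy =>
        obtain ⟨a, ha, b, hb, rfl⟩ := Set.mem_vsub.1 hy
        rw [vsub_eq_sub, map_sub, h0 f a ha, h0 f b hb, sub_self]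
      | zero => exact map_zero _
      | add a b _ _ ha hb => rw [map_add, ha, hb, add_zero]
      | smul c a _ ha => rw [map_smul, ha, smul_zero]
    have key : ∀ y : Φ → ℝ, (∀ f : s, ℓ f (rs (s.image φ ∪ s.image φ') y) = 0) →
        rs s (fun f => y (φ f)) = rs s (fun f => y (φ' f)) := by
      intro y hy
      funext f
      have := hy f
      exact sub_eq_zero.1 this
    show θ (fun f => x (φ f)) (fun i f => w i (φ f)) (fun j f => v j (φ f)) -
      θ (fun f => x (φ' f)) (fun i f => w i (φ' f)) (fun j f => v j (φ' f)) = 0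
    rw [hα', hα', key x fun f => h0 f _ hx]
    have e1 : (fun i => rs s fun f => w i (φ f)) = fun i => rs s fun f => w i (φ' f) :=
      funext fun i => key (w i) fun f => h1 f _ (hw i)
    have e2 : (fun j => rs s fun f => v j (φ f)) = fun j => rs s fun f => v j (φ' f) :=
      funext fun j => key (v j) fun f => h1 f _ (hv j)
    rw [e1, e2, sub_self]

end LogSpace

end Pool.Agent.TD
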