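import Pool.Agent.TD.Y.TropTop
import Pool.Agent.TD.Y.Restr

/-! Block Y: cut-off functions on the tropical toric variety (module TD_Y_TropCut). -/

open scoped ContDiff Topology

namespace Pool.Agent.TD

variable {n : ℕ} {F : Fan n}

namespace TropCut

/-- A finite product of smooth functions is smooth. -/
lemma smooth_prod {X Φ : Type} [TopologicalSpace X] (L : LogSpace X Φ) {ι : Type} (s : Finset ι)
    (g : ι → X → ℝ) (hg : ∀ i ∈ s, L.Smooth (g i)) : L.Smooth (fun z => ∏ i ∈ s, g i z) := by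
  classical
  induction s using Finset.induction_on with
  | empty =>
    simp only [Finset.prod_empty]
    exact L.smooth_const 1
  | insert i s hi ih =>
    have h1 : L.Smooth (g i) := hg i (Finset.mem_insert_self _ _)
    have h2 := ih (fun j hj => hg j (Finset.mem_insert_of_mem hj))
    have hF : ContDiff ℝ ∞ (fun x : Fin 2 → ℝ => x 0 * x 1) := by fun_prop
    have hs := LogSpace.Smooth.comp (L := L) (g := ![g i, fun z => ∏ i ∈ s, g i z]) (by
      intro j
      fin_cases j
      · exact h1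
      · exact h2) hF
    have e : (fun z => ∏ i ∈ insert i s, g i z) = (fun z => g i z * ∏ i ∈ s, g i z) := by
      funext z
      exact Finset.prod_insert hi
    rw [e]
    exact hs

/-- Extension by zero of a smooth function on an open subset. -/
lemma smooth_of_restr {X Φ : Type} [TopologicalSpace X] (L : LogSpace X Φ) {W D : Set X}
    (hW : IsOpen W) (hD : IsClosed D) (hDW : D ⊆ W) {g : X → ℝ}
    (hg : (L.restr W).Smooth (fun z => g z.1)) (h0 : ∀ z, z ∉ D → g z = 0) : L.Smooth g := by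
  intro z
  by_cases hz : z ∈ W
  · obtain ⟨s, hs, a, ha, he⟩ := hg ⟨z, hz⟩
    refine ⟨s, hs, a, ha, ?_⟩
    rw [← map_nhds_subtype_coe_eq_nhds hz (hW.mem_nhds hz), Filter.eventually_map]
    exact he
  · refine ⟨∅, by simp, fun _ => 0, contDiff_const, ?_⟩
    filter_upwards [hD.isOpen_compl.mem_nhds (fun h => hz (hDW h))] with z' hz'
    exact h0 z' hz'

lemma absv_nonneg (m : Fin n → ℤ) (b : TropPt F) : 0 ≤ TropPt.absv m b := by
  unfold TropPt.absv
  split_ifs
  · exact (Real.exp_pos _).le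
  · exact le_rfl

lemma absv_pos {m : Fin n → ℤ} {b : TropPt F} (h : m ∈ perpM b.cone.1) :
    0 < TropPt.absv m b := by
  unfold TropPt.absv
  rw [dif_pos h]
  exact Real.exp_pos _

lemma absv_eq_zero {m : Fin n → ℤ} {b : TropPt F} (h : m ∉ perpM b.cone.1) :
    TropPt.absv m b = 0 := by
  unfold TropPt.absv
  rw [dif_neg h]

/-- Bump functions. -/
lemma bump {r δ : ℝ} (hr : 0 ≤ r) (hδ : 0 < δ) : ∃ a : ℝ → ℝ, ContDiff ℝ ∞ a ∧
    (∃ ε, 0 < ε ∧ ∀ t, t < ε → a t = a 0) ∧ (∀ᶠ t in 𝓝 r, a t = 1) ∧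
      ∀ t, 0 ≤ t → δ ≤ |t - r| → a t = 0 := by
  rcases hr.eq_or_lt with rfl | hr
  · refine ⟨fun t => 1 - Real.smoothTransition (2 * t / δ - 1), ?_, ⟨δ / 2, by positivity, ?_⟩,
      ?_, ?_⟩
    · have h1 : ContDiff ℝ ∞ (fun t : ℝ => 2 * t / δ - 1) := by fun_prop
      exact contDiff_const.sub (Real.smoothTransition.contDiff.comp h1)
    · intro t ht
      have h1 : 2 * t / δ - 1 ≤ 0 := by
        rw [sub_nonpos, div_le_one hδ]
        linarith
      have h2 : 2 * (0 : ℝ) / δ - 1 ≤ 0 := by norm_num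
      simp only [Real.smoothTransition.zero_of_nonpos h1, Real.smoothTransition.zero_of_nonpos h2]
    · filter_upwards [Iio_mem_nhds (show (0 : ℝ) < δ / 2 by positivity)] with t ht
      have ht' : t < δ / 2 := ht
      have h1 : 2 * t / δ - 1 ≤ 0 := by
        rw [sub_nonpos, div_le_one hδ]
        linarith
      simp only [Real.smoothTransition.zero_of_nonpos h1, sub_zero]
    · intro t ht ht'
      rw [sub_zero, abs_of_nonneg ht] at ht'
      have h1 : 1 ≤ 2 * t / δ - 1 := by
        rw [le_sub_iff_add_le, le_div_iff₀ hδ]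
        linarith
      simp only [Real.smoothTransition.one_of_one_le h1, sub_self]
  · have hρ : 0 < min δ (r / 2) := lt_min hδ (by positivity)
    let f : ContDiffBump r := ⟨min δ (r / 2) / 2, min δ (r / 2), by positivity, by linarith⟩
    refine ⟨f, f.contDiff, ⟨r / 2, by positivity, ?_⟩, f.eventuallyEq_one, ?_⟩
    · intro t ht
      have h1 : f t = 0 := by
        apply f.zero_of_le_dist
        rw [Real.dist_eq, abs_sub_comm, abs_of_nonneg (by linarith)]
        exact (min_le_right _ _).trans (by linarith)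
      have h2 : f 0 = 0 := by
        apply f.zero_of_le_dist
        rw [Real.dist_eq, abs_sub_comm, abs_of_nonneg (by linarith)]
        exact (min_le_right _ _).trans (by linarith)
      rw [h1, h2]
    · intro t _ ht
      apply f.zero_of_le_dist
      rw [Real.dist_eq]
      exact (min_le_left _ _).trans ht

/-- The neighbourhoods of a point are given by the values of the generators. -/
lemma nhds_gens (b : TropPt F) {V : Set (TropPt F)} (hV : V ∈ 𝓝 b) : ∃ δ : ℝ, 0 < δ ∧
    ∀ b' ∈ TropPt.opn b.cone, (∀ g ∈ gens F b.cone,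
      |TropPt.absv g b' - TropPt.absv g b| < δ) → b' ∈ V := by
  let Ψ : TropPt F → (gens F b.cone → ℝ) := fun b' g => TropPt.absv g.1 b'
  let 𝓕 : Filter (TropPt F) := Filter.comap Ψ (𝓝 (Ψ b)) ⊓ Filter.principal (TropPt.opn b.cone)
  have hopn : ∀ᶠ b' in 𝓕, b' ∈ TropPt.opn b.cone :=
    Filter.mem_inf_of_right (Filter.mem_principal_self _)
  have hbo : b ∈ TropPt.opn b.cone := Set.Subset.refl _
  have ht : ∀ m ∈ dualM b.cone.1, Filter.Tendsto (fun b' : TropPt F => TropPt.absv m b') 𝓕
      (𝓝 (TropPt.absv m b)) := by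
    intro m hm
    rw [← closure_gens F b.cone] at hm
    induction hm using AddSubmonoid.closure_induction with
    | mem g hg =>
      have h1 : Filter.Tendsto Ψ 𝓕 (𝓝 (Ψ b)) := Filter.tendsto_comap.mono_left inf_le_left
      exact ((continuous_apply (⟨g, hg⟩ : gens F b.cone)).tendsto (Ψ b)).comp h1
    | zero =>
      simp only [TropPt.absv_zero]
      exact tendsto_const_nhds
    | add m m' hm hm' h h' =>
      rw [closure_gens F b.cone] at hm hm'
      rw [TropPt.absv_add hbo hm hm']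
      refine (h.mul h').congr' ?_
      filter_upwards [hopn] with b' hb'
      exact (TropPt.absv_add hb' hm hm').symm
  have hle : 𝓕 ≤ 𝓝 b := by
    have e : 𝓝 b = ⨅ s ∈ {s | b ∈ s ∧ s ∈ {A : Set (TropPt F) | ∃ (σ : F.cones) (m : dualM σ.1)
      (V : Set ℝ), IsOpen V ∧ A = {b : TropPt F | b ∈ TropPt.opn σ ∧ TropPt.absv m.1 b ∈ V}}},
        Filter.principal s := TopologicalSpace.nhds_generateFrom
    rw [e]
    refine le_iInf₂ ?_
    rintro _ ⟨hb, σ, m, U, hU, rfl⟩
    rw [Filter.le_principal_iff]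
    have hσ : b.cone.1 ⊆ σ.1 := hb.1
    have hm : m.1 ∈ dualM b.cone.1 := fun x hx => m.2 x (hσ hx)
    filter_upwards [hopn, (ht m.1 hm).eventually (hU.mem_nhds hb.2)] with b' h1 h2
    exact ⟨Set.Subset.trans h1 hσ, h2⟩
  have hb := (Metric.nhds_basis_ball (x := Ψ b)).comap Ψ
  obtain ⟨δ, hδ, h⟩ := (hb.inf_principal (TropPt.opn b.cone)).mem_iff.1 (hle hV)
  refine ⟨δ, hδ, fun b' hb' hg => h ⟨?_, hb'⟩⟩
  show dist (Ψ b') (Ψ b) < δ
  rw [dist_pi_lt_iff hδ]
  intro g
  rw [Real.dist_eq]
  exact hg g.1 g.2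

end TropCut

/-- For `m ∈ S_σ` and a smooth function `a` on `ℝ` which is constant near `0`, the function
`a(|χ^m|)` is smooth on `Trop(U_σ)`. -/
theorem smooth_absvT (σ : F.cones) {m : Fin n → ℤ} (hm : m ∈ dualM σ.1) {a : ℝ → ℝ}
    (ha : ContDiff ℝ ∞ a) {ε : ℝ} (hε : 0 < ε) (h0 : ∀ t, t < ε → a t = a 0) :
    ((tropLS F).restr (TropPt.opn σ)).Smooth (fun b => a (TropPt.absv m b.1)) := by
  rintro ⟨b, hb⟩
  by_cases hmb : m ∈ perpM b.cone.1
  · refine ⟨{m}, ?_, fun y => a (Real.exp (y ⟨m, Finset.mem_singleton_self m⟩)), ?_, ?_⟩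
    · intro f hf
      rw [Finset.mem_singleton] at hf
      subst hf
      exact hmb
    · have h1 : ContDiff ℝ ∞ (fun y : ({m} : Finset (Fin n → ℤ)) → ℝ =>
          y ⟨m, Finset.mem_singleton_self m⟩) := contDiff_apply ℝ ℝ _
      exact ha.comp (Real.contDiff_exp.comp h1)
    · have h1 : {z' : TropPt.opn σ | m ∈ perpM z'.1.cone.1} ∈ 𝓝 (⟨b, hb⟩ : TropPt.opn σ) :=
        (((tropLS F).isOpen_dom m).preimage continuous_subtype_val).mem_nhds hmb
      filter_upwards [h1] with z' hz'
      have h2 : 0 < TropPt.absv m z'.1 := TropCut.absv_pos hz'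
      show a (TropPt.absv m z'.1) = a (Real.exp (Real.log (TropPt.absv m z'.1)))
      rw [Real.exp_log h2]
  · refine ⟨∅, by simp, fun _ => a 0, contDiff_const, ?_⟩
    have h1 : Continuous (fun z' : TropPt.opn σ => TropPt.absv m z'.1) :=
      continuousOn_iff_continuous_domRestrict.1 (TropPt.continuousOn_absv σ ⟨m, hm⟩)
    have h2 : TropPt.absv m b < ε := by
      rw [TropCut.absv_eq_zero hmb]
      exact hε
    filter_upwards [h1.continuousAt.eventually (Iio_mem_nhds h2)] with z' hz'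
    exact h0 _ hz'

/-- Cut-off functions on `Trop(Y)`: products of functions `a(|χ^m|)`, supported in a box of
`Trop(U_σ)`, extended by zero; then `LogSpace.cutOff_of_local`. -/
theorem cutOff_trop : (tropLS F).CutOff := by
  classical
  apply LogSpace.cutOff_of_local
  intro b V hV
  obtain ⟨δ, hδ, hδV⟩ := TropCut.nhds_gens b hV
  let σ : F.cones := b.cone
  have hbo : b ∈ TropPt.opn σ := Set.Subset.refl _
  choose a ha haε ha1 ha0 using fun g : Fin n → ℤ =>
    TropCut.bump (TropCut.absv_nonneg g b) (half_pos hδ)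
  let G : TropPt F → ℝ := fun b' =>
    if b' ∈ TropPt.opn σ then ∏ g ∈ gens F σ, a g (TropPt.absv g b') else 0
  -- a box
  obtain ⟨R, hR⟩ : ∃ R : ℝ, ∀ g ∈ gens F σ, TropPt.absv g b + δ / 2 ≤ R := by
    refine ⟨∑ g ∈ gens F σ, TropPt.absv g b + δ / 2, fun g hg => ?_⟩
    have := Finset.single_le_sum (f := fun g => TropPt.absv g b)
      (fun g _ => TropCut.absv_nonneg g b) hg
    linarith
  let D : Set (TropPt F) := boxT σ R ∩
    ⋂ g ∈ gens F σ, (boxT σ R ∩ (fun b' => TropPt.absv g b') ⁻¹'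
      {t | |t - TropPt.absv g b| ≤ δ / 2})
  have hbox : IsClosed (boxT (F := F) σ R) := (isCompact_boxT σ R).isClosed
  have hD : IsClosed D := by
    refine hbox.inter (isClosed_biInter fun g hg => ?_)
    refine ContinuousOn.preimage_isClosed_of_isClosed ?_ hbox ?_
    · exact (TropPt.continuousOn_absv σ ⟨g, gens_mem hg⟩).mono (fun b' hb' => hb'.1)
    · exact isClosed_le (by fun_prop) continuous_const
  have hDo : D ⊆ TropPt.opn σ := fun b' hb' => hb'.1.1
  have hDV : D ⊆ V := by
    intro b' hb'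
    refine hδV b' (hDo hb') fun g hg => ?_
    have h1 := (Set.mem_iInter₂.1 hb'.2 g hg).2
    have h2 : |TropPt.absv g b' - TropPt.absv g b| ≤ δ / 2 := h1
    linarith
  have hG0 : ∀ b', b' ∉ D → G b' = 0 := by
    intro b' hb'
    by_cases ho : b' ∈ TropPt.opn σ
    · have h1 : ∃ g ∈ gens F σ, δ / 2 < |TropPt.absv g b' - TropPt.absv g b| := by
        by_contra hcon
        push Not at hcon
        have hbx : b' ∈ boxT σ R := by
          refine ⟨ho, fun g hg => ?_⟩
          have h2 := (abs_le.1 (hcon g hg)).2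
          linarith [hR g hg]
        exact hb' ⟨hbx, Set.mem_iInter₂.2 fun g hg => ⟨hbx, hcon g hg⟩⟩
      obtain ⟨g, hg, hgl⟩ := h1
      show (if b' ∈ TropPt.opn σ then ∏ g ∈ gens F σ, a g (TropPt.absv g b') else 0) = 0
      rw [if_pos ho]
      exact Finset.prod_eq_zero hg (ha0 g _ (TropCut.absv_nonneg g b') hgl.le)
    · exact if_neg ho
  refine ⟨G, ?_, ?_, D, hD, hDV, hG0⟩
  · refine TropCut.smooth_of_restr _ (TropPt.isOpen_opn σ) hD hDo ?_ hG0
    have h1 := TropCut.smooth_prod ((tropLS F).restr (TropPt.opn σ)) (gens F σ)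
      (fun g b' => a g (TropPt.absv g b'.1)) (fun g hg => by
        obtain ⟨ε, hε, h0⟩ := haε g
        exact smooth_absvT σ (gens_mem hg) (ha g) hε h0)
    have e : (fun z : TropPt.opn σ => G z.1) =
        fun z => ∏ g ∈ gens F σ, a g (TropPt.absv g z.1) := by
      funext z
      exact if_pos z.2
    rw [e]
    exact h1
  · have h1 : ∀ᶠ b' in 𝓝 b, ∀ g ∈ gens F σ, a g (TropPt.absv g b') = 1 := by
      rw [Filter.eventually_all_finset]
      intro g hg
      have h2 : ContinuousAt (fun b' : TropPt F => TropPt.absv g b') b :=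
        (TropPt.continuousOn_absv σ ⟨g, gens_mem hg⟩).continuousAt
          ((TropPt.isOpen_opn σ).mem_nhds hbo)
      exact h2.eventually (ha1 g)
    filter_upwards [h1, (TropPt.isOpen_opn σ).mem_nhds hbo] with b' h2 h3
    show (if b' ∈ TropPt.opn σ then ∏ g ∈ gens F σ, a g (TropPt.absv g b') else 0) = 1
    rw [if_pos h3]
    exact Finset.prod_eq_one h2

end Pool.Agent.TD
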