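import Pool.Agent.TD.Y.Fib1
import Pool.Agent.TD.Y.TropCut
import Pool.Agent.TD.Y.Cong
import Pool.Agent.TD.Y.Cone4

/-! Block Y: forms near the fibres of the tropicalization map (module TD_Y_FB2). -/

open scoped ContDiff Topology
open AlgebraicGeometry CategoryTheory

namespace Pool.Agent.TD

theorem exists_pb {n : ℕ} (σ : Set (Fin n → ℝ)) :
    ∃ (r : ℕ) (e : Fin r → Fin n → ℤ), IsPB σ e := by
  obtain ⟨r, e, h1, h2⟩ := perp_basis σ
  exact ⟨r, e, ⟨h1, h2⟩⟩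

/-- The germs of the constant forms in the functions of `s`. -/
noncomputable def LogSpace.cstM {X Φ : Type} [TopologicalSpace X] (L : LogSpace X Φ)
    (s : Finset Φ) (p : ℕ) (z : X) : Submodule ℝ (L.Stalk p 0 z) where
  carrier := {c | ∃ θ : Raw Φ p 0, IsCst θ ∧ IsSF s θ ∧ ∃ h : L.SFat z θ, c = L.germ θ h}
  zero_mem' := ⟨0, isCst_zero, IsSF.zero s, LogSpace.SFat.zero L, L.germ_zero.symm⟩
  add_mem' := by
    rintro _ _ ⟨θ, h1, h2, h3, rfl⟩ ⟨η, k1, k2, k3, rfl⟩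
    exact ⟨θ + η, h1.add k1, h2.add k2, h3.add k3, (L.germ_add h3 k3).symm⟩
  smul_mem' := by
    rintro c _ ⟨θ, h1, h2, h3, rfl⟩
    exact ⟨c • θ, h1.smul c, h2.smul c, h3.smul c, (L.germ_smul c h3).symm⟩

theorem LogSpace.symS_cstM {X Φ : Type} [TopologicalSpace X] (L : LogSpace X Φ)
    (s : Finset Φ) {z : X} : ∀ (p : ℕ) (ℓ : Fin p → L.Stalk 1 0 z), (∀ i, ℓ i ∈ L.cstM s 1 z) →
      L.symS p ℓ ∈ L.cstM s p z
  | 0, _, _ => ⟨one0, isCst_one0, isSF_one0 s, ⟨∅, isSF_one0 ∅, by simp⟩, rfl⟩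
  | p + 1, ℓ, hℓ => by
    obtain ⟨θ, h1, h2, h3, e1⟩ := L.symS_cstM s p (fun i => ℓ i.succ) (fun i => hℓ i.succ)
    obtain ⟨η, k1, k2, k3, e2⟩ := hℓ 0
    refine ⟨wdg1 η θ, k1.wdg1 h1, IsSF.wdg1 k2 h2, LogSpace.SFat.wdg1 L k3 h3, ?_⟩
    show L.wdS p 0 z (ℓ 0) (L.symS p (fun i => ℓ i.succ)) = _
    rw [e1, e2, L.wdS_germ]

/-- Near `b` the function `log |χ^m|`, `m ∈ σ^⊥`, is a combination of the `log |χ^{e_j}|`. -/
theorem trop_dlS_mem {n : ℕ} {F : Fan n} {b : TropPt F} {r : ℕ} {e : Fin r → Fin n → ℤ}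
    [DecidableEq (Fin n → ℤ)] (he : IsPB b.cone.1 e) {m : Fin n → ℤ} (hm : b ∈ (tropLS F).dom m) :
    (tropLS F).dlS m hm ∈ (tropLS F).cstM (Finset.univ.image e) 1 b := by
  obtain ⟨a, ha, -⟩ := he.uniq m hm
  have ha' : m = ∑ i, a i • e i := ha
  have hd : ∀ i, b ∈ (tropLS F).dom (e i) := fun i => he.mem i
  have key : ∀ᶠ z' in 𝓝 b, (tropLS F).lf m z' = 0 + ∑ i, (a i : ℝ) * (tropLS F).lf (e i) z' := by
    have h1 : ∀ᶠ z' in 𝓝 b, ∀ i, z' ∈ (tropLS F).dom (e i) :=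
      Filter.eventually_all.2 fun i => ((tropLS F).isOpen_dom (e i)).mem_nhds (hd i)
    refine h1.mono fun z' hz' => ?_
    have hz'' : ∀ i, e i ∈ perpM z'.cone.1 := hz'
    have hval : ∀ (m' : Fin n → ℤ) (h : m' ∈ perpM z'.cone.1),
        (tropLS F).lf m' z' = z'.val ⟨m', h⟩ := by
      intro m' h
      show Real.log (TropPt.absv m' z') = _
      unfold TropPt.absv
      rw [dif_pos h, Real.log_exp]
    have hmm : m ∈ perpM z'.cone.1 := by
      rw [ha']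
      exact AddSubgroup.sum_mem _ fun i _ => (perpM z'.cone.1).zsmul_mem (hz'' i) _
    rw [hval m hmm, zero_add]
    have e1 : (⟨m, hmm⟩ : perpM z'.cone.1) = ∑ i, a i • (⟨e i, hz'' i⟩ : perpM z'.cone.1) := by
      apply Subtype.ext
      rw [AddSubgroup.val_finsetSum]
      exact ha'
    rw [e1, map_sum]
    refine Finset.sum_congr rfl fun i _ => ?_
    rw [map_zsmul, hval (e i) (hz'' i), zsmul_eq_mul]
  rw [(tropLS F).dlS_eq_sum hm hd (fun i => (a i : ℝ)) 0 key]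
  refine Submodule.sum_mem _ fun i _ => Submodule.smul_mem _ _ ?_
  exact ⟨dlg (e i), isCst_dlg (e i), isSF_dlg (Finset.mem_image_of_mem e (Finset.mem_univ i)),
    ⟨{e i}, isSF_dlg (Finset.mem_singleton_self (e i)), by simpa using hd i⟩, rfl⟩

theorem trop_Lp_le {n : ℕ} {F : Fan n} {b : TropPt F} {r : ℕ} {e : Fin r → Fin n → ℤ}
    [DecidableEq (Fin n → ℤ)] (he : IsPB b.cone.1 e) (p : ℕ) :
    (tropLS F).Lp p b ≤ (tropLS F).cstM (Finset.univ.image e) p b := by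
  unfold LogSpace.Lp
  rw [Submodule.span_le]
  rintro _ ⟨f, hf, rfl⟩
  exact (tropLS F).symS_cstM _ p _ fun i => trop_dlS_mem he (hf i)

namespace Toric

variable {K : Type} [NormedField K] [IsUltrametricDist K] {n : ℕ} {F : Fan n} {Y : Scheme.{0}}
  {ι : K →+* Γ(Y, ⊤)} (T : Toric F Y ι)

/-- Every point of the torus comes from a point of the fibre. -/
theorem exists_fib_pt {b : TropPt F} {r : ℕ} {e : Fin r → Fin n → ℤ} (he : IsPB b.cone.1 e)
    {y : Ber K (MvPolynomial (Fin r) K)}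
    (hy : y ∈ Sb (K := K) (fun i => (tropLS F).lf (e i) b)) :
    ∃ z : An.opn ι (T.U b.cone), T.minCone z.1.pt = b.cone ∧ T.trop z.1 = b ∧
      (T.locMor b.cone he).toFun z = y := by
  obtain ⟨s, -, hs⟩ := T.locMor_section b.cone he
  have hy0 : ∀ i, y.v (MvPolynomial.X i) ≠ 0 := fun i => by
    rw [hy i]
    exact (Real.exp_pos _).ne'
  refine ⟨s ⟨y, hy0⟩, (hs _).1, ?_, (hs _).2⟩
  rw [T.trop_eq_iff he]
  refine ⟨(s ⟨y, hy0⟩).2, (hs _).1, ?_⟩
  have h2 := (hs ⟨y, hy0⟩).2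
  have h3 : (T.locMor b.cone he).toFun ⟨(s ⟨y, hy0⟩).1, (s ⟨y, hy0⟩).2⟩ = y := h2
  rw [h3]
  exact hy

/-- The pull back by the comparison morphism is injective at the points of the orbit. -/
theorem locMor_pullS_inj {σ : F.cones} {r : ℕ} {e : Fin r → Fin n → ℤ} (he : IsPB σ.1 e)
    (z : An.opn ι (T.U σ)) (hz : T.minCone z.1.pt = σ) (p q : ℕ) :
    Function.Injective ((T.locMor σ he).pullS p q z) :=
  Mor.pullS_injective _ (T.locMor_affAt σ he z hz) (T.locMor_open σ he z hz)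

/-- The section obtained by `push` is closed on the torus if the given one is on the fibre. -/
theorem push_closed {b : TropPt F} {r : ℕ} {e : Fin r → Fin n → ℤ} (he : IsPB b.cone.1 e)
    {p q : ℕ} {c : (anLS Y ι).G p q} {c' : (berLS K (MvPolynomial (Fin r) K)).G p q}
    (hcc : ∀ z : An.opn ι (T.U b.cone), T.trop z.1 = b →
      (T.locMor b.cone he).pullS p q z (c'.1 ((T.locMor b.cone he).toFun z)) =
        ((anLS Y ι).incl _).pullS p q z (c.1 z.1))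
    (hc : ∀ z, T.trop z = b → (anLS Y ι).ddS p q z (c.1 z) = 0) :
    ∀ y ∈ Sb (K := K) (fun i => (tropLS F).lf (e i) b),
      (berLS K (MvPolynomial (Fin r) K)).ddS p q y (c'.1 y) = 0 := by
  intro y hy
  obtain ⟨z, hz1, hz2, rfl⟩ := T.exists_fib_pt he hy
  apply T.locMor_pullS_inj he z hz1 p (q + 1)
  rw [Mor.pullS_ddS, hcc z hz2, map_zero]
  have h1 := ((anLS Y ι).incl (An.opn ι (T.U b.cone))).pullS_ddS (z := z) (c.1 z.1)
  have h2 : (anLS Y ι).ddS p q (((anLS Y ι).incl (An.opn ι (T.U b.cone))).toFun z) (c.1 z.1) = 0 :=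
    hc z.1 hz2
  rw [h2, map_zero] at h1
  exact h1.symm

/-- Exactness near the fibres. -/
theorem fib_exact (h : F2 K) (b : TropPt F) {p q : ℕ} (c : (anLS Y ι).G p (q + 1))
    (hc : ∀ z, T.trop z = b → (anLS Y ι).ddS p (q + 1) z (c.1 z) = 0) :
    ∃ e : (anLS Y ι).G p q, ∀ z, T.trop z = b → (anLS Y ι).ddS p q z (e.1 z) = c.1 z := by
  obtain ⟨r, e, he⟩ := exists_pb b.cone.1
  obtain ⟨c1, hc1⟩ := T.push b he c
  obtain ⟨e1, he1⟩ := (h r).ex _ p q c1 (T.push_closed he hc1 hc)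
  obtain ⟨e2, he2⟩ := T.pull b he e1
  refine ⟨e2, fun z hz => ?_⟩
  obtain ⟨hzU, hmc, hS⟩ := (T.trop_eq_iff he z).1 hz
  have k1 := hc1 ⟨z, hzU⟩ hz
  have k2 := he2 ⟨z, hzU⟩ hz
  have k3 := he1 _ hS
  apply ((anLS Y ι).incl_bij (An.isOpen_opn _) ⟨z, hzU⟩).1
  have k4 := ((anLS Y ι).incl (An.opn ι (T.U b.cone))).pullS_ddS (z := ⟨z, hzU⟩) (e2.1 z)
  have k5 := (T.locMor b.cone he).pullS_ddS (z := ⟨z, hzU⟩)
    (e1.1 ((T.locMor b.cone he).toFun ⟨z, hzU⟩))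
  rw [← k3] at k5
  exact k4.trans ((congrArg _ k2.symm).trans (k5.symm.trans k1))

/-- Comparison of the two pull backs of the constant forms at a point of `U_σ`. -/
theorem germ_cst_cmp {σ : F.cones} {r : ℕ} {e : Fin r → Fin n → ℤ} (he : IsPB σ.1 e)
    (z : An.opn ι (T.U σ)) {p : ℕ} (α : (Fin r → ℝ) [⋀^Fin p]→L[ℝ] ℝ)
    (h1 : ((anLS Y ι).restr (An.opn ι (T.U σ))).SFat z
      (pullR (T.locMor σ he).ix (cstR (fun i : Fin r => (MvPolynomial.X i : MvPolynomial (Fin r) K)) α)))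
    (h2 : ((anLS Y ι).restr (An.opn ι (T.U σ))).SFat z
      (pullR ((anLS Y ι).incl (An.opn ι (T.U σ))).ix (pullR T.tropMor.ix (cstR e α)))) :
    ((anLS Y ι).restr (An.opn ι (T.U σ))).germ _ h1 =
      ((anLS Y ι).restr (An.opn ι (T.U σ))).germ _ h2 := by
  classical
  have hs : IsSF (Finset.univ : Finset (Fin r)) (cstR (id : Fin r → Fin r) α) := by
    have := isSF_cstR (id : Fin r → Fin r) α
    rwa [Finset.image_id] at this
  have key : ∀ (i : Fin r) (z' : An.opn ι (T.U σ)),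
      An.absv (T.U σ) (T.evPoly σ he (MvPolynomial.X i)) z'.1 =
        An.absv (T.Um (e i)) (T.chiU (e i)) z'.1 := by
    intro i z'
    rw [T.absv_chiU (he.mem i) z'.2]
    have e1 : T.evPoly σ he (MvPolynomial.X i) = T.chi σ ⟨e i, TropPt.perp_dual (he.mem i)⟩ :=
      MvPolynomial.eval₂_X _ _ _
    rw [e1]
  have hne : ∀ i : Fin r, An.absv (T.U σ) (T.evPoly σ he (MvPolynomial.X i)) z.1 ≠ 0 :=
    fun i => T.locMor_X_ne_zero σ he z i
  refine LogSpace.germ_pullR_congr ((anLS Y ι).restr (An.opn ι (T.U σ)))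
    (fun i => (⟨T.U σ, T.evPoly σ he (MvPolynomial.X i)⟩ : Σ U : Y.Opens, Γ(Y, U)))
    (fun i => (⟨T.Um (e i), T.chiU (e i)⟩ : Σ U : Y.Opens, Γ(Y, U))) hs ?_ ?_ ?_ h1 h2
  · intro i _
    exact ⟨z.2, hne i⟩
  · intro i _
    refine ⟨T.U_le_Um (he.mem i) z.2, ?_⟩
    rw [← key i z]
    exact hne i
  · intro i _
    refine Filter.Eventually.of_forall fun z' => ?_
    show Real.log _ = Real.log _
    rw [key i z']

theorem pullG_germ {b : TropPt F} {p : ℕ} (a : (tropLS F).G p 0) {θ : Raw (Fin n → ℤ) p 0}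
    (hθ : (tropLS F).SFat b θ) (hab : a.1 b = (tropLS F).germ θ hθ) {z : An Y ι}
    (hz : T.trop z = b) : ∃ hk : (anLS Y ι).SFat z (pullR T.tropMor.ix θ),
      (T.tropMor.pullG p 0 a).1 z = (anLS Y ι).germ (pullR T.tropMor.ix θ) hk := by
  subst hz
  refine ⟨T.tropMor.sfat hθ, ?_⟩
  rw [Mor.pullG_val]
  exact (congrArg _ hab).trans (T.tropMor.pullS_germ hθ)

/-- Closed forms of type `(p,0)` near the fibres come from `Trop(Y)`. -/
theorem fib_zero (h : F2 K) (b : TropPt F) {p : ℕ} (c : (anLS Y ι).G p 0)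
    (hc : ∀ z, T.trop z = b → (anLS Y ι).ddS p 0 z (c.1 z) = 0) :
    ∃ a : (tropLS F).G p 0, (tropLS F).ddS p 0 b (a.1 b) = 0 ∧
      ∀ z, T.trop z = b → c.1 z = (T.tropMor.pullG p 0 a).1 z := by
  classical
  obtain ⟨r, e, he⟩ := exists_pb b.cone.1
  obtain ⟨c1, hc1⟩ := T.push b he c
  obtain ⟨α, hα⟩ := (h r).cst _ p c1 (T.push_closed he hc1 hc)
  have hd : ∀ i, b ∈ (tropLS F).dom (e i) := fun i => he.mem i
  have hsf : (tropLS F).SFat b (cstR e α) := (tropLS F).sfat_cstR hd α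
  obtain ⟨a, ha⟩ := (tropLS F).extend_germ cutOff_trop hsf
  obtain ⟨hb, hab⟩ := ha.self_of_nhds
  refine ⟨a, ?_, ?_⟩
  · rw [hab, LogSpace.ddS_germ]
    exact (tropLS F).germ_of_eq_zero (dd_cst (isCst_cstR e α)) _
  · intro z hz
    obtain ⟨hzU, hmc, hS⟩ := (T.trop_eq_iff he z).1 hz
    have k1 := hc1 ⟨z, hzU⟩ hz
    obtain ⟨h3, k3⟩ := hα _ hS
    subst hz
    apply ((anLS Y ι).incl_bij (An.isOpen_opn _) ⟨z, hzU⟩).1
    have k4 : (T.tropMor.pullG p 0 a).1 z = (anLS Y ι).germ (pullR T.tropMor.ix (cstR e α))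
        (T.tropMor.sfat hb) := by
      rw [Mor.pullG_val]
      exact (congrArg _ hab).trans (T.tropMor.pullS_germ hb)
    rw [← k1, k3, Mor.pullS_germ]
    refine (T.germ_cst_cmp he ⟨z, hzU⟩ α _
      (((anLS Y ι).incl (An.opn ι (T.U (T.trop z).cone))).sfat (z := ⟨z, hzU⟩)
        (T.tropMor.sfat hb))).trans ?_
    exact (congrArg (((anLS Y ι).incl (An.opn ι (T.U (T.trop z).cone))).pullS p 0 ⟨z, hzU⟩)
      k4).symm

/-- Injectivity in type `(p,0)`. -/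
theorem fib_inj (h2 : F2 K) (b : TropPt F) {p : ℕ} (a : (tropLS F).G p 0)
    (ha : (tropLS F).ddS p 0 b (a.1 b) = 0)
    (h : ∀ z, T.trop z = b → (T.tropMor.pullG p 0 a).1 z = 0) : a.1 b = 0 := by
  classical
  obtain ⟨r, e, he⟩ := exists_pb b.cone.1
  obtain ⟨θ, hc, hs, hθ, hab⟩ := trop_Lp_le he p ((tropLS F).poincare0 (starAt_trop b) _ ha)
  obtain ⟨α, rfl⟩ := exists_cstR hc hs
  have hα : α = 0 := by
    refine (h2 r).uniq (fun i => (tropLS F).lf (e i) b) p α fun y hy => ?_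
    obtain ⟨z, hz1, hz2, rfl⟩ := T.exists_fib_pt he hy
    have hd : ∀ i : Fin r, (T.locMor b.cone he).toFun z ∈
        (berLS K (MvPolynomial (Fin r) K)).dom (MvPolynomial.X i) := fun i =>
      T.locMor_X_ne_zero b.cone he z i
    have hsf := (berLS K (MvPolynomial (Fin r) K)).sfat_cstR hd α
    rw [← (berLS K (MvPolynomial (Fin r) K)).germ_eq_zero hsf]
    apply T.locMor_pullS_inj he z hz1 p 0
    rw [map_zero, Mor.pullS_germ]
    obtain ⟨hk, k4⟩ := T.pullG_germ a hθ hab hz2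
    refine (T.germ_cst_cmp he z α _
      (((anLS Y ι).incl (An.opn ι (T.U b.cone))).sfat (z := z) hk)).trans ?_
    refine (congrArg (((anLS Y ι).incl (An.opn ι (T.U b.cone))).pullS p 0 z) k4).symm.trans ?_
    rw [h z.1 hz2]
    exact map_zero _
  rw [hab]
  exact (tropLS F).germ_of_eq_zero (by rw [hα]; rfl) _

end Toric

end Pool.Agent.TD
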