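import Pool.Agent.TD.Y.Cone

/-! Block Y: Gordan's lemma (module TD_Y_Cone3). -/

namespace Pool.Agent.TD

variable {n : ℕ}

namespace Cone3

theorem pair_sum_right (m : Fin n → ℤ) (V : Finset (Fin n → ℤ)) (a : (Fin n → ℤ) → ℝ) :
    pair m (∑ v ∈ V, a v • (fun i => (v i : ℝ))) = ∑ v ∈ V, a v * pair m (rv v) := by
  classical
  induction V using Finset.induction_on with
  | empty => simp [pair]
  | insert v V hv ih =>
    rw [Finset.sum_insert hv, Finset.sum_insert hv, pair_add_right, pair_smul_right, ih]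
    rfl

/-- The characters which are non-negative on a cone, by the generators. -/
theorem mem_dualM_iff {γ : Set (Fin n → ℝ)} {V : Finset (Fin n → ℤ)}
    (hγ : γ = {x | ∃ a : (Fin n → ℤ) → ℝ, (∀ v, 0 ≤ a v) ∧
      x = ∑ v ∈ V, a v • (fun i => (v i : ℝ))}) (m : Fin n → ℤ) :
    m ∈ dualM γ ↔ ∀ v ∈ V, 0 ≤ ∑ i, m i * v i := by
  classical
  have hp : ∀ v : Fin n → ℤ, pair m (rv v) = ((∑ i, m i * v i : ℤ) : ℝ) := by
    intro v
    simp [pair, rv]
  constructor
  · intro h v hv
    have h1 : rv v ∈ γ := by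
      rw [hγ]
      refine ⟨fun u => if u = v then 1 else 0, fun u => ?_, ?_⟩
      · simp only
        split_ifs
        · exact zero_le_one
        · exact le_rfl
      · simp only [ite_smul, one_smul, zero_smul]
        rw [Finset.sum_ite_eq' V v, if_pos hv]
        rfl
    have h2 := h _ h1
    rw [hp] at h2
    exact_mod_cast h2
  · intro h x hx
    rw [hγ] at hx
    obtain ⟨a, ha, rfl⟩ := hx
    rw [pair_sum_right]
    refine Finset.sum_nonneg fun v hv => mul_nonneg (ha v) ?_
    rw [hp]
    exact_mod_cast h v hv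

/-- the values on the generators -/
def fV (V : Finset (Fin n → ℤ)) : ((Fin n ⊕ Fin n ⊕ V) → ℕ) →+ (V → ℤ) where
  toFun x := fun v => ∑ i, ((x (Sum.inl i) : ℤ) - x (Sum.inr (Sum.inl i))) * v.1 i
  map_zero' := by
    funext v
    simp
  map_add' x y := by
    funext v
    simp only [Pi.add_apply, Nat.cast_add]
    rw [← Finset.sum_add_distrib]
    exact Finset.sum_congr rfl fun i _ => by ring

/-- the slack variables -/
def gV (V : Finset (Fin n → ℤ)) : ((Fin n ⊕ Fin n ⊕ V) → ℕ) →+ (V → ℤ) where
  toFun x := fun v => (x (Sum.inr (Sum.inr v)) : ℤ)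
  map_zero' := by
    funext v
    simp
  map_add' x y := by
    funext v
    simp

/-- the character -/
def pV (V : Finset (Fin n → ℤ)) : ((Fin n ⊕ Fin n ⊕ V) → ℕ) →+ (Fin n → ℤ) where
  toFun x := fun i => (x (Sum.inl i) : ℤ) - x (Sum.inr (Sum.inl i))
  map_zero' := by
    funext v
    simp
  map_add' x y := by
    funext v
    simp only [Pi.add_apply, Nat.cast_add]
    ring

end Cone3

/-- Gordan's lemma: the monoid `{m ∈ ℤ^n : ⟨m, x⟩ ≥ 0 for x ∈ γ}` is finitely generated, `γ` a
cone generated by finitely many integral vectors.  (The set of integral solutions of a finite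
system of homogeneous integral inequalities: add slack variables; minimal elements, Dickson's
lemma.) -/
theorem gordan {γ : Set (Fin n → ℝ)} (h : IsRatCone γ) : (dualM γ).FG := by
  classical
  obtain ⟨V, hV⟩ := h
  have h1 : ((Cone3.fV V).eqLocusM (Cone3.gV V)).FG := AddSubmonoid.fg_eqLocusM _ _
  have h2 : dualM γ = ((Cone3.fV V).eqLocusM (Cone3.gV V)).map (Cone3.pV V) := by
    ext m
    rw [Cone3.mem_dualM_iff hV, AddSubmonoid.mem_map]
    constructor
    · intro hm
      refine ⟨Sum.elim (fun i => (m i).toNat) (Sum.elim (fun i => (-m i).toNat)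
        (fun v : V => (∑ i, m i * v.1 i).toNat)), ?_, ?_⟩
      · show Cone3.fV V _ = Cone3.gV V _
        funext v
        show ∑ i, (((m i).toNat : ℤ) - ((-m i).toNat : ℤ)) * v.1 i =
          ((∑ i, m i * v.1 i).toNat : ℤ)
        rw [Int.toNat_of_nonneg (hm v.1 v.2)]
        refine Finset.sum_congr rfl fun i _ => ?_
        congr 1
        omega
      · funext i
        show ((m i).toNat : ℤ) - ((-m i).toNat : ℤ) = m i
        omega
    · rintro ⟨x, hx, rfl⟩ v hv
      have h3 : Cone3.fV V x = Cone3.gV V x := hx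
      have h4 := congrFun h3 ⟨v, hv⟩
      have h5 : ∑ i, (Cone3.pV V x) i * v i = (x (Sum.inr (Sum.inr ⟨v, hv⟩)) : ℤ) := h4
      rw [h5]
      exact Int.natCast_nonneg _
  rw [h2]
  exact h1.map _

end Pool.Agent.TD
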