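import Pool.Agent.TD.Y.Map

/-! Block Y: the ring `Γ(Y, U_σ)` is `K[S_σ]`. -/

open AlgebraicGeometry CategoryTheory

namespace Pool.Agent.TD

namespace Toric

variable {K : Type} [NormedField K] {n : ℕ} {F : Fan n} {Y : Scheme.{0}} {ι : K →+* Γ(Y, ⊤)}
  (T : Toric F Y ι)

/-- The characters as a monoid homomorphism. -/
def chiHom (σ : F.cones) : Multiplicative (dualM σ.1) →* Γ(Y, T.U σ) where
  toFun m := T.chi σ m.toAdd
  map_one' := T.chi_zero σ
  map_mul' m m' := T.chi_add σ m.toAdd m'.toAdd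

/-- The evaluation `K[S_σ] → Γ(Y, U_σ)`. -/
noncomputable def evHom (σ : F.cones) : AddMonoidAlgebra K (dualM σ.1) →+* Γ(Y, T.U σ) :=
  AddMonoidAlgebra.liftNCRingHom (stK ι (T.U σ)) (T.chiHom σ) (fun _ _ => Commute.all _ _)

theorem evHom_single (σ : F.cones) (m : dualM σ.1) (c : K) :
    T.evHom σ (AddMonoidAlgebra.single m c) = stK ι (T.U σ) c * T.chi σ m := by
  unfold evHom
  rw [AddMonoidAlgebra.liftNCRingHom_single]
  rfl

theorem evHom_apply (σ : F.cones) (a : AddMonoidAlgebra K (dualM σ.1)) :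
    T.evHom σ a = a.coeff.sum fun m c => stK ι (T.U σ) c * T.chi σ m := rfl

theorem evHom_bij (σ : F.cones) : Function.Bijective (T.evHom σ) := by
  have h : (T.evHom σ : AddMonoidAlgebra K (dualM σ.1) → Γ(Y, T.U σ)) =
      (fun a : dualM σ.1 →₀ K => a.sum fun m c => stK ι (T.U σ) c * T.chi σ m) ∘
        (AddMonoidAlgebra.coeffEquiv : AddMonoidAlgebra K (dualM σ.1) ≃ (dualM σ.1 →₀ K)) := by
    funext a
    exact T.evHom_apply σ a
  rw [h]
  exact (T.basis σ).comp AddMonoidAlgebra.coeffEquiv.bijective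

/-- The isomorphism `K[S_σ] ≅ Γ(Y, U_σ)`. -/
noncomputable def ringIso (σ : F.cones) : AddMonoidAlgebra K (dualM σ.1) ≃+* Γ(Y, T.U σ) :=
  RingEquiv.ofBijective (T.evHom σ) (T.evHom_bij σ)

end Toric

end Pool.Agent.TD
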