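import Pool.Agent.TD.Y.Map
import Pool.Agent.TD.Y.Cone4

/-! Block Y: charts of the faces are basic open subsets (module TD_Y_Open). -/

open AlgebraicGeometry CategoryTheory

namespace Pool.Agent.TD

/-- An inclusion of affine open subsets which induces a bijection on functions is an equality. -/
theorem eq_of_bijective_res {X : Scheme.{0}} {V W : X.Opens} (hV : IsAffineOpen V)
    (hW : IsAffineOpen W) (i : V ≤ W)
    (h : Function.Bijective (X.presheaf.map (homOfLE i).op)) : V = W := by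
  have hiso : IsIso (X.presheaf.map (homOfLE i).op) := (ConcreteCategory.isIso_iff_bijective _).2 h
  have e := hW.map_fromSpec hV (homOfLE i).op
  apply TopologicalSpace.Opens.ext
  rw [← hV.range_fromSpec, ← hW.range_fromSpec, ← e]
  have hs : Function.Surjective (Spec.map (X.presheaf.map (homOfLE i).op)) :=
    (Spec.map (X.presheaf.map (homOfLE i).op)).surjective
  rw [Scheme.Hom.comp_base]
  ext x
  constructor
  · rintro ⟨y, rfl⟩
    exact ⟨_, rfl⟩
  · rintro ⟨y, rfl⟩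
    obtain ⟨y', rfl⟩ := hs y
    exact ⟨y', rfl⟩

namespace Toric

variable {K : Type} [NormedField K] {n : ℕ} {F : Fan n} {Y : Scheme.{0}} {ι : K →+* Γ(Y, ⊤)}
  (T : Toric F Y ι)

/-- The inclusion of the dual monoid of a cone into the one of a smaller cone. -/
theorem dual_mono {σ τ : Set (Fin n → ℝ)} (h : τ ⊆ σ) {m : Fin n → ℤ} (hm : m ∈ dualM σ) :
    m ∈ dualM τ := fun x hx => hm x (h hx)

theorem stK_res {X : Scheme.{0}} (ι : K →+* Γ(X, ⊤)) {V W : X.Opens} (i : V ≤ W) (c : K) :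
    X.presheaf.map (homOfLE i).op (stK ι W c) = stK ι V c := by
  show X.presheaf.map (homOfLE i).op (X.presheaf.map (homOfLE le_top).op (ι c)) =
    X.presheaf.map (homOfLE le_top).op (ι c)
  rw [← CommRingCat.comp_apply, ← X.presheaf.map_comp]
  rfl

theorem chi_pow (σ : F.cones) (m : dualM σ.1) (k : ℕ) :
    T.chi σ (k • m) = T.chi σ m ^ k := by
  induction k with
  | zero => rw [zero_smul, T.chi_zero, pow_zero]
  | succ k ih => rw [succ_nsmul, T.chi_add, ih, pow_succ]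

/-- Restriction of functions in terms of the bases. -/
theorem res_sum {σ τ : F.cones} (h : τ.1 ⊆ σ.1) (a : dualM σ.1 →₀ K) :
    Y.presheaf.map (homOfLE (T.U_mono h)).op
      (a.sum fun m c => stK ι (T.U σ) c * T.chi σ m) =
    (a.mapDomain fun m => (⟨m.1, dual_mono h m.2⟩ : dualM τ.1)).sum
      fun m c => stK ι (T.U τ) c * T.chi τ m := by
  rw [Finsupp.sum_mapDomain_index (fun _ => by rw [map_zero, zero_mul])
    (fun _ _ _ => by rw [map_add, add_mul])]
  rw [Finsupp.sum, map_sum, Finsupp.sum]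
  refine Finset.sum_congr rfl fun m _ => ?_
  rw [map_mul, stK_res, T.chi_res σ τ (T.U_mono h) m ⟨m.1, dual_mono h m.2⟩ h rfl]

theorem res_injective {σ τ : F.cones} (h : τ.1 ⊆ σ.1) :
    Function.Injective (Y.presheaf.map (homOfLE (T.U_mono h)).op) := by
  intro x x' e
  obtain ⟨a, rfl⟩ := (T.basis σ).2 x
  obtain ⟨a', rfl⟩ := (T.basis σ).2 x'
  have e' : Y.presheaf.map (homOfLE (T.U_mono h)).op
      (a.sum fun m c => stK ι (T.U σ) c * T.chi σ m) =
      Y.presheaf.map (homOfLE (T.U_mono h)).op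
      (a'.sum fun m c => stK ι (T.U σ) c * T.chi σ m) := e
  rw [T.res_sum h, T.res_sum h] at e'
  have e2 := (T.basis τ).1 e'
  have hinj : Function.Injective fun m : dualM σ.1 => (⟨m.1, dual_mono h m.2⟩ : dualM τ.1) := by
    intro m m' hm
    have h1 : m.1 = m'.1 := congrArg (fun t : dualM τ.1 => t.1) hm
    exact Subtype.ext h1
  have e3 := Finsupp.mapDomain_injective hinj e2
  rw [e3]

/-- For `m ∈ S_σ` and the face `ρ = σ ∩ m^⊥`: `U_ρ` is the open subset `χ^m ≠ 0` of `U_σ`.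
(`U_ρ ≤ D(χ^m)` because `χ^m` is invertible on `U_ρ`; both are affine; `Γ(D(χ^m))` is the
localization of `Γ(U_σ) = K[S_σ]` at `χ^m` and `Γ(U_ρ) = K[S_ρ]`, `S_ρ = S_σ + ℕ(-m)` by
`face_dual`; so the restriction `Γ(D(χ^m)) → Γ(U_ρ)` is bijective.) -/
theorem basicOpen_chi (σ : F.cones) (m : dualM σ.1) :
    Y.basicOpen (T.chi σ m) = T.U (F.faceC σ m) := by
  have hρσ : (F.faceC σ m).1 ⊆ σ.1 := fun x hx => hx.1
  set ρ := F.faceC σ m with hρ
  have hm : m.1 ∈ perpM ρ.1 := fun x hx => hx.2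
  -- the character is a unit on the chart of the face
  have hunit : T.chi ρ ⟨m.1, TropPt.perp_dual hm⟩ *
      T.chi ρ ⟨-m.1, TropPt.perp_dual ((perpM ρ.1).neg_mem hm)⟩ = 1 := by
    rw [← T.chi_add, ← T.chi_zero]
    congr 1
    apply Subtype.ext
    exact add_neg_cancel _
  have hres : Y.presheaf.map (homOfLE (T.U_mono hρσ)).op (T.chi σ m) =
      T.chi ρ ⟨m.1, TropPt.perp_dual hm⟩ := T.chi_res σ ρ (T.U_mono hρσ) m _ hρσ rfl
  have hle : T.U ρ ≤ Y.basicOpen (T.chi σ m) := by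
    have h1 := Y.basicOpen_res (T.chi σ m) (homOfLE (T.U_mono hρσ)).op
    rw [hres, Y.basicOpen_of_isUnit (IsUnit.of_mul_eq_one _ hunit)] at h1
    rw [h1]
    exact inf_le_right
  have hloc := (T.affine σ).isLocalization_basicOpen (T.chi σ m)
  -- compatibility of the restrictions
  have hcomp : ∀ a : Γ(Y, T.U σ), Y.presheaf.map (homOfLE hle).op
      (algebraMap Γ(Y, T.U σ) Γ(Y, Y.basicOpen (T.chi σ m)) a) =
      Y.presheaf.map (homOfLE (T.U_mono hρσ)).op a := by
    intro a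
    show Y.presheaf.map (homOfLE hle).op (Y.presheaf.map (homOfLE (Y.basicOpen_le _)).op a) = _
    rw [← CommRingCat.comp_apply, ← Y.presheaf.map_comp]
    rfl
  symm
  refine eq_of_bijective_res (T.affine ρ) ((T.affine σ).basicOpen _) hle ⟨?_, ?_⟩
  · rw [injective_iff_map_eq_zero]
    intro x hx
    obtain ⟨⟨a, s⟩, hs⟩ := IsLocalization.surj (Submonoid.powers (T.chi σ m)) x
    have h1 : Y.presheaf.map (homOfLE (T.U_mono hρσ)).op a = 0 := by
      rw [← hcomp, ← hs, map_mul, hx, zero_mul]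
    have h2 : a = 0 := T.res_injective hρσ (by rw [h1, map_zero])
    rw [h2, map_zero] at hs
    exact (IsLocalization.map_units Γ(Y, Y.basicOpen (T.chi σ m)) s).mul_left_eq_zero.1 hs
  · intro y
    obtain ⟨a, rfl⟩ := (T.basis ρ).2 y
    let R : Subring Γ(Y, T.U ρ) := RingHom.range (Y.presheaf.map (homOfLE hle).op).hom
    have hK : ∀ c : K, stK ι (T.U ρ) c ∈ R := fun c => ⟨stK ι _ c, stK_res ι hle c⟩
    have hmon : ∀ m' : dualM ρ.1, T.chi ρ m' ∈ R := by
      intro m'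
      obtain ⟨k, hk⟩ := face_dual (F.rat σ.1 σ.2) m.2 m'.2
      have h1 : T.chi ρ ⟨m'.1 + k • m.1, dual_mono hρσ hk⟩ ∈ R := by
        refine ⟨algebraMap _ _ (T.chi σ ⟨_, hk⟩), ?_⟩
        exact (hcomp _).trans (T.chi_res σ ρ (T.U_mono hρσ) _ _ hρσ rfl)
      have h2 : T.chi ρ ⟨-m.1, TropPt.perp_dual ((perpM ρ.1).neg_mem hm)⟩ ∈ R := by
        obtain ⟨u, hu⟩ := IsLocalization.map_units Γ(Y, Y.basicOpen (T.chi σ m))
          (⟨T.chi σ m, Submonoid.mem_powers _⟩ : Submonoid.powers (T.chi σ m))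
        refine ⟨(↑u⁻¹ : Γ(Y, Y.basicOpen (T.chi σ m))), ?_⟩
        have h3 : Y.presheaf.map (homOfLE hle).op (u : Γ(Y, Y.basicOpen (T.chi σ m))) =
            T.chi ρ ⟨m.1, TropPt.perp_dual hm⟩ := by
          rw [hu]
          exact (hcomp _).trans hres
        have h4 : Y.presheaf.map (homOfLE hle).op (↑u⁻¹ : Γ(Y, Y.basicOpen (T.chi σ m))) *
            T.chi ρ ⟨m.1, TropPt.perp_dual hm⟩ = 1 := by
          rw [← h3, ← map_mul, Units.inv_mul, map_one]
        calc Y.presheaf.map (homOfLE hle).op (↑u⁻¹ : Γ(Y, Y.basicOpen (T.chi σ m)))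
            = Y.presheaf.map (homOfLE hle).op (↑u⁻¹ : Γ(Y, Y.basicOpen (T.chi σ m))) *
              (T.chi ρ ⟨m.1, TropPt.perp_dual hm⟩ *
                T.chi ρ ⟨-m.1, TropPt.perp_dual ((perpM ρ.1).neg_mem hm)⟩) := by
              rw [hunit, mul_one]
          _ = _ := by rw [← mul_assoc, h4, one_mul]
      have h5 : T.chi ρ m' = T.chi ρ ⟨m'.1 + k • m.1, dual_mono hρσ hk⟩ *
          (T.chi ρ ⟨-m.1, TropPt.perp_dual ((perpM ρ.1).neg_mem hm)⟩) ^ k := by
        rw [← T.chi_pow, ← T.chi_add]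
        congr 1
        apply Subtype.ext
        show m'.1 = m'.1 + k • m.1 + k • (-m.1)
        rw [smul_neg, add_neg_cancel_right]
      rw [h5]
      exact R.mul_mem h1 (R.pow_mem h2 k)
    have hall : (a.sum fun m c => stK ι (T.U ρ) c * T.chi ρ m) ∈ R :=
      R.sum_mem fun m' _ => R.mul_mem (hK _) (hmon _)
    exact hall

/-- The characters outside `σ_z^⊥` vanish at `z`. -/
theorem absv_chi_eq_zero {z : An Y ι} {σ : F.cones} (hσ : z.pt ∈ T.U σ) {m : dualM σ.1}
    (hm : m.1 ∉ perpM (T.minCone z.pt).1) : An.absv (T.U σ) (T.chi σ m) z = 0 := by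
  by_contra h
  rw [An.absv_of_mem _ hσ] at h
  have h1 : IsUnit (Y.presheaf.germ (T.U σ) z.pt hσ (T.chi σ m)) := by
    by_contra h2
    exact h ((z.ker _).2 h2)
  have h2 : z.pt ∈ Y.basicOpen (T.chi σ m) := (Y.mem_basicOpen _ _ hσ).2 h1
  rw [T.basicOpen_chi, T.mem_U_iff] at h2
  exact hm fun x hx => (h2 hx).2

/-- Compatibility of the tropicalization map with the characters. -/
theorem absv_trop {z : An Y ι} {σ : F.cones} (hσ : z.pt ∈ T.U σ) (m : dualM σ.1) :
    TropPt.absv m.1 (T.trop z) = An.absv (T.U σ) (T.chi σ m) z := by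
  by_cases hm : m.1 ∈ perpM (T.minCone z.pt).1
  · exact T.absv_trop_perp hσ hm
  · rw [T.absv_chi_eq_zero hσ hm]
    unfold TropPt.absv
    have : m.1 ∉ perpM (T.trop z).cone.1 := hm
    rw [dif_neg this]

theorem trop_mem_opn {z : An Y ι} {σ : F.cones} : T.trop z ∈ TropPt.opn σ ↔ z.pt ∈ T.U σ :=
  T.mem_U_iff.symm

theorem continuous_trop : Continuous (T.trop : An Y ι → TropPt F) := by
  rw [continuous_generateFrom_iff]
  rintro _ ⟨σ, m, V, hV, rfl⟩
  have e : T.trop ⁻¹' {b : TropPt F | b ∈ TropPt.opn σ ∧ TropPt.absv m.1 b ∈ V} =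
      {z : An Y ι | z.pt ∈ T.U σ ∧ An.absv (T.U σ) (T.chi σ m) z ∈ V} := by
    ext z
    simp only [Set.mem_preimage, Set.mem_setOf_eq, T.trop_mem_opn]
    constructor
    · rintro ⟨h1, h2⟩
      rw [T.absv_trop h1] at h2
      exact ⟨h1, h2⟩
    · rintro ⟨h1, h2⟩
      rw [← T.absv_trop h1] at h2
      exact ⟨h1, h2⟩
  rw [e]
  exact An.isOpen_basic _ _ hV

end Toric

end Pool.Agent.TD
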