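import Pool.Agent.TD.Y.TropTop
import Pool.Agent.TD.Y.Restr

/-! Block Y: local structure of the tropical toric variety (module TD_Y_TropLoc). -/

open scoped ContDiff Topology

namespace Pool.Agent.TD

variable {n : ℕ} {F : Fan n}

namespace TropLoc

theorem mem_opn_self (b : TropPt F) : b ∈ TropPt.opn b.cone := Set.Subset.refl _

theorem absv_perp {m : Fin n → ℤ} {b : TropPt F} (h : m ∈ perpM b.cone.1) :
    TropPt.absv m b = Real.exp (b.val ⟨m, h⟩) := by
  unfold TropPt.absv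
  rw [dif_pos h]

theorem absv_not {m : Fin n → ℤ} {b : TropPt F} (h : m ∉ perpM b.cone.1) :
    TropPt.absv m b = 0 := by
  unfold TropPt.absv
  rw [dif_neg h]

theorem absv_nonneg (m : Fin n → ℤ) (b : TropPt F) : 0 ≤ TropPt.absv m b := by
  unfold TropPt.absv
  split_ifs
  · exact (Real.exp_pos _).le
  · exact le_rfl

theorem lf_perp {m : Fin n → ℤ} {b : TropPt F} (h : m ∈ perpM b.cone.1) :
    (tropLS F).lf m b = b.val ⟨m, h⟩ := by
  show Real.log (TropPt.absv m b) = _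
  rw [absv_perp h, Real.log_exp]

/-- The characters of `S_σ` are continuous at `b`, `σ` the cone of `b`. -/
theorem continuousAt_absv (b : TropPt F) {m : Fin n → ℤ} (hm : m ∈ dualM b.cone.1) :
    ContinuousAt (fun b' : TropPt F => TropPt.absv m b') b :=
  (TropPt.continuousOn_absv b.cone ⟨m, hm⟩).continuousAt
    ((TropPt.isOpen_opn b.cone).mem_nhds (mem_opn_self b))

theorem continuousAt_lf (b : TropPt F) {m : Fin n → ℤ} (hm : m ∈ perpM b.cone.1) :
    ContinuousAt (fun b' : TropPt F => (tropLS F).lf m b') b :=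
  ((tropLS F).cont m).continuousAt (((tropLS F).isOpen_dom m).mem_nhds hm)

/-- The map to the values of the generators. -/
noncomputable def Th (b : TropPt F) (b' : TropPt F) : gens F b.cone → ℝ :=
  fun g => TropPt.absv g.1 b'

theorem tendsto_absv (b : TropPt F) {m : Fin n → ℤ} (hm : m ∈ dualM b.cone.1) :
    Filter.Tendsto (fun b' : TropPt F => TropPt.absv m b')
      (Filter.principal (TropPt.opn b.cone) ⊓ Filter.comap (Th b) (𝓝 (Th b b)))
      (𝓝 (TropPt.absv m b)) := by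
  rw [← closure_gens F b.cone] at hm
  have hsub : ∀ x ∈ AddSubmonoid.closure (gens F b.cone : Set (Fin n → ℤ)), x ∈ dualM b.cone.1 :=
    fun x hx => by rwa [closure_gens F b.cone] at hx
  induction hm using AddSubmonoid.closure_induction with
  | mem g hg =>
    have h1 : Filter.Tendsto (Th b) (Filter.principal (TropPt.opn b.cone) ⊓
        Filter.comap (Th b) (𝓝 (Th b b))) (𝓝 (Th b b)) :=
      Filter.tendsto_comap.mono_left inf_le_right
    exact (tendsto_pi_nhds.1 h1) ⟨g, hg⟩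
  | zero =>
    simp only [TropPt.absv_zero]
    exact tendsto_const_nhds
  | add x y hx hy ihx ihy =>
    have e : TropPt.absv (x + y) b = TropPt.absv x b * TropPt.absv y b :=
      TropPt.absv_add (mem_opn_self b) (hsub x hx) (hsub y hy)
    rw [e]
    refine (ihx.mul ihy).congr' ?_
    have h2 : ∀ᶠ b' in Filter.principal (TropPt.opn b.cone) ⊓
        Filter.comap (Th b) (𝓝 (Th b b)), b' ∈ TropPt.opn b.cone :=
      Filter.mem_inf_of_left (Filter.mem_principal_self _)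
    refine h2.mono fun b' hb' => ?_
    exact (TropPt.absv_add hb' (hsub x hx) (hsub y hy)).symm

theorem le_nhds (b : TropPt F) :
    Filter.principal (TropPt.opn b.cone) ⊓ Filter.comap (Th b) (𝓝 (Th b b)) ≤ 𝓝 b := by
  rw [TopologicalSpace.nhds_generateFrom]
  refine le_iInf₂ fun s hs => ?_
  obtain ⟨hbs, τ, m, W, hW, rfl⟩ := hs
  rw [Filter.le_principal_iff]
  have hτ : b.cone.1 ⊆ τ.1 := hbs.1
  have hm : m.1 ∈ dualM b.cone.1 := fun x hx => m.2 x (hτ hx)
  have h1 := tendsto_absv b hm (hW.mem_nhds hbs.2)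
  have h2 : ∀ᶠ b' in Filter.principal (TropPt.opn b.cone) ⊓
      Filter.comap (Th b) (𝓝 (Th b b)), b' ∈ TropPt.opn b.cone :=
    Filter.mem_inf_of_left (Filter.mem_principal_self _)
  filter_upwards [h1, h2] with b' h3 h4
  exact ⟨Set.Subset.trans h4 hτ, h3⟩

/-- The basic neighbourhoods. -/
def Vn (b : TropPt F) (ε : ℝ) : Set (TropPt F) :=
  {b' | b' ∈ TropPt.opn b.cone ∧
    (∀ g ∈ gens F b.cone, g ∈ perpM b.cone.1 →
      |(tropLS F).lf g b' - (tropLS F).lf g b| < ε) ∧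
    ∀ g ∈ gens F b.cone, g ∉ perpM b.cone.1 → TropPt.absv g b' < ε}

theorem Vn_mem (b : TropPt F) {ε : ℝ} (hε : 0 < ε) : Vn b ε ∈ 𝓝 b := by
  have h1 : ∀ᶠ b' in 𝓝 b, b' ∈ TropPt.opn b.cone :=
    (TropPt.isOpen_opn b.cone).mem_nhds (mem_opn_self b)
  have h2 : ∀ᶠ b' in 𝓝 b, ∀ g ∈ gens F b.cone, g ∈ perpM b.cone.1 →
      |(tropLS F).lf g b' - (tropLS F).lf g b| < ε := by
    rw [Filter.eventually_all_finset]
    intro g _
    by_cases hg : g ∈ perpM b.cone.1
    · have h3 := Metric.tendsto_nhds.1 (continuousAt_lf b hg).tendsto ε hε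
      exact h3.mono fun b' hb' _ => by rwa [Real.dist_eq] at hb'
    · exact Filter.Eventually.of_forall fun b' h => absurd h hg
  have h3 : ∀ᶠ b' in 𝓝 b, ∀ g ∈ gens F b.cone, g ∉ perpM b.cone.1 → TropPt.absv g b' < ε := by
    rw [Filter.eventually_all_finset]
    intro g hgm
    by_cases hg : g ∈ perpM b.cone.1
    · exact Filter.Eventually.of_forall fun b' h => absurd hg h
    · have h4 := (continuousAt_absv b (gens_mem hgm)).tendsto
      rw [absv_not hg] at h4
      exact (h4.eventually (gt_mem_nhds hε)).mono fun b' hb' _ => hb'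
  filter_upwards [h1, h2, h3] with b' k1 k2 k3
  exact ⟨k1, k2, k3⟩

theorem exists_Vn (b : TropPt F) {V : Set (TropPt F)} (hV : V ∈ 𝓝 b) :
    ∃ ε > 0, Vn b ε ⊆ V := by
  have h1 := le_nhds b hV
  rw [inf_comm, Filter.mem_inf_principal, (Metric.nhds_basis_ball.comap _).mem_iff] at h1
  obtain ⟨δ, hδ, h1⟩ := h1
  have h2 : ∀ᶠ ε in 𝓝[>] (0 : ℝ), ∀ g ∈ gens F b.cone, ∀ x : ℝ,
      |x - (tropLS F).lf g b| < ε → |Real.exp x - Real.exp ((tropLS F).lf g b)| < δ := by
    rw [Filter.eventually_all_finset]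
    intro g _
    obtain ⟨η, hη, h3⟩ := Metric.continuousAt_iff.1
      (Real.continuous_exp.continuousAt (x := (tropLS F).lf g b)) δ hδ
    refine Filter.mem_of_superset (Ioo_mem_nhdsGT hη) ?_
    intro ε hε x hx
    have h4 := h3 (x := x) (by rw [Real.dist_eq]; exact hx.trans hε.2)
    rwa [Real.dist_eq] at h4
  have h5 : ∀ᶠ ε in 𝓝[>] (0 : ℝ), ε ∈ Set.Ioo 0 δ := Ioo_mem_nhdsGT hδ
  obtain ⟨ε, h2, h5⟩ := (h2.and h5).exists
  refine ⟨ε, h5.1, fun b' hb' => ?_⟩
  refine h1 ?_ hb'.1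
  show Th b b' ∈ Metric.ball (Th b b) δ
  rw [Metric.mem_ball, dist_pi_lt_iff hδ]
  rintro ⟨g, hg⟩
  show dist (TropPt.absv g b') (TropPt.absv g b) < δ
  rw [Real.dist_eq]
  by_cases hp : g ∈ perpM b.cone.1
  · have h6 := h2 g hg ((tropLS F).lf g b') (hb'.2.1 g hg hp)
    have hp' : g ∈ perpM b'.cone.1 := TropPt.perp_sub hb'.1 hp
    rw [lf_perp hp, lf_perp hp'] at h6
    rw [absv_perp hp, absv_perp hp']
    exact h6
  · rw [absv_not hp, sub_zero, abs_of_nonneg (absv_nonneg _ _)]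
    exact (hb'.2.2 g hg hp).trans h5.2

/-- The point of the stratum of `σ` given by a homomorphism. -/
def pt (b : TropPt F) (h : perpM b.cone.1 →+ ℝ) : TropPt F := ⟨b.cone, h⟩

theorem lf_pt (b : TropPt F) (h : perpM b.cone.1 →+ ℝ) {m : Fin n → ℤ}
    (hm : m ∈ perpM b.cone.1) : (tropLS F).lf m (pt b h) = h ⟨m, hm⟩ :=
  lf_perp (b := pt b h) hm

theorem pt_mem {b : TropPt F} {h : perpM b.cone.1 →+ ℝ} {ε : ℝ} (hε : 0 < ε)
    (hh : ∀ g ∈ gens F b.cone, ∀ hg : g ∈ perpM b.cone.1, |h ⟨g, hg⟩ - b.val ⟨g, hg⟩| < ε) :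
    pt b h ∈ Vn b ε := by
  refine ⟨Set.Subset.refl _, fun g hg hp => ?_, fun g hg hp => ?_⟩
  · rw [lf_pt b h hp, lf_perp hp]
    exact hh g hg hp
  · rw [absv_not (b := pt b h) hp]
    exact hε

/-- The restriction of the homomorphism of a point near `b` to `σ^⊥`. -/
def rest {b b' : TropPt F} (h : b' ∈ TropPt.opn b.cone) : perpM b.cone.1 →+ ℝ :=
  b'.val.comp (AddSubgroup.inclusion (fun _ hm => TropPt.perp_sub h hm))

theorem rest_apply {b b' : TropPt F} (h : b' ∈ TropPt.opn b.cone) {m : Fin n → ℤ}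
    (hm : m ∈ perpM b.cone.1) : rest h ⟨m, hm⟩ = (tropLS F).lf m b' :=
  (lf_perp (TropPt.perp_sub h hm)).symm

theorem Vn_convex (b : TropPt F) {ε : ℝ} (hε : 0 < ε) (u : Finset (Fin n → ℤ))
    (hu : ∀ m ∈ u, m ∈ perpM b.cone.1) : Convex ℝ ((tropLS F).trop u '' Vn b ε) := by
  rintro _ ⟨b1, h1, rfl⟩ _ ⟨b2, h2, rfl⟩ s t hs ht hst
  set h : perpM b.cone.1 →+ ℝ :=
    (AddMonoidHom.mulLeft s).comp (rest h1.1) + (AddMonoidHom.mulLeft t).comp (rest h2.1) with hh
  have hv : ∀ (m : Fin n → ℤ) (hm : m ∈ perpM b.cone.1),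
      h ⟨m, hm⟩ = s * (tropLS F).lf m b1 + t * (tropLS F).lf m b2 := by
    intro m hm
    rw [← rest_apply h1.1 hm, ← rest_apply h2.1 hm]
    rfl
  refine ⟨pt b h, pt_mem hε fun g hg hp => ?_, ?_⟩
  · rw [hv g hp, ← lf_perp hp]
    have k1 := h1.2.1 g hg hp
    have k2 := h2.2.1 g hg hp
    rw [abs_lt] at k1 k2 ⊢
    have e : t = 1 - s := by linarith
    subst e
    rcases hs.eq_or_lt with rfl | hs'
    · constructor <;> linarith
    · constructor <;> nlinarith
  · funext m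
    show (tropLS F).lf m.1 (pt b h) = s * (tropLS F).lf m.1 b1 + t * (tropLS F).lf m.1 b2
    rw [lf_pt b h (hu m.1 m.2), hv]

/-- The homomorphism with given values on a basis. -/
theorem exists_hom {σ : Set (Fin n → ℝ)} {r : ℕ} (e : Fin r → Fin n → ℤ)
    (hb : ∀ m ∈ perpM σ, ∃! a : Fin r → ℤ, m = ∑ i, a i • e i) :
    ∃ c : perpM σ → Fin r → ℤ, (∀ m, m.1 = ∑ i, c m i • e i) ∧
      ∀ x : Fin r → ℝ, ∃ h : perpM σ →+ ℝ, ∀ m, h m = ∑ i, (c m i : ℝ) * x i := by
  have hb' : ∀ m : perpM σ, ∃ a : Fin r → ℤ, m.1 = ∑ i, a i • e i :=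
    fun m => (hb m.1 m.2).exists
  choose c hc using hb'
  have hu : ∀ (m : perpM σ) (a : Fin r → ℤ), m.1 = ∑ i, a i • e i → c m = a :=
    fun m a ha => (hb m.1 m.2).unique (hc m) ha
  refine ⟨c, hc, fun x => ⟨AddMonoidHom.mk' (fun m => ∑ i, (c m i : ℝ) * x i) ?_, fun m => rfl⟩⟩
  intro m m'
  have h1 : c (m + m') = c m + c m' := hu _ _ (by
    rw [AddSubgroup.coe_add, hc m, hc m', ← Finset.sum_add_distrib]
    exact Finset.sum_congr rfl fun i _ => (add_smul _ _ _).symm)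
  simp only [h1, Pi.add_apply, Int.cast_add, add_mul, Finset.sum_add_distrib]

end TropLoc

open TropLoc

/-- The values of the characters of `σ^⊥`, `σ` the cone of `b`, on a small neighbourhood of `b`:
every neighbourhood of `b` contains a neighbourhood whose image under any finite set of characters
of `σ^⊥` is convex (the image of a small ball of the stratum of `b`). -/
theorem nhds_convex (b : TropPt F) {V : Set (TropPt F)} (hV : V ∈ 𝓝 b) : ∃ V' ∈ 𝓝 b, V' ⊆ V ∧
    V' ⊆ TropPt.opn b.cone ∧ ∀ u : Finset (Fin n → ℤ), (∀ m ∈ u, m ∈ perpM b.cone.1) →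
      Convex ℝ ((tropLS F).trop u '' V') := by
  obtain ⟨ε, hε, h⟩ := exists_Vn b hV
  exact ⟨Vn b ε, Vn_mem b hε, h, fun b' hb' => hb'.1, fun u hu => Vn_convex b hε u hu⟩

/-- The image under all characters of `σ^⊥` of a neighbourhood of `b` contains all homomorphisms
near `b`: for a basis `e` of `σ^⊥`, the map `b' ↦ (log |χ^{e_i}|(b'))` sends neighbourhoods of `b`
to neighbourhoods. -/
theorem nhds_image (b : TropPt F) {r : ℕ} (e : Fin r → Fin n → ℤ)
    (he : ∀ i, e i ∈ perpM b.cone.1)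
    (hb : ∀ m ∈ perpM b.cone.1, ∃! a : Fin r → ℤ, m = ∑ i, a i • e i)
    {V : Set (TropPt F)} (hV : V ∈ 𝓝 b) :
    (fun b' : TropPt F => fun i => (tropLS F).lf (e i) b') '' V ∈
      𝓝 (fun i => (tropLS F).lf (e i) b) := by
  obtain ⟨ε, hε, h⟩ := exists_Vn b hV
  refine Filter.mem_of_superset ?_ (Set.image_mono h)
  obtain ⟨c, hc, hx⟩ := exists_hom e hb
  have hbv : ∀ m : perpM b.cone.1, b.val m = ∑ i, (c m i : ℝ) * (tropLS F).lf (e i) b := by
    intro m
    have h1 : m = ∑ i, c m i • (⟨e i, he i⟩ : perpM b.cone.1) := by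
      apply Subtype.ext
      rw [AddSubgroup.val_finsetSum]
      exact hc m
    conv_lhs => rw [h1]
    rw [map_sum]
    refine Finset.sum_congr rfl fun i _ => ?_
    rw [map_zsmul, zsmul_eq_mul, lf_perp (he i)]
  have hce : ∀ i, c ⟨e i, he i⟩ = Pi.single i 1 := by
    intro i
    refine (hb (e i) (he i)).unique (hc ⟨e i, he i⟩) ?_
    rw [Finset.sum_eq_single i]
    · simp
    · intro j _ hj
      simp [Pi.single_eq_of_ne hj]
    · simp
  have h2 : ∀ᶠ x in 𝓝 (fun i => (tropLS F).lf (e i) b), ∀ g ∈ gens F b.cone,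
      ∀ hg : g ∈ perpM b.cone.1, |∑ i, (c ⟨g, hg⟩ i : ℝ) * x i - b.val ⟨g, hg⟩| < ε := by
    rw [Filter.eventually_all_finset]
    intro g _
    by_cases hg : g ∈ perpM b.cone.1
    · have h3 : Continuous fun x : Fin r → ℝ => ∑ i, (c ⟨g, hg⟩ i : ℝ) * x i := by fun_prop
      have h4 := h3.tendsto (fun i => (tropLS F).lf (e i) b)
      rw [← hbv ⟨g, hg⟩] at h4
      have h5 := Metric.tendsto_nhds.1 h4 ε hε
      refine h5.mono fun x hx _ => ?_
      rwa [Real.dist_eq] at hx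
    · exact Filter.Eventually.of_forall fun x h => absurd h hg
  refine Filter.mem_of_superset h2 fun x hx2 => ?_
  obtain ⟨φ, hφ⟩ := hx x
  refine ⟨pt b φ, pt_mem hε fun g hg hp => ?_, ?_⟩
  · rw [hφ]
    exact hx2 g hg hp
  · funext i
    show (tropLS F).lf (e i) (pt b φ) = x i
    rw [lf_pt b φ (he i), hφ, hce i, Finset.sum_eq_single i]
    · simp
    · intro j _ hj
      simp [Pi.single_eq_of_ne hj]
    · simp

theorem starAt_trop (b : TropPt F) : (tropLS F).StarAt b := by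
  intro u hu V hV
  obtain ⟨V', hV', h1, h2, h3⟩ := nhds_convex b hV
  refine ⟨V', hV', h1, fun f hf b' hb' => TropPt.perp_sub (h2 hb') (hu f hf), ?_⟩
  exact (h3 u hu).starConvex ⟨b, mem_of_mem_nhds hV', rfl⟩

end Pool.Agent.TD
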