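import Pool.Agent.TD.Y.AnTop
import Pool.Agent.TD.Y.Restr

/-! Block Y: cut-off functions on the analytification of a toric variety (module TD_Y_ACUT). -/

open scoped Topology
open AlgebraicGeometry CategoryTheory

namespace Pool.Agent.TD

namespace ACUT

open scoped ContDiff

open Classical in
/-- Extension by zero of a smooth function on a chart. -/
theorem smooth_ext {X Φ X' Φ' : Type} [TopologicalSpace X] [TopologicalSpace X']
    (L : LogSpace X Φ) (L' : LogSpace X' Φ') {W : Set X} (hW : IsOpen W) {c : W → X'}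
    (hc : Continuous c) (ix : Φ' → Φ) (hdom : ∀ (x : W) f, c x ∈ L'.dom f → x.1 ∈ L.dom (ix f))
    (hlf : ∀ (x : W) f, c x ∈ L'.dom f → L.lf (ix f) x.1 = L'.lf f (c x)) {g : X' → ℝ}
    (hg : L'.Smooth g) {C : Set X} (hC : IsClosed C) (hCW : C ⊆ W)
    (h0 : ∀ x : W, x.1 ∉ C → g (c x) = 0) :
    L.Smooth (fun x => if h : x ∈ W then g (c ⟨x, h⟩) else 0) := by
  intro x
  by_cases hx : x ∈ W
  · obtain ⟨s, hs, a, ha, he⟩ := hg (c ⟨x, hx⟩)
    refine ⟨s.image ix, ?_,
      fun y => a (fun f => y ⟨ix f.1, Finset.mem_image_of_mem ix f.2⟩), ?_, ?_⟩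
    · intro f' hf'
      obtain ⟨f, hf, rfl⟩ := Finset.mem_image.1 hf'
      exact hdom ⟨x, hx⟩ f (hs f hf)
    · exact ha.comp (contDiff_pi.2 fun f => contDiff_apply ℝ ℝ _)
    · have hd : ∀ᶠ w in 𝓝 (c ⟨x, hx⟩), ∀ f ∈ s, w ∈ L'.dom f := by
        rw [Filter.eventually_all_finset]
        exact fun f hf => (L'.isOpen_dom f).mem_nhds (hs f hf)
      have h1 : ∀ᶠ w in 𝓝 (⟨x, hx⟩ : W), (if h : w.1 ∈ W then g (c ⟨w.1, h⟩) else 0) =
          a (fun f => L.trop (s.image ix) w.1 ⟨ix f.1, Finset.mem_image_of_mem ix f.2⟩) := by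
        filter_upwards [hc.continuousAt.eventually he, hc.continuousAt.eventually hd] with w h2 h3
        rw [dif_pos w.2]
        refine Eq.trans h2 ?_
        congr 1
        funext f
        exact (hlf w f.1 (h3 f.1 f.2)).symm
      have h4 := hW.isOpenEmbedding_subtypeVal.map_nhds_eq (⟨x, hx⟩ : W)
      change ∀ᶠ x' in 𝓝 x, _
      have h5 : 𝓝 x = Filter.map Subtype.val (𝓝 (⟨x, hx⟩ : W)) := h4.symm
      rw [h5, Filter.eventually_map]
      exact h1
  · have hxC : x ∈ Cᶜ := fun h => hx (hCW h)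
    refine ⟨∅, by simp, fun _ => 0, contDiff_const, ?_⟩
    filter_upwards [hC.isOpen_compl.mem_nhds hxC] with x' hx'
    by_cases h : x' ∈ W
    · rw [dif_pos h]
      exact h0 ⟨x', h⟩ hx'
    · rw [dif_neg h]

open Classical in
/-- Cut-off functions near a point of a chart. -/
theorem local_cut {X Φ X' Φ' : Type} [TopologicalSpace X] [T2Space X] [LocallyCompactSpace X]
    [TopologicalSpace X'] (L : LogSpace X Φ) (L' : LogSpace X' Φ') (hL' : L'.CutOff) {W : Set X}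
    (hW : IsOpen W) {c : W → X'} (hc : IsHomeomorph c) (ix : Φ' → Φ)
    (hdom : ∀ (x : W) f, c x ∈ L'.dom f → x.1 ∈ L.dom (ix f))
    (hlf : ∀ (x : W) f, c x ∈ L'.dom f → L.lf (ix f) x.1 = L'.lf f (c x)) {z : X} (hz : z ∈ W)
    {V : Set X} (hV : V ∈ 𝓝 z) : ∃ g, L.Smooth g ∧ (∀ᶠ z' in 𝓝 z, g z' = 1) ∧
      ∃ C, IsClosed C ∧ C ⊆ V ∧ ∀ z', z' ∉ C → g z' = 0 := by
  obtain ⟨C0, hC0, hC0V, hC0c⟩ := local_compact_nhds (Filter.inter_mem hV (hW.mem_nhds hz))
  have hO : IsOpen (c '' (Subtype.val ⁻¹' interior C0)) :=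
    hc.isOpenMap _ (isOpen_interior.preimage continuous_subtype_val)
  have hzO : c ⟨z, hz⟩ ∈ c '' (Subtype.val ⁻¹' interior C0) :=
    ⟨⟨z, hz⟩, mem_interior_iff_mem_nhds.2 hC0, rfl⟩
  obtain ⟨g, hg, hg1, C', hC', hC'O, hg0⟩ := hL' {c ⟨z, hz⟩} _ isCompact_singleton hO
    (Set.singleton_subset_iff.2 hzO)
  have hsub : c ⁻¹' C' ⊆ Subtype.val ⁻¹' C0 := by
    intro x hx
    obtain ⟨y, hy, e⟩ := hC'O hx
    have : y = x := hc.injective e
    rw [← this]
    exact interior_subset (s := C0) hy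
  have hcomp : IsCompact (Subtype.val ⁻¹' C0 : Set W) := by
    rw [Subtype.isCompact_iff, Subtype.image_preimage_coe, Set.inter_eq_right.2]
    · exact hC0c
    · exact fun x hx => (hC0V hx).2
  have hCc : IsCompact (c ⁻¹' C') :=
    hcomp.of_isClosed_subset (hC'.preimage hc.continuous) hsub
  have hCcl : IsClosed (Subtype.val '' (c ⁻¹' C')) := (hCc.image continuous_subtype_val).isClosed
  have h0 : ∀ x : W, x.1 ∉ Subtype.val '' (c ⁻¹' C') → g (c x) = 0 := by
    intro x hx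
    apply hg0
    intro h
    exact hx ⟨x, h, rfl⟩
  refine ⟨_, smooth_ext L L' hW hc.continuous ix hdom hlf hg hCcl ?_ h0, ?_,
    Subtype.val '' (c ⁻¹' C'), hCcl, ?_, ?_⟩
  · rintro _ ⟨x, -, rfl⟩
    exact x.2
  · rw [nhdsSet_singleton] at hg1
    have h5 : 𝓝 z = Filter.map Subtype.val (𝓝 (⟨z, hz⟩ : W)) :=
      (hW.isOpenEmbedding_subtypeVal.map_nhds_eq (⟨z, hz⟩ : W)).symm
    rw [h5, Filter.eventually_map]
    filter_upwards [hc.continuous.continuousAt.eventually hg1] with w h2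
    rw [dif_pos w.2]
    exact h2
  · rintro _ ⟨x, hx, rfl⟩
    exact (hC0V (hsub hx)).1
  · intro x hx
    by_cases h : x ∈ W
    · rw [dif_pos h]
      exact h0 ⟨x, h⟩ hx
    · rw [dif_neg h]

end ACUT

namespace Toric

variable {K : Type} [NormedField K] [IsUltrametricDist K] {n : ℕ} {F : Fan n} {Y : Scheme.{0}}
  {ι : K →+* Γ(Y, ⊤)} (T : Toric F Y ι)

include T

/-- Cut-off functions: on the chart `U_σ^an` they come from `ber_cutOff` by `chart_homeo`; those
with compact support are extended by zero. -/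
theorem cutOff : (anLS Y ι).CutOff := by
  have := T.t2
  have := T.locallyCompact
  refine LogSpace.cutOff_of_local _ fun z V hV => ?_
  obtain ⟨σ, hσ, -⟩ := T.exists_min z.pt
  refine ACUT.local_cut (anLS Y ι) (berLS K (AddMonoidAlgebra K (dualM σ.1)))
    (ber_cutOff (finiteType σ)) (An.isOpen_opn (T.U σ)) (T.chart_homeo σ)
    (fun f => ⟨T.U σ, T.ringIso σ f⟩) ?_ ?_ hσ hV
  · intro x f hf
    exact ⟨x.2, hf⟩
  · intro x f _
    rfl

end Toric

end Pool.Agent.TD
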