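import Pool.Agent.TD.Y.TropBox

/-! Block Y: the topology of the tropical toric variety (module TD_Y_TropTop). -/

open scoped Topology

namespace Pool.Agent.TD

variable {n : ℕ} {F : Fan n}

namespace TropTop

theorem finite_cones (F : Fan n) : Finite F.cones := F.fin

theorem absv_of_notMem {m : Fin n → ℤ} {b : TropPt F} (h : m ∉ perpM b.cone.1) :
    TropPt.absv m b = 0 := by
  unfold TropPt.absv
  rw [dif_neg h]

theorem self_mem (b : TropPt F) : b ∈ TropPt.opn b.cone := Set.Subset.refl _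

/-- Points of one chart are separated by the characters. -/
theorem sep_chart {σ : F.cones} {b b' : TropPt F} (hb : b ∈ TropPt.opn σ)
    (hb' : b' ∈ TropPt.opn σ) (hne : b ≠ b') :
    ∃ u v : Set (TropPt F), IsOpen u ∧ IsOpen v ∧ b ∈ u ∧ b' ∈ v ∧ Disjoint u v := by
  have h1 : ¬ ∀ m ∈ dualM σ.1, TropPt.absv m b = TropPt.absv m b' :=
    fun h => hne (TropPt.ext_absv hb hb' h)
  push Not at h1
  obtain ⟨m, hm, hmne⟩ := h1
  obtain ⟨u, v, hu, hv, h2, h3, h4⟩ := t2_separation hmne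
  refine ⟨_, _, TropPt.isOpen_basic σ ⟨m, hm⟩ hu, TropPt.isOpen_basic σ ⟨m, hm⟩ hv, ⟨hb, h2⟩,
    ⟨hb', h3⟩, ?_⟩
  rw [Set.disjoint_left]
  rintro c ⟨-, hc⟩ ⟨-, hc'⟩
  exact Set.disjoint_left.1 h4 hc hc'

end TropTop

open TropTop

/-- Hausdorff: in one chart use `ext_absv` and the values `|χ^m|`; otherwise use `Fan.sep`: the
open sets `{|χ^m| < 1}` in `Trop(U_σ)` and `{|χ^(-m)| < 1}` in `Trop(U_τ)` are disjoint. -/
instance : T2Space (TropPt F) := by
  refine ⟨fun b b' hne => ?_⟩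
  by_cases h1 : b.cone.1 ⊆ b'.cone.1
  · exact sep_chart (σ := b'.cone) h1 (self_mem b') hne
  by_cases h2 : b'.cone.1 ⊆ b.cone.1
  · exact sep_chart (σ := b.cone) (self_mem b) h2 hne
  obtain ⟨m, m1, m2, m3, m4⟩ := F.sep b.cone b'.cone
  refine ⟨_, _, TropPt.isOpen_basic b.cone ⟨m, m1⟩ (isOpen_Iio (a := (1 : ℝ))),
    TropPt.isOpen_basic b'.cone ⟨-m, m2⟩ (isOpen_Iio (a := (1 : ℝ))), ⟨self_mem b, ?_⟩,
    ⟨self_mem b', ?_⟩, ?_⟩
  · have : m ∉ perpM b.cone.1 := fun h => h1 fun x hx => m3 x hx (h x hx)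
    show TropPt.absv m b < 1
    rw [absv_of_notMem this]
    exact one_pos
  · have : -m ∉ perpM b'.cone.1 := by
      intro h
      refine h2 fun x hx => m4 x hx ?_
      have h3 := h x hx
      rw [pair_neg_left] at h3
      linarith
    show TropPt.absv (-m) b' < 1
    rw [absv_of_notMem this]
    exact one_pos
  · rw [Set.disjoint_left]
    rintro c ⟨c1, c2⟩ ⟨c3, c4⟩
    have hm : m ∈ perpM c.cone.1 := by
      intro x hx
      have q1 : 0 ≤ pair m x := m1 x (c1 hx)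
      have q2 : 0 ≤ pair (-m) x := m2 x (c3 hx)
      rw [pair_neg_left] at q2
      linarith
    have hm' : -m ∈ perpM c.cone.1 := neg_mem hm
    have c2' : TropPt.absv m c < 1 := c2
    have c4' : TropPt.absv (-m) c < 1 := c4
    unfold TropPt.absv at c2' c4'
    rw [dif_pos hm] at c2'
    rw [dif_pos hm'] at c4'
    have e : (⟨-m, hm'⟩ : perpM c.cone.1) = -⟨m, hm⟩ := rfl
    rw [e, map_neg] at c4'
    rw [Real.exp_lt_one_iff] at c2' c4'
    linarith

theorem boxT_subset_interior (σ : F.cones) {R R' : ℝ} (h : R < R') :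
    boxT σ R ⊆ interior (boxT σ R') := by
  have hopen : IsOpen {b : TropPt F | b ∈ TropPt.opn σ ∧ ∀ g ∈ gens F σ, TropPt.absv g b < R'} := by
    have e : {b : TropPt F | b ∈ TropPt.opn σ ∧ ∀ g ∈ gens F σ, TropPt.absv g b < R'} =
        TropPt.opn σ ∩ ⋂ g ∈ gens F σ, {b : TropPt F | b ∈ TropPt.opn σ ∧
          TropPt.absv g b ∈ Set.Iio R'} := by
      ext b
      simp only [Set.mem_setOf_eq, Set.mem_inter_iff, Set.mem_iInter, Set.mem_Iio]
      constructor
      · rintro ⟨h1, h2⟩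
        exact ⟨h1, fun g hg => ⟨h1, h2 g hg⟩⟩
      · rintro ⟨h1, h2⟩
        exact ⟨h1, fun g hg => (h2 g hg).2⟩
    rw [e]
    refine (TropPt.isOpen_opn σ).inter (isOpen_biInter_finset fun g hg => ?_)
    exact TropPt.isOpen_basic σ ⟨g, gens_mem hg⟩ isOpen_Iio
  intro b hb
  refine mem_interior.2 ⟨_, ?_, hopen, ?_⟩
  · rintro c ⟨h1, h2⟩
    exact ⟨h1, fun g hg => (h2 g hg).le⟩
  · exact ⟨hb.1, fun g hg => lt_of_le_of_lt (hb.2 g hg) h⟩

namespace TropTop

theorem absv_nonneg (m : Fin n → ℤ) (b : TropPt F) : 0 ≤ TropPt.absv m b := by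
  unfold TropPt.absv
  split_ifs
  · exact (Real.exp_pos _).le
  · exact le_rfl

/-- Every point is in a box of its chart. -/
theorem exists_box (b : TropPt F) : ∃ k : ℕ, ∀ R : ℝ, (k : ℝ) ≤ R → b ∈ boxT b.cone R := by
  obtain ⟨k, hk⟩ := exists_nat_ge (∑ g ∈ gens F b.cone, TropPt.absv g b)
  refine ⟨k, fun R hR => ⟨self_mem b, fun g hg => ?_⟩⟩
  refine le_trans ?_ (hk.trans hR)
  exact Finset.single_le_sum (f := fun g => TropPt.absv g b) (fun i _ => absv_nonneg i b) hg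

theorem boxT_mono (σ : F.cones) {R R' : ℝ} (h : R ≤ R') : boxT σ R ⊆ boxT σ R' :=
  fun _ hb => ⟨hb.1, fun g hg => (hb.2 g hg).trans h⟩

end TropTop

instance : WeaklyLocallyCompactSpace (TropPt F) := by
  refine ⟨fun b => ?_⟩
  obtain ⟨k, hk⟩ := exists_box b
  refine ⟨boxT b.cone (k + 1), isCompact_boxT _ _, ?_⟩
  rw [mem_nhds_iff]
  refine ⟨_, interior_subset, isOpen_interior, ?_⟩
  exact boxT_subset_interior b.cone (lt_add_one (k : ℝ)) (hk k le_rfl)

instance : LocallyCompactSpace (TropPt F) := inferInstance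

/-- The tropical toric variety is exhausted by compact sets. -/
theorem exists_exhT (F : Fan n) : ∃ B : ℕ → Set (TropPt F), (∀ k, IsCompact (B k)) ∧
    (∀ k, B k ⊆ interior (B (k + 1))) ∧ ⋃ k, B k = Set.univ := by
  haveI := finite_cones F
  refine ⟨fun k => ⋃ σ : F.cones, boxT σ (k : ℝ), ?_, ?_, ?_⟩
  · intro k
    exact isCompact_iUnion fun σ => isCompact_boxT σ _
  · intro k
    refine Set.iUnion_subset fun σ => ?_
    refine (boxT_subset_interior σ (R' := ((k + 1 : ℕ) : ℝ)) ?_).trans ?_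
    · push_cast
      exact lt_add_one _
    · exact interior_mono (Set.subset_iUnion (fun σ : F.cones => boxT σ ((k + 1 : ℕ) : ℝ)) σ)
  · rw [Set.eq_univ_iff_forall]
    intro b
    obtain ⟨k, hk⟩ := exists_box b
    exact Set.mem_iUnion.2 ⟨k, Set.mem_iUnion.2 ⟨b.cone, hk k le_rfl⟩⟩

/-- Compact subsets are covered by finitely many boxes. -/
theorem compact_sub_box {K : Set (TropPt F)} (h : IsCompact K) :
    ∃ R : ℝ, K ⊆ ⋃ σ : F.cones, boxT σ R := by
  have hmono : ∀ {k l : ℕ}, k ≤ l →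
      (⋃ σ : F.cones, interior (boxT σ (k : ℝ))) ⊆ ⋃ σ : F.cones, interior (boxT σ (l : ℝ)) := by
    intro k l hkl
    refine Set.iUnion_mono fun σ => interior_mono (boxT_mono σ ?_)
    exact_mod_cast hkl
  obtain ⟨k, hk⟩ := h.elim_directed_cover
    (fun k : ℕ => ⋃ σ : F.cones, interior (boxT σ (k : ℝ)))
    (fun k => isOpen_iUnion fun σ => isOpen_interior) (by
      intro b _
      obtain ⟨k, hk⟩ := exists_box b
      refine Set.mem_iUnion.2 ⟨k + 1, Set.mem_iUnion.2 ⟨b.cone, ?_⟩⟩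
      refine boxT_subset_interior b.cone (R := (k : ℝ)) ?_ (hk k le_rfl)
      push_cast
      exact lt_add_one _) (by
      intro k l
      exact ⟨max k l, hmono (le_max_left k l), hmono (le_max_right k l)⟩)
  exact ⟨k, hk.trans (Set.iUnion_mono fun σ => interior_subset)⟩

end Pool.Agent.TD
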