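import Pool.Agent.TD.Y.TropMor
import Pool.Agent.TD.Y.TropTop
import Pool.Agent.TD.Y.Chart2
import Pool.Agent.TD.Y.Ring
import Pool.Agent.TD.Y.BerFacts

/-! Block Y: the topology of the analytification of a toric variety (module TD_Y_AnTop). -/

open scoped Topology
open AlgebraicGeometry CategoryTheory

namespace Pool.Agent.TD

namespace Toric

variable {K : Type} [NormedField K] {n : ℕ} {F : Fan n} {Y : Scheme.{0}} {ι : K →+* Γ(Y, ⊤)}
  (T : Toric F Y ι)

/-- The chart `U_σ^an → M(K[S_σ])`. -/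
noncomputable def chart (σ : F.cones) :
    An.opn ι (T.U σ) → Ber K (AddMonoidAlgebra K (dualM σ.1)) :=
  An.toBer (T.ringIso σ).toRingHom (by
    intro c
    show T.evHom σ (algebraMap K _ c) = _
    have e : algebraMap K (AddMonoidAlgebra K (dualM σ.1)) c = AddMonoidAlgebra.single 0 c := rfl
    rw [e, evHom_single, T.chi_zero, mul_one])

theorem chart_homeo (σ : F.cones) : IsHomeomorph (T.chart σ) :=
  An.toBer_homeo (T.affine σ) (T.ringIso σ) _

theorem finiteType (σ : F.cones) : Algebra.FiniteType K (AddMonoidAlgebra K (dualM σ.1)) := by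
  have h : AddMonoid.FG (dualM σ.1) :=
    (AddMonoid.fg_iff_addSubmonoid_fg _).2 (gordan (F.rat σ.1 σ.2))
  exact AddMonoidAlgebra.finiteType_of_fg K _

theorem chart_single (σ : F.cones) (z : An.opn ι (T.U σ)) (m : dualM σ.1) :
    (T.chart σ z).v (AddMonoidAlgebra.single m 1) = TropPt.absv m.1 (T.trop z.1) := by
  show An.absv (T.U σ) (T.evHom σ (AddMonoidAlgebra.single m 1)) z.1 = _
  rw [evHom_single, map_one, one_mul]
  exact (T.absv_trop z.2 m).symm

/-- The characters which generate the ring of the chart. -/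
theorem adjoin_gens (σ : F.cones) : ∃ G : Finset (AddMonoidAlgebra K (dualM σ.1)),
    Algebra.adjoin K (G : Set (AddMonoidAlgebra K (dualM σ.1))) = ⊤ ∧
    ∀ x, x ∈ G ↔ ∃ (g : Fin n → ℤ) (hg : g ∈ gens F σ),
      x = AddMonoidAlgebra.single (⟨g, gens_mem hg⟩ : dualM σ.1) 1 := by
  classical
  refine ⟨(gens F σ).attach.image fun g =>
    AddMonoidAlgebra.single (⟨g.1, gens_mem g.2⟩ : dualM σ.1) 1, ?_, ?_⟩
  · set G : Finset (AddMonoidAlgebra K (dualM σ.1)) := (gens F σ).attach.image fun g =>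
      AddMonoidAlgebra.single (⟨g.1, gens_mem g.2⟩ : dualM σ.1) 1 with hG
    have h2 : ∀ m ∈ AddSubmonoid.closure (gens F σ : Set (Fin n → ℤ)), ∃ h : m ∈ dualM σ.1,
        (AddMonoidAlgebra.single (⟨m, h⟩ : dualM σ.1) 1 : AddMonoidAlgebra K (dualM σ.1)) ∈
          Algebra.adjoin K (G : Set (AddMonoidAlgebra K (dualM σ.1))) := by
      intro m hm'
      induction hm' using AddSubmonoid.closure_induction with
      | mem x hx =>
        refine ⟨gens_mem hx, Algebra.subset_adjoin ?_⟩
        rw [hG, Finset.mem_coe, Finset.mem_image]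
        exact ⟨⟨x, hx⟩, Finset.mem_attach _ _, rfl⟩
      | zero => exact ⟨(dualM σ.1).zero_mem, Subalgebra.one_mem _⟩
      | add x y _ _ hx hy =>
        obtain ⟨hx', hx2⟩ := hx
        obtain ⟨hy', hy2⟩ := hy
        refine ⟨(dualM σ.1).add_mem hx' hy', ?_⟩
        have h3 := Subalgebra.mul_mem _ hx2 hy2
        rw [AddMonoidAlgebra.single_mul_single, one_mul] at h3
        exact h3
    have h1 : ∀ (m : Fin n → ℤ) (hm : m ∈ dualM σ.1),
        (AddMonoidAlgebra.single (⟨m, hm⟩ : dualM σ.1) 1 : AddMonoidAlgebra K (dualM σ.1)) ∈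
          Algebra.adjoin K (G : Set (AddMonoidAlgebra K (dualM σ.1))) := by
      intro m hm
      have hm' : m ∈ AddSubmonoid.closure (gens F σ : Set (Fin n → ℤ)) := by
        rw [closure_gens]; exact hm
      exact (h2 m hm').2
    rw [eq_top_iff]
    rintro x -
    induction x using AddMonoidAlgebra.induction_on with
    | of m => exact h1 m.1 m.2
    | add x y hx hy => exact Subalgebra.add_mem _ hx hy
    | smul c x hx => exact Subalgebra.smul_mem _ hx c
  · intro x
    rw [Finset.mem_image]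
    constructor
    · rintro ⟨g, -, rfl⟩
      exact ⟨g.1, g.2, rfl⟩
    · rintro ⟨g, hg, rfl⟩
      exact ⟨⟨g, hg⟩, Finset.mem_attach _ _, rfl⟩

variable [IsUltrametricDist K]

/-- The preimage of a box is compact. -/
theorem isCompact_preimage_boxT (σ : F.cones) (R : ℝ) : IsCompact (T.trop ⁻¹' boxT σ R) := by
  obtain ⟨G, hG, hG2⟩ := adjoin_gens (K := K) (F := F) σ
  have h1 := ber_compact G hG R
  have h2 : IsCompact (T.chart σ ⁻¹'
      {z : Ber K (AddMonoidAlgebra K (dualM σ.1)) | ∀ g ∈ G, z.v g ≤ R}) :=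
    ((T.chart_homeo σ).homeomorph).isCompact_preimage.2 h1
  have h3 := h2.image (continuous_subtype_val (p := fun z => z ∈ An.opn ι (T.U σ)))
  convert h3 using 1
  ext z
  constructor
  · rintro ⟨hz1, hz2⟩
    have hz : z.pt ∈ T.U σ := T.trop_mem_opn.1 hz1
    refine ⟨⟨z, hz⟩, ?_, rfl⟩
    intro g hg
    obtain ⟨g', hg', rfl⟩ := (hG2 g).1 hg
    rw [T.chart_single]
    exact hz2 g' hg'
  · rintro ⟨⟨z, hz⟩, h, rfl⟩
    refine ⟨T.trop_mem_opn.2 hz, ?_⟩
    intro g hg
    have h4 := h _ ((hG2 _).2 ⟨g, hg, rfl⟩)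
    rw [T.chart_single] at h4
    exact h4

/-- The tropicalization map is proper. -/
theorem isCompact_preimage {C : Set (TropPt F)} (hC : IsCompact C) :
    IsCompact (T.trop ⁻¹' C) := by
  obtain ⟨R, hR⟩ := compact_sub_box hC
  have h1 : IsCompact (⋃ σ : F.cones, T.trop ⁻¹' boxT σ R) :=
    isCompact_iUnion fun σ => T.isCompact_preimage_boxT σ R
  refine h1.of_isClosed_subset (hC.isClosed.preimage T.continuous_trop) ?_
  rw [← Set.preimage_iUnion]
  exact Set.preimage_mono hR

include T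

/-- Two points with the same tropicalization are in one chart; otherwise separate them in
`Trop(Y)`. -/
theorem t2 : T2Space (An Y ι) := by
  refine ⟨fun z z' hzz => ?_⟩
  by_cases ht : T.trop z = T.trop z'
  · have hz : z.pt ∈ T.U (T.trop z).cone := T.mem_minCone z.pt
    have hz' : z'.pt ∈ T.U (T.trop z).cone := by
      rw [ht]
      exact T.mem_minCone z'.pt
    set σ := (T.trop z).cone
    have hne : T.chart σ ⟨z, hz⟩ ≠ T.chart σ ⟨z', hz'⟩ := fun h =>
      hzz (congrArg Subtype.val ((T.chart_homeo σ).injective h))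
    obtain ⟨A, B, hA, hB, hzA, hzB, hAB⟩ := t2_separation hne
    have hop : IsOpen (An.opn ι (T.U σ)) := An.isOpen_opn (T.U σ)
    refine ⟨Subtype.val '' (T.chart σ ⁻¹' A), Subtype.val '' (T.chart σ ⁻¹' B),
      hop.isOpenMap_subtype_val _ (hA.preimage (T.chart_homeo σ).continuous),
      hop.isOpenMap_subtype_val _ (hB.preimage (T.chart_homeo σ).continuous),
      ⟨⟨z, hz⟩, hzA, rfl⟩, ⟨⟨z', hz'⟩, hzB, rfl⟩, ?_⟩
    exact Set.disjoint_image_of_injective Subtype.val_injective (hAB.preimage _)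
  · obtain ⟨A, B, hA, hB, hzA, hzB, hAB⟩ := t2_separation ht
    exact ⟨T.trop ⁻¹' A, T.trop ⁻¹' B, hA.preimage T.continuous_trop,
      hB.preimage T.continuous_trop, hzA, hzB, hAB.preimage _⟩

theorem locallyCompact : LocallyCompactSpace (An Y ι) := by
  have ht2 : T2Space (An Y ι) := T.t2
  have hw : WeaklyLocallyCompactSpace (An Y ι) := by
    refine ⟨fun z => ?_⟩
    have hz : z.pt ∈ T.U (T.minCone z.pt) := T.mem_minCone z.pt
    set σ := T.minCone z.pt
    have hlc : LocallyCompactSpace (Ber K (AddMonoidAlgebra K (dualM σ.1))) :=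
      ber_locallyCompact (finiteType σ)
    obtain ⟨s, hs, hsn⟩ := exists_compact_mem_nhds (T.chart σ ⟨z, hz⟩)
    have hop : IsOpen (An.opn ι (T.U σ)) := An.isOpen_opn (T.U σ)
    have h1 : IsCompact (T.chart σ ⁻¹' s) :=
      ((T.chart_homeo σ).homeomorph).isCompact_preimage.2 hs
    have h2 : T.chart σ ⁻¹' s ∈ 𝓝 (⟨z, hz⟩ : An.opn ι (T.U σ)) :=
      (T.chart_homeo σ).continuous.continuousAt hsn
    exact ⟨Subtype.val '' (T.chart σ ⁻¹' s), h1.image continuous_subtype_val,
      hop.isOpenMap_subtype_val.image_mem_nhds h2⟩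
  infer_instance

end Toric

end Pool.Agent.TD
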