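import Pool.Agent.TD.Y.Map
import Pool.Agent.TD.T.Basic

/-! Block Y: the analytification of an affine open subset is the Berkovich spectrum of its ring
of functions: definitions, quotients (module TD_Y_CH1). -/

open scoped Topology
open AlgebraicGeometry CategoryTheory

namespace Pool.Agent.TD

variable {K : Type} [NormedField K] {X : Scheme.{0}} {ι : K →+* Γ(X, ⊤)} {U : X.Opens}
  {A : Type} [CommRing A] [Algebra K A]

namespace An

/-- The seminorm on `A = Γ(X, U)` of a point of `U^an`. -/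
noncomputable def toBer (φ : A →+* Γ(X, U)) (hφ : ∀ c, φ (algebraMap K A c) = stK ι U c)
    (z : opn ι U) : Ber K A where
  v a := absv U (φ a) z.1
  nonneg a := absv_nonneg _ _ _
  one := by rw [map_one, absv_one z.2]
  mul a b := by rw [map_mul, absv_mul]
  add a b := by rw [map_add]; exact absv_add _ _ _
  ext c := by rw [hφ, absv_stK c z.2]

theorem toBer_v (φ : A →+* Γ(X, U)) (hφ : ∀ c, φ (algebraMap K A c) = stK ι U c) (z : opn ι U)
    (a : A) : (toBer φ hφ z).v a = absv U (φ a) z.1 := rfl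

theorem toBer_continuous (φ : A →+* Γ(X, U)) (hφ : ∀ c, φ (algebraMap K A c) = stK ι U c) :
    Continuous (toBer φ hφ) := by
  rw [Ber.continuous_iff]
  intro a
  exact (continuousOn_absv (ι := ι) U (φ a)).restrict

theorem absv_ne_zero_iff (h : Γ(X, U)) {z : An X ι} (hz : z.pt ∈ U) :
    absv U h z ≠ 0 ↔ z.pt ∈ X.basicOpen h := by
  rw [absv_of_mem _ hz, Scheme.mem_basicOpen _ _ _ hz, Ne, z.ker, not_not]

theorem absv_pow (f : Γ(X, U)) {z : An X ι} (hz : z.pt ∈ U) (n : ℕ) :
    absv U (f ^ n) z = absv U f z ^ n := by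
  induction n with
  | zero => rw [pow_zero, pow_zero, absv_one hz]
  | succ n ih => rw [pow_succ, pow_succ, absv_mul, ih]

/-- A function on an open subset is near a point of an affine `U^an` a quotient of functions on
`U`, in absolute value. -/
theorem exists_frac (hU : IsAffineOpen U) (V : X.Opens) (f : Γ(X, V)) {z : An X ι}
    (hz : z.pt ∈ U) (hV : z.pt ∈ V) : ∃ (g h : Γ(X, U)), absv U h z ≠ 0 ∧
      (∀ z' : An X ι, z'.pt ∈ U → absv U h z' ≠ 0 →
        z'.pt ∈ V ∧ absv V f z' = absv U g z' / absv U h z') := by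
  obtain ⟨h₀, hle, hmem⟩ := hU.exists_basicOpen_le ⟨z.pt, hV⟩ hz
  have hloc := hU.isLocalization_basicOpen h₀
  obtain ⟨n, a, ha⟩ := IsLocalization.Away.surj h₀
    (X.presheaf.map (homOfLE hle).op f : Γ(X, X.basicOpen h₀))
  have hne : absv U h₀ z ≠ 0 := (absv_ne_zero_iff h₀ hz).2 hmem
  refine ⟨a * h₀, h₀ ^ (n + 1), ?_, ?_⟩
  · rw [absv_pow _ hz]
    exact pow_ne_zero _ hne
  · intro z' hz' hh
    rw [absv_pow _ hz'] at hh
    have h1 : absv U h₀ z' ≠ 0 := fun h => hh (by rw [h, zero_pow (Nat.succ_ne_zero n)])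
    have h2 : z'.pt ∈ X.basicOpen h₀ := (absv_ne_zero_iff h₀ hz').1 h1
    refine ⟨hle h2, ?_⟩
    have e1 : absv (X.basicOpen h₀) (X.presheaf.map (homOfLE hle).op f) z' = absv V f z' :=
      absv_res hle f h2
    have e2 : ∀ b : Γ(X, U), absv (X.basicOpen h₀) (algebraMap Γ(X, U) Γ(X, X.basicOpen h₀) b) z'
        = absv U b z' := fun b => absv_res (X.basicOpen_le h₀) b h2
    have e3 := congrArg (fun b => absv (X.basicOpen h₀) b z') ha
    simp only [absv_mul, absv_pow _ h2, e1, e2] at e3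
    rw [absv_mul, absv_pow _ hz', pow_succ, mul_div_mul_right _ _ h1,
      eq_div_iff (pow_ne_zero _ h1)]
    exact e3

end An

end Pool.Agent.TD
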