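import Pool.Agent.TD.Y.Cone

/-! Block Y: rational cones: relative interiors of dual cones, Gordan's lemma
(module TD_Y_Cone2). -/

namespace Pool.Agent.TD

variable {n : ℕ}

theorem Cone2.rv_neg (v : Fin n → ℤ) : rv (-v) = -rv v := by
  funext i
  simp [rv]

/-- Non-negative combinations of elements of a set which is closed under them. -/
theorem Cone2.comb_mem {D : Set (Fin n → ℝ)} (h0 : (0 : Fin n → ℝ) ∈ D)
    (hadd : ∀ x ∈ D, ∀ y ∈ D, x + y ∈ D) (hsmul : ∀ (c : ℝ), 0 ≤ c → ∀ x ∈ D, c • x ∈ D)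
    (V : Finset (Fin n → ℤ)) (a : (Fin n → ℤ) → ℝ) (ha : ∀ v, 0 ≤ a v)
    (hV : ∀ v ∈ V, a v = 0 ∨ rv v ∈ D) : ∑ v ∈ V, a v • rv v ∈ D := by
  refine Finset.sum_induction (fun v => a v • rv v) (· ∈ D) (fun x y hx hy => hadd x hx y hy) h0 ?_
  intro v hv
  rcases hV v hv with h | h
  · rw [h, zero_smul]
    exact h0
  · exact hsmul _ (ha v) _ h

theorem IsRatCone.add_mem {γ : Set (Fin n → ℝ)} (h : IsRatCone γ) {x y : Fin n → ℝ} (hx : x ∈ γ)
    (hy : y ∈ γ) : x + y ∈ γ := by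
  obtain ⟨V, rfl⟩ := h
  obtain ⟨a, ha, rfl⟩ := hx
  obtain ⟨b, hb, rfl⟩ := hy
  refine ⟨fun v => a v + b v, fun v => add_nonneg (ha v) (hb v), ?_⟩
  rw [← Finset.sum_add_distrib]
  exact Finset.sum_congr rfl fun v _ => (add_smul _ _ _).symm

theorem IsRatCone.smul_mem {γ : Set (Fin n → ℝ)} (h : IsRatCone γ) {x : Fin n → ℝ} (hx : x ∈ γ)
    {a : ℝ} (ha : 0 ≤ a) : a • x ∈ γ := by
  obtain ⟨V, rfl⟩ := h
  obtain ⟨b, hb, rfl⟩ := hx
  refine ⟨fun v => a * b v, fun v => mul_nonneg ha (hb v), ?_⟩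
  rw [Finset.smul_sum]
  exact Finset.sum_congr rfl fun v _ => smul_smul _ _ _

theorem IsRatCone.zero_mem {γ : Set (Fin n → ℝ)} (h : IsRatCone γ) : (0 : Fin n → ℝ) ∈ γ := by
  obtain ⟨V, rfl⟩ := h
  exact ⟨fun _ => 0, fun _ => le_rfl, by simp⟩

/-- The generators of a cone belong to it. -/
theorem Cone2.gen_mem {V : Finset (Fin n → ℤ)} {v : Fin n → ℤ} (hv : v ∈ V) :
    rv v ∈ {x | ∃ a : (Fin n → ℤ) → ℝ, (∀ v, 0 ≤ a v) ∧
      x = ∑ v ∈ V, a v • (fun i => (v i : ℝ))} := by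
  classical
  refine ⟨fun u => if u = v then 1 else 0, fun u => ?_, ?_⟩
  · show (0 : ℝ) ≤ if u = v then 1 else 0
    split_ifs <;> norm_num
  · simp only [ite_smul, one_smul, zero_smul]
    rw [Finset.sum_ite_eq' V v, if_pos hv]
    rfl

/-- There is an integral linear form, non-negative on `γ`, whose zero set in `γ` is the lineality
space of `γ`.  (Sum of the forms of `farkas` for `-v`, `v` a generator with `-v ∉ γ`.) -/
theorem exists_relint {γ : Set (Fin n → ℝ)} (h : IsRatCone γ) :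
    ∃ m ∈ dualM γ, ∀ x ∈ γ, pair m x = 0 → -x ∈ γ := by
  classical
  obtain ⟨V, hV⟩ := id h
  have hex : ∀ v : Fin n → ℤ, ∃ m ∈ dualM γ, rv (-v) ∉ γ → 0 < pair m (rv v) := by
    intro v
    by_cases hv : rv (-v) ∈ γ
    · exact ⟨0, AddSubmonoid.zero_mem _, fun h' => absurd hv h'⟩
    · obtain ⟨m, hm, hm'⟩ := farkas h (-v) hv
      refine ⟨m, hm, fun _ => ?_⟩
      rw [Cone2.rv_neg, ← neg_one_smul ℝ (rv v), pair_smul_right] at hm'
      linarith
  choose m hm hm' using hex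
  refine ⟨∑ v ∈ V, m v, AddSubmonoid.sum_mem _ fun v _ => hm v, ?_⟩
  intro x hx h0
  have hs : ∀ (s : Finset (Fin n → ℤ)), pair (∑ v ∈ s, m v) x = ∑ v ∈ s, pair (m v) x := by
    intro s
    induction s using Finset.induction_on with
    | empty => simp [pair]
    | insert a s ha ih => rw [Finset.sum_insert ha, Finset.sum_insert ha, pair_add_left, ih]
  rw [hs, Finset.sum_eq_zero_iff_of_nonneg fun v _ => hm v x hx] at h0
  have hx' := hx
  rw [hV] at hx'
  obtain ⟨a, ha, hxa⟩ := hx'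
  have hgen : ∀ v ∈ V, rv v ∈ γ := by
    intro v hv
    rw [hV]
    exact Cone2.gen_mem hv
  have hp : ∀ (m : Fin n → ℤ) (s : Finset (Fin n → ℤ)),
      pair m (∑ v ∈ s, a v • rv v) = ∑ v ∈ s, a v * pair m (rv v) := by
    intro m s
    induction s using Finset.induction_on with
    | empty => simp [pair]
    | insert u s hu ih =>
      rw [Finset.sum_insert hu, Finset.sum_insert hu, pair_add_right, ih, pair_smul_right]
  have hxa' : x = ∑ v ∈ V, a v • rv v := hxa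
  have hz : ∀ v ∈ V, a v * pair (m v) (rv v) = 0 := by
    intro v hv
    have h1 := h0 v hv
    rw [hxa', hp, Finset.sum_eq_zero_iff_of_nonneg
      fun u hu => mul_nonneg (ha u) (hm v _ (hgen u hu))] at h1
    exact h1 v hv
  have hneg : -x = ∑ v ∈ V.image (fun v => -v), a (-v) • rv v := by
    rw [Finset.sum_image (fun u _ v _ huv => neg_injective huv), hxa', ← Finset.sum_neg_distrib]
    refine Finset.sum_congr rfl fun v _ => ?_
    rw [neg_neg, Cone2.rv_neg, smul_neg]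
  rw [hneg]
  refine Cone2.comb_mem h.zero_mem (fun x hx y hy => h.add_mem hx hy)
    (fun c hc x hx => h.smul_mem hx hc) _ (fun v => a (-v)) (fun v => ha _) ?_
  intro u hu
  rw [Finset.mem_image] at hu
  obtain ⟨v, hv, rfl⟩ := hu
  rw [neg_neg]
  by_cases hc : rv (-v) ∈ γ
  · exact Or.inr hc
  · left
    rcases mul_eq_zero.1 (hz v hv) with h1 | h1
    · exact h1
    · exact absurd h1 (ne_of_gt (hm' v hc))

/-- Sum of a rational cone and the negative of a rational cone. -/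
theorem IsRatCone.sub {γ γ' : Set (Fin n → ℝ)} (h : IsRatCone γ) (h' : IsRatCone γ') :
    IsRatCone {z | ∃ x ∈ γ, ∃ y ∈ γ', z = x - y} := by
  classical
  obtain ⟨V, hV⟩ := id h
  obtain ⟨V', hV'⟩ := id h'
  have hW : IsRatCone {x : Fin n → ℝ | ∃ a : (Fin n → ℤ) → ℝ, (∀ v, 0 ≤ a v) ∧
      x = ∑ v ∈ V ∪ V'.image (fun v => -v), a v • (fun i => (v i : ℝ))} := ⟨_, rfl⟩
  have h0D : (0 : Fin n → ℝ) ∈ {z : Fin n → ℝ | ∃ x ∈ γ, ∃ y ∈ γ', z = x - y} :=
    ⟨0, h.zero_mem, 0, h'.zero_mem, by simp⟩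
  refine ⟨V ∪ V'.image (fun v => -v), Set.Subset.antisymm ?_ ?_⟩
  · rintro z ⟨x, hx, y, hy, rfl⟩
    rw [sub_eq_add_neg]
    refine hW.add_mem ?_ ?_
    · rw [hV] at hx
      obtain ⟨a, ha, rfl⟩ := hx
      exact Cone2.comb_mem hW.zero_mem (fun x hx y hy => hW.add_mem hx hy)
        (fun c hc x hx => hW.smul_mem hx hc) V a ha
        fun v hv => Or.inr (Cone2.gen_mem (Finset.mem_union_left _ hv))
    · rw [hV'] at hy
      obtain ⟨a, ha, rfl⟩ := hy
      have e : -(∑ v ∈ V', a v • (fun i => (v i : ℝ))) =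
          ∑ v ∈ V'.image (fun v => -v), a (-v) • rv v := by
        rw [Finset.sum_image (fun u _ v _ huv => neg_injective huv), ← Finset.sum_neg_distrib]
        refine Finset.sum_congr rfl fun v _ => ?_
        rw [neg_neg, Cone2.rv_neg, smul_neg]
        rfl
      rw [e]
      exact Cone2.comb_mem hW.zero_mem (fun x hx y hy => hW.add_mem hx hy)
        (fun c hc x hx => hW.smul_mem hx hc) _ (fun v => a (-v)) (fun v => ha _)
        fun v hv => Or.inr (Cone2.gen_mem (Finset.mem_union_right _ hv))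
  · rintro z ⟨a, ha, rfl⟩
    refine Cone2.comb_mem h0D ?_ ?_ _ a ha ?_
    · rintro _ ⟨x, hx, y, hy, rfl⟩ _ ⟨x', hx', y', hy', rfl⟩
      exact ⟨x + x', h.add_mem hx hx', y + y', h'.add_mem hy hy', by abel⟩
    · rintro c hc _ ⟨x, hx, y, hy, rfl⟩
      exact ⟨c • x, h.smul_mem hx hc, c • y, h'.smul_mem hy hc, smul_sub _ _ _⟩
    · intro v hv
      right
      rcases Finset.mem_union.1 hv with hv | hv
      · refine ⟨rv v, ?_, 0, h'.zero_mem, by simp⟩
        rw [hV]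
        exact Cone2.gen_mem hv
      · obtain ⟨u, hu, rfl⟩ := Finset.mem_image.1 hv
        refine ⟨0, h.zero_mem, rv u, ?_, by rw [Cone2.rv_neg]; simp⟩
        rw [hV']
        exact Cone2.gen_mem hu

end Pool.Agent.TD
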