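import Pool.Agent.TD.Y.Loc3
import Pool.Agent.TD.Y.AnCut
import Pool.Agent.TD.F.Tor

/-! Block Y: transfer of forms near the fibres of the tropicalization map (module TD_Y_FB1). -/

open scoped ContDiff Topology
open AlgebraicGeometry CategoryTheory

namespace Pool.Agent.TD

/-- The results of section 7 (F2) on the tori `torS K X b` in the Berkovich affine spaces (block
F, F/Tor.lean). -/
abbrev F2 (K : Type) [NormedField K] : Prop :=
  ∀ r : ℕ, TorP K (fun i : Fin r => (MvPolynomial.X i : MvPolynomial (Fin r) K))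

/-- The tori `Sb` are the tori of block F. -/
theorem Sb_eq {K : Type} [NormedField K] {r : ℕ} (b : Fin r → ℝ) :
    Sb (K := K) b = torS K (fun i : Fin r => (MvPolynomial.X i : MvPolynomial (Fin r) K)) b := rfl

namespace FB1

section gen

variable {X Φ X' Φ' : Type} [TopologicalSpace X] [TopologicalSpace X'] {L : LogSpace X Φ}
  {L' : LogSpace X' Φ'}

/-- Pull back of germs to a point `z` over `y`. -/
noncomputable def pullE (m : Mor L L') {z : X} {y : X'} (h : m.toFun z = y) (p q : ℕ) :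
    L'.Stalk p q y →ₗ[ℝ] L.Stalk p q z := by
  subst h; exact m.pullS p q z

theorem pullE_rfl (m : Mor L L') (z : X) (p q : ℕ) :
    pullE m (rfl : m.toFun z = m.toFun z) p q = m.pullS p q z := rfl

theorem sfatE (m : Mor L L') {z : X} {y : X'} (h : m.toFun z = y) {p q : ℕ} {θ : Raw Φ' p q}
    (k : L'.SFat y θ) : L.SFat z (pullR m.ix θ) := by
  subst h; exact m.sfat k

theorem pullE_germ (m : Mor L L') {z : X} {y : X'} (h : m.toFun z = y) {p q : ℕ}
    {θ : Raw Φ' p q} (k : L'.SFat y θ) :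
    pullE m h p q (L'.germ θ k) = L.germ (pullR m.ix θ) (sfatE m h k) := by
  subst h; rfl

theorem pullE_injective (m : Mor L L') {z : X} {y : X'} (h : m.toFun z = y) {p q : ℕ}
    (hi : Function.Injective (m.pullS p q z)) : Function.Injective (pullE m h p q) := by
  subst h; exact hi

end gen

/-- The tori are compact. -/
theorem isCompact_Sb {K : Type} [NormedField K] [IsUltrametricDist K] {r : ℕ} (b : Fin r → ℝ) :
    IsCompact (Sb (K := K) b) := by
  classical
  have hG : Algebra.adjoin K ((Finset.univ.image (MvPolynomial.X : Fin r →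
      MvPolynomial (Fin r) K) : Finset (MvPolynomial (Fin r) K)) :
      Set (MvPolynomial (Fin r) K)) = ⊤ := by
    rw [Finset.coe_image, Finset.coe_univ, Set.image_univ]
    exact MvPolynomial.adjoin_range_X
  have hc : IsClosed (Sb (K := K) b) := by
    have e : Sb (K := K) b = ⋂ i, {y : Ber K (MvPolynomial (Fin r) K) |
        y.v (MvPolynomial.X i) = Real.exp (b i)} := by
      ext y
      simp [Sb]
    rw [e]
    exact isClosed_iInter fun i => isClosed_eq (Ber.continuous_v _) continuous_const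
  refine (ber_compact _ hG (∑ i, Real.exp (b i))).of_isClosed_subset hc ?_
  intro y hy g hg
  obtain ⟨i, -, rfl⟩ := Finset.mem_image.1 hg
  rw [hy i]
  exact Finset.single_le_sum (f := fun i => Real.exp (b i)) (fun j _ => (Real.exp_pos _).le)
    (Finset.mem_univ i)

end FB1

namespace Toric

variable {K : Type} [NormedField K] [IsUltrametricDist K] {n : ℕ} {F : Fan n} {Y : Scheme.{0}}
  {ι : K →+* Γ(Y, ⊤)} (T : Toric F Y ι)

open FB1

/-- Transfer of sections along the fibre: a section `c` on `Y^an` gives a section `c'` on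
`M(K[T])` with `c = locMor^* c'` on the fibre over `b`. -/
theorem push (b : TropPt F) {r : ℕ} {e : Fin r → Fin n → ℤ} (he : IsPB b.cone.1 e) {p q : ℕ}
    (c : (anLS Y ι).G p q) : ∃ c' : (berLS K (MvPolynomial (Fin r) K)).G p q,
    ∀ z : An.opn ι (T.U b.cone), T.trop z.1 = b →
      (T.locMor b.cone he).pullS p q z (c'.1 ((T.locMor b.cone he).toFun z)) =
        ((anLS Y ι).incl _).pullS p q z (c.1 z.1) := by
  classical
  obtain ⟨s, hs, hs'⟩ := T.locMor_section b.cone he
  -- the germs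
  have hex : ∀ y : Ber K (MvPolynomial (Fin r) K), ∃ x : (berLS K (MvPolynomial (Fin r) K)).Stalk p q y,
      ∀ z : An.opn ι (T.U b.cone), T.minCone z.1.pt = b.cone →
        ∀ h : (T.locMor b.cone he).toFun z = y,
          pullE (T.locMor b.cone he) h p q x = ((anLS Y ι).incl _).pullS p q z (c.1 z.1) := by
    intro y
    by_cases hy : ∃ z : An.opn ι (T.U b.cone), T.minCone z.1.pt = b.cone ∧
        (T.locMor b.cone he).toFun z = y
    · obtain ⟨z, hz, rfl⟩ := hy
      obtain ⟨x, hx⟩ := (T.locMor b.cone he).pullS_surjective (p := p) (q := q)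
        (T.locMor_affAt b.cone he z hz) (((anLS Y ι).incl _).pullS p q z (c.1 z.1))
      refine ⟨x, fun z' hz' h => ?_⟩
      have e1 : z' = z := T.locMor_inj b.cone he z' z hz' hz h
      subst e1
      exact hx
    · exact ⟨0, fun z hz h => absurd ⟨z, hz, h⟩ hy⟩
  choose sy hsy using hex
  have hlc := ber_locallyCompact (K := K) (A := MvPolynomial (Fin r) K) inferInstance
  have hcut := ber_cutOff (K := K) (A := MvPolynomial (Fin r) K) inferInstance
  have hO : IsOpen {y : Ber K (MvPolynomial (Fin r) K) | ∀ i, y.v (MvPolynomial.X i) ≠ 0} := by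
    simp only [Set.ofPred_forall]
    exact isOpen_iInter_of_finite fun i => isOpen_ne_fun (Ber.continuous_v _) continuous_const
  obtain ⟨c', hc'⟩ := (berLS K (MvPolynomial (Fin r) K)).extend hcut
    (isCompact_Sb (K := K) (fun i => (tropLS F).lf (e i) b)) sy (by
    intro y0 hy0
    have hy0' : ∀ i, y0.v (MvPolynomial.X i) ≠ 0 := fun i => by
      rw [hy0 i]
      exact (Real.exp_pos _).ne'
    obtain ⟨hz0, hz0'⟩ := hs' ⟨y0, hy0'⟩
    set z0 := s ⟨y0, hy0'⟩ with hz0def
    -- the germ of `c` at `z0`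
    obtain ⟨θ1, hθ1⟩ := c.2 z0.1
    obtain ⟨k1, e1⟩ := hθ1.self_of_nhds
    obtain ⟨x, hx⟩ := (T.locMor b.cone he).pullS_surjective (p := p) (q := q)
        (T.locMor_affAt b.cone he z0 hz0) (((anLS Y ι).incl _).pullS p q z0 (c.1 z0.1))
    obtain ⟨θ, k, rfl⟩ := (berLS K (MvPolynomial (Fin r) K)).exists_germ x
    rw [Mor.pullS_germ, e1] at hx
    have hx2 : ((anLS Y ι).restr (An.opn ι (T.U b.cone))).germ
        (pullR (T.locMor b.cone he).ix θ) ((T.locMor b.cone he).sfat k) =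
        ((anLS Y ι).restr (An.opn ι (T.U b.cone))).germ
          (pullR ((anLS Y ι).incl (An.opn ι (T.U b.cone))).ix θ1)
          (((anLS Y ι).incl (An.opn ι (T.U b.cone))).sfat (z := z0) k1) := hx
    rw [LogSpace.germ_eq_iff] at hx2
    have hvan := hx2.nhds
    -- the neighbourhood
    have hθ1' : ∀ᶠ z in 𝓝 z0, ∃ h : (anLS Y ι).SFat z.1 θ1, c.1 z.1 = (anLS Y ι).germ θ1 h :=
      continuous_subtype_val.continuousAt.eventually hθ1
    have hev := (hs.continuousAt (x := ⟨y0, hy0'⟩)).eventually (hvan.and hθ1')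
    have hev2 : ∀ᶠ y in 𝓝 y0, ∃ h : (∀ i, y.v (MvPolynomial.X i) ≠ 0),
        ((anLS Y ι).restr (An.opn ι (T.U b.cone))).Van (s ⟨y, h⟩)
          (pullR (T.locMor b.cone he).ix θ -
            pullR ((anLS Y ι).incl (An.opn ι (T.U b.cone))).ix θ1) ∧
        ∃ h' : (anLS Y ι).SFat (s ⟨y, h⟩).1 θ1,
          c.1 (s ⟨y, h⟩).1 = (anLS Y ι).germ θ1 h' := by
      rw [← map_nhds_subtype_coe_eq_nhds (p := fun y : Ber K (MvPolynomial (Fin r) K) =>
        ∀ i, y.v (MvPolynomial.X i) ≠ 0) hy0' (hO.mem_nhds hy0'), Filter.eventually_map]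
      exact hev.mono fun y hy => ⟨y.2, hy⟩
    have hk : ∀ᶠ y in 𝓝 y0, (berLS K (MvPolynomial (Fin r) K)).SFat y θ := by
      rw [hz0'] at k
      exact k.nhds
    refine ⟨θ, (hev2.and hk).mono ?_⟩
    rintro y ⟨⟨hyO, hv, h', e'⟩, ky⟩ hyS
    obtain ⟨hz, hzy⟩ := hs' ⟨y, hyO⟩
    refine ⟨ky, ?_⟩
    have hinj := pullE_injective (T.locMor b.cone he) hzy (p := p) (q := q)
      ((T.locMor b.cone he).pullS_injective (T.locMor_affAt b.cone he _ hz)
        (T.locMor_open b.cone he _ hz))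
    apply hinj
    rw [hsy y _ hz hzy, pullE_germ, e']
    symm
    exact (LogSpace.germ_eq_iff _ _ _).2 hv)
  refine ⟨c', fun z hz => ?_⟩
  obtain ⟨hzU, hzc, hzS⟩ := (T.trop_eq_iff he z.1).1 hz
  rw [hc' _ hzS, ← pullE_rfl]
  exact hsy _ z hzc rfl

/-- Conversely. -/
theorem pull (b : TropPt F) {r : ℕ} {e : Fin r → Fin n → ℤ} (he : IsPB b.cone.1 e) {p q : ℕ}
    (c' : (berLS K (MvPolynomial (Fin r) K)).G p q) : ∃ c : (anLS Y ι).G p q,
    ∀ z : An.opn ι (T.U b.cone), T.trop z.1 = b →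
      (T.locMor b.cone he).pullS p q z (c'.1 ((T.locMor b.cone he).toFun z)) =
        ((anLS Y ι).incl _).pullS p q z (c.1 z.1) := by
  classical
  have hW : IsOpen (An.opn ι (T.U b.cone)) := An.isOpen_opn _
  have hex : ∀ z : An Y ι, ∃ x : (anLS Y ι).Stalk p q z, ∀ h : z ∈ An.opn ι (T.U b.cone),
      (T.locMor b.cone he).pullS p q ⟨z, h⟩ (c'.1 ((T.locMor b.cone he).toFun ⟨z, h⟩)) =
        ((anLS Y ι).incl _).pullS p q ⟨z, h⟩ x := by
    intro z
    by_cases h : z ∈ An.opn ι (T.U b.cone)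
    · obtain ⟨x, hx⟩ := ((anLS Y ι).incl_bij (p := p) (q := q) hW ⟨z, h⟩).2
        ((T.locMor b.cone he).pullS p q ⟨z, h⟩ (c'.1 ((T.locMor b.cone he).toFun ⟨z, h⟩)))
      exact ⟨x, fun _ => hx.symm⟩
    · exact ⟨0, fun h' => absurd h' h⟩
  choose sz hsz using hex
  have := T.t2
  have := T.locallyCompact
  obtain ⟨c, hc⟩ := (anLS Y ι).extend T.cutOff (T.isCompact_preimage (isCompact_singleton (x := b)))
    sz (by
    intro z0 hz0
    have hz0' : T.trop z0 = b := hz0
    obtain ⟨hzU, hzc, hzS⟩ := (T.trop_eq_iff he z0).1 hz0'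
    obtain ⟨θ, hθ⟩ := c'.2 ((T.locMor b.cone he).toFun ⟨z0, hzU⟩)
    have hev := ((T.locMor b.cone he).cont.continuousAt (x := ⟨z0, hzU⟩)).eventually hθ
    have hev2 : ∀ᶠ z in 𝓝 z0, ∃ h : z ∈ An.opn ι (T.U b.cone),
        ∃ h' : (berLS K (MvPolynomial (Fin r) K)).SFat ((T.locMor b.cone he).toFun ⟨z, h⟩) θ,
          c'.1 ((T.locMor b.cone he).toFun ⟨z, h⟩) =
            (berLS K (MvPolynomial (Fin r) K)).germ θ h' := by
      rw [← map_nhds_subtype_coe_eq_nhds (p := fun z : An Y ι => z ∈ An.opn ι (T.U b.cone)) hzU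
        (hW.mem_nhds hzU), Filter.eventually_map]
      exact hev.mono fun z hz => ⟨z.2, hz⟩
    refine ⟨pullR (T.locMor b.cone he).ix θ, hev2.mono ?_⟩
    rintro z ⟨h, h', e'⟩ -
    have k : (anLS Y ι).SFat z (pullR (T.locMor b.cone he).ix θ) :=
      (T.locMor b.cone he).sfat h'
    refine ⟨k, ?_⟩
    apply ((anLS Y ι).incl_bij (p := p) (q := q) hW ⟨z, h⟩).1
    rw [← hsz z h, e']
    rfl)
  refine ⟨c, fun z hz => ?_⟩
  rw [hc z.1 hz]
  exact hsz z.1 z.2

end Toric

end Pool.Agent.TD
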