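import Pool.Agent.TD.Y.Map

/-! Block Y: the characters as functions on open subsets (module TD_Y_Glue). -/

open AlgebraicGeometry CategoryTheory

namespace Pool.Agent.TD

namespace Toric

variable {K : Type} [NormedField K] {n : ℕ} {F : Fan n} {Y : Scheme.{0}} {ι : K →+* Γ(Y, ⊤)}
  (T : Toric F Y ι)

/-- The open subset of `Y` on which the character `χ^m` is an invertible function. -/
def Um (m : Fin n → ℤ) : Y.Opens := ⨆ σ : {σ : F.cones // m ∈ perpM σ.1}, T.U σ.1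

theorem U_le_Um {m : Fin n → ℤ} {σ : F.cones} (h : m ∈ perpM σ.1) : T.U σ ≤ T.Um m :=
  le_iSup (fun σ : {σ : F.cones // m ∈ perpM σ.1} => T.U σ.1) ⟨σ, h⟩

/-- The character `χ^m` as a function on `Um m`.  (Gluing in the sheaf of functions: on
`U_σ ∩ U_τ = U_{σ ∩ τ}` the functions `chi σ m` and `chi τ m` agree by `chi_res`.) -/
theorem exists_chiU (m : Fin n → ℤ) : ∃ s : Γ(Y, T.Um m), ∀ (σ : F.cones)
    (h : m ∈ perpM σ.1),
    Y.presheaf.map (homOfLE (T.U_le_Um h)).op s = T.chi σ ⟨m, TropPt.perp_dual h⟩ := by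
  have hc : TopCat.Presheaf.IsCompatible Y.sheaf.1
      (fun σ : {σ : F.cones // m ∈ perpM σ.1} => T.U σ.1)
      (fun σ => T.chi σ.1 ⟨m, TropPt.perp_dual σ.2⟩) := by
    intro σ τ
    have hp : m ∈ perpM (capC σ.1 τ.1).1 := TropPt.perp_sub Set.inter_subset_left σ.2
    have hle : T.U σ.1 ⊓ T.U τ.1 ≤ T.U (capC σ.1 τ.1) := (T.inter σ.1 τ.1 _ rfl).le
    have h1 : T.U (capC σ.1 τ.1) ≤ T.U σ.1 := T.U_mono Set.inter_subset_left
    have h2 : T.U (capC σ.1 τ.1) ≤ T.U τ.1 := T.U_mono Set.inter_subset_right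
    have e1 := T.chi_res σ.1 (capC σ.1 τ.1) h1 ⟨m, TropPt.perp_dual σ.2⟩
      ⟨m, TropPt.perp_dual hp⟩ Set.inter_subset_left rfl
    have e2 := T.chi_res τ.1 (capC σ.1 τ.1) h2 ⟨m, TropPt.perp_dual τ.2⟩
      ⟨m, TropPt.perp_dual hp⟩ Set.inter_subset_right rfl
    have e3 := congrArg (Y.presheaf.map (homOfLE hle).op) (e1.trans e2.symm)
    rw [← ConcreteCategory.comp_apply, ← ConcreteCategory.comp_apply, ← Functor.map_comp,
      ← Functor.map_comp] at e3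
    exact e3
  obtain ⟨s, hs, -⟩ := Y.sheaf.existsUnique_gluing
    (fun σ : {σ : F.cones // m ∈ perpM σ.1} => T.U σ.1) _ hc
  exact ⟨s, fun σ h => hs ⟨σ, h⟩⟩

/-- The character `χ^m` as a function on `Um m`. -/
noncomputable def chiU (m : Fin n → ℤ) : Γ(Y, T.Um m) := (T.exists_chiU m).choose

theorem chiU_res {m : Fin n → ℤ} {σ : F.cones} (h : m ∈ perpM σ.1) :
    Y.presheaf.map (homOfLE (T.U_le_Um h)).op (T.chiU m) = T.chi σ ⟨m, TropPt.perp_dual h⟩ :=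
  (T.exists_chiU m).choose_spec σ h

theorem absv_chiU {m : Fin n → ℤ} {σ : F.cones} (h : m ∈ perpM σ.1) {z : An Y ι}
    (hz : z.pt ∈ T.U σ) :
    An.absv (T.Um m) (T.chiU m) z = An.absv (T.U σ) (T.chi σ ⟨m, TropPt.perp_dual h⟩) z := by
  rw [← T.chiU_res h, An.absv_res _ _ hz]

end Toric

end Pool.Agent.TD
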