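import Pool.Agent.TD.Y.Ring
import Pool.Agent.TD.Y.Open

/-! Block Y: the projection `K[S_σ] → K[σ^⊥]`. -/

open AlgebraicGeometry CategoryTheory

namespace Pool.Agent.TD

namespace An

variable {K : Type} [NormedField K] {X : Scheme.{0}} {ι : K →+* Γ(X, ⊤)}

theorem absv_zero (U : X.Opens) (z : An X ι) : absv U (0 : Γ(X, U)) z = 0 := by
  by_cases h : z.pt ∈ U
  · rw [absv_of_mem _ h, map_zero, z.ker]
    exact not_isUnit_zero
  · unfold absv
    rw [dif_neg h]

theorem absv_neg {U : X.Opens} (f : Γ(X, U)) (z : An X ι) : absv U (-f) z = absv U f z := by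
  by_cases h : z.pt ∈ U
  · have h1 : absv U (-1 : Γ(X, U)) z = 1 := by
      have h2 := absv_mul (-1 : Γ(X, U)) (-1) z
      rw [neg_mul_neg, one_mul, absv_one h] at h2
      have h3 := absv_nonneg U (-1 : Γ(X, U)) z
      nlinarith
    have h2 := absv_mul (-1 : Γ(X, U)) f z
    rw [neg_one_mul, h1, one_mul] at h2
    exact h2
  · unfold absv
    rw [dif_neg h, dif_neg h]

end An

/-- `e` is a basis of `σ^⊥`. -/
structure IsPB {n r : ℕ} (σ : Set (Fin n → ℝ)) (e : Fin r → Fin n → ℤ) : Prop where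
  mem : ∀ i, e i ∈ perpM σ
  uniq : ∀ m ∈ perpM σ, ∃! a : Fin r → ℤ, m = ∑ i, a i • e i

section proj

variable {K : Type} [NormedField K] {n : ℕ}

theorem perp_le_dual (σ : Set (Fin n → ℝ)) : (perpM σ).toAddSubmonoid ≤ dualM σ :=
  fun _ hm => TropPt.perp_dual hm

theorem add_mem_perp {σ : Set (Fin n → ℝ)} {m m' : Fin n → ℤ} (hm : m ∈ dualM σ)
    (hm' : m' ∈ dualM σ) : m + m' ∈ perpM σ ↔ m ∈ perpM σ ∧ m' ∈ perpM σ := by
  constructor
  · intro h
    constructor
    · intro x hx
      have h1 := h x hx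
      rw [pair_add_left] at h1
      have h2 := hm x hx
      have h3 := hm' x hx
      linarith
    · intro x hx
      have h1 := h x hx
      rw [pair_add_left] at h1
      have h2 := hm x hx
      have h3 := hm' x hx
      linarith
  · rintro ⟨h1, h2⟩
    exact (perpM σ).add_mem h1 h2

open Classical in
/-- The monoid homomorphism `S_σ → K[σ^⊥]` which kills the characters outside `σ^⊥`. -/
noncomputable def projM (K : Type) [NormedField K] {n : ℕ} (σ : Set (Fin n → ℝ)) :
    Multiplicative (dualM σ) →* AddMonoidAlgebra K (perpM σ) where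
  toFun m := if h : m.toAdd.1 ∈ perpM σ then AddMonoidAlgebra.single ⟨m.toAdd.1, h⟩ 1 else 0
  map_one' := by
    have h : (Multiplicative.toAdd (1 : Multiplicative (dualM σ))).1 ∈ perpM σ :=
      (perpM σ).zero_mem
    rw [dif_pos h]
    rfl
  map_mul' m m' := by
    by_cases h : m.toAdd.1 ∈ perpM σ ∧ m'.toAdd.1 ∈ perpM σ
    · have h' : (Multiplicative.toAdd (m * m')).1 ∈ perpM σ :=
        (add_mem_perp m.toAdd.2 m'.toAdd.2).2 h
      rw [dif_pos h.1, dif_pos h.2, dif_pos h', AddMonoidAlgebra.single_mul_single, mul_one]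
      rfl
    · have h' : ¬ (Multiplicative.toAdd (m * m')).1 ∈ perpM σ := fun h' =>
        h ((add_mem_perp m.toAdd.2 m'.toAdd.2).1 h')
      rw [dif_neg h']
      by_cases h1 : m.toAdd.1 ∈ perpM σ
      · rw [dif_neg fun h2 => h ⟨h1, h2⟩, mul_zero]
      · rw [dif_neg h1, zero_mul]

/-- The projection `K[S_σ] → K[σ^⊥]`. -/
noncomputable def projH (K : Type) [NormedField K] {n : ℕ} (σ : Set (Fin n → ℝ)) :
    AddMonoidAlgebra K (dualM σ) →ₐ[K] AddMonoidAlgebra K (perpM σ) :=
  AddMonoidAlgebra.lift K _ _ (projM K σ)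

/-- The inclusion `K[σ^⊥] → K[S_σ]`. -/
noncomputable def incH (K : Type) [NormedField K] {n : ℕ} (σ : Set (Fin n → ℝ)) :
    AddMonoidAlgebra K (perpM σ) →ₐ[K] AddMonoidAlgebra K (dualM σ) :=
  AddMonoidAlgebra.mapDomainAlgHom K K
    ({ toFun := fun m => ⟨m.1, TropPt.perp_dual m.2⟩
       map_zero' := rfl
       map_add' := fun _ _ => rfl } : perpM σ →+ dualM σ)

theorem projH_single (σ : Set (Fin n → ℝ)) (m : dualM σ) (c : K) (h : m.1 ∈ perpM σ) :
    projH K σ (AddMonoidAlgebra.single m c) = AddMonoidAlgebra.single ⟨m.1, h⟩ c := by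
  classical
  rw [projH, AddMonoidAlgebra.lift_single]
  show c • (if h : m.1 ∈ perpM σ then
    (AddMonoidAlgebra.single ⟨m.1, h⟩ 1 : AddMonoidAlgebra K (perpM σ)) else 0) = _
  rw [dif_pos h, AddMonoidAlgebra.smul_single, smul_eq_mul, mul_one]

theorem projH_single_zero (σ : Set (Fin n → ℝ)) (m : dualM σ) (c : K) (h : m.1 ∉ perpM σ) :
    projH K σ (AddMonoidAlgebra.single m c) = 0 := by
  classical
  rw [projH, AddMonoidAlgebra.lift_single]
  show c • (if h : m.1 ∈ perpM σ then
    (AddMonoidAlgebra.single ⟨m.1, h⟩ 1 : AddMonoidAlgebra K (perpM σ)) else 0) = _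
  rw [dif_neg h, smul_zero]

theorem incH_single (σ : Set (Fin n → ℝ)) (m : perpM σ) (c : K) :
    incH K σ (AddMonoidAlgebra.single m c) =
      AddMonoidAlgebra.single ⟨m.1, TropPt.perp_dual m.2⟩ c := by
  unfold incH
  simp

theorem projH_incH (σ : Set (Fin n → ℝ)) (a : AddMonoidAlgebra K (perpM σ)) :
    projH K σ (incH K σ a) = a := by
  have h : (projH K σ).comp (incH K σ) = AlgHom.id K _ := by
    apply AddMonoidAlgebra.algHom_ext
    · intro m
      rw [AlgHom.comp_apply, incH_single, projH_single _ _ _ m.2]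
      rfl
    · exact Subsingleton.elim _ _
  exact congrArg (fun f => f a) h

/-- The homomorphism `K[T_1, ..., T_r] → K[σ^⊥]`, `T_i ↦ χ^{e_i}`. -/
noncomputable def polyH (K : Type) [NormedField K] {n r : ℕ} {σ : Set (Fin n → ℝ)}
    {e : Fin r → Fin n → ℤ} (he : IsPB σ e) :
    MvPolynomial (Fin r) K →ₐ[K] AddMonoidAlgebra K (perpM σ) :=
  MvPolynomial.aeval fun i => AddMonoidAlgebra.single ⟨e i, he.mem i⟩ 1

end proj

namespace Toric

variable {K : Type} [NormedField K] {n : ℕ} {F : Fan n} {Y : Scheme.{0}} {ι : K →+* Γ(Y, ⊤)}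
  (T : Toric F Y ι)

/-- At a point of the orbit of `σ`, a function has the same absolute value as its projection. -/
theorem absv_incH_projH (σ : F.cones) (a : AddMonoidAlgebra K (dualM σ.1)) {z : An Y ι}
    (hz : T.minCone z.pt = σ) : An.absv (T.U σ) (T.evHom σ a) z =
      An.absv (T.U σ) (T.evHom σ (incH K σ.1 (projH K σ.1 a))) z := by
  have hzU : z.pt ∈ T.U σ := T.mem_U_iff.2 (by rw [hz])
  have h0 : An.absv (T.U σ) (0 : Γ(Y, T.U σ)) z = 0 := An.absv_zero _ _
  have h1 : ∀ a : AddMonoidAlgebra K (dualM σ.1),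
      An.absv (T.U σ) (T.evHom σ (a - incH K σ.1 (projH K σ.1 a))) z = 0 := by
    intro a
    induction a using AddMonoidAlgebra.induction_linear with
    | zero => rw [map_zero, map_zero, sub_zero, map_zero, h0]
    | add a b ha hb =>
      have e : a + b - incH K σ.1 (projH K σ.1 (a + b)) =
          (a - incH K σ.1 (projH K σ.1 a)) + (b - incH K σ.1 (projH K σ.1 b)) := by
        rw [map_add, map_add]
        ring
      rw [e, map_add]
      refine le_antisymm ((An.absv_add _ _ _).trans ?_) (An.absv_nonneg _ _ _)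
      rw [ha, hb, max_self]
    | single m c =>
      by_cases hm : m.1 ∈ perpM σ.1
      · rw [projH_single _ _ _ hm, incH_single, sub_self, map_zero, h0]
      · rw [projH_single_zero _ _ _ hm, map_zero, sub_zero, evHom_single, An.absv_mul,
          T.absv_chi_eq_zero hzU (by rw [hz]; exact hm), mul_zero]
  set b := incH K σ.1 (projH K σ.1 a) with hb
  have h2 : T.evHom σ a = T.evHom σ b + T.evHom σ (a - b) := by
    rw [← map_add]
    congr 1
    ring
  have h3 : T.evHom σ b = T.evHom σ a + -T.evHom σ (a - b) := by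
    rw [map_sub]
    ring
  apply le_antisymm
  · rw [h2]
    refine (An.absv_add _ _ _).trans ?_
    rw [h1 a, max_eq_left (An.absv_nonneg _ _ _)]
  · rw [h3]
    refine (An.absv_add _ _ _).trans ?_
    rw [An.absv_neg, h1 a, max_eq_left (An.absv_nonneg _ _ _)]

end Toric

end Pool.Agent.TD
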