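import Pool.Agent.TD.Y.AnTop
import Pool.Agent.TD.Y.TropLoc
import Pool.Agent.TD.Y.Loc0

/-! Block Y: the local comparison of `Y^an` with the Berkovich affine space. -/

open scoped ContDiff Topology
open AlgebraicGeometry CategoryTheory

namespace Pool.Agent.TD

/-- The torus `|T_i| = exp b_i` in the Berkovich affine space. -/
def Sb {K : Type} [NormedField K] {r : ℕ} (b : Fin r → ℝ) : Set (Ber K (MvPolynomial (Fin r) K)) :=
  {y | ∀ i, y.v (MvPolynomial.X i) = Real.exp (b i)}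

namespace Toric

variable {K : Type} [NormedField K] {n : ℕ} {F : Fan n} {Y : Scheme.{0}} {ι : K →+* Γ(Y, ⊤)}
  (T : Toric F Y ι)

/-- The characters `χ^{e_i}` as functions on `U_σ`. -/
noncomputable def evPoly (σ : F.cones) {r : ℕ} {e : Fin r → Fin n → ℤ}
    (he : IsPB σ.1 e) : MvPolynomial (Fin r) K →+* Γ(Y, T.U σ) :=
  MvPolynomial.eval₂Hom (stK ι (T.U σ)) (fun i => T.chi σ ⟨e i, TropPt.perp_dual (he.mem i)⟩)

/-- The morphism `U_σ^an → M(K[T_1, ..., T_r])` given by the characters of a basis of `σ^⊥`. -/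
noncomputable def locMor (σ : F.cones) {r : ℕ} {e : Fin r → Fin n → ℤ} (he : IsPB σ.1 e) :
    Mor ((anLS Y ι).restr (An.opn ι (T.U σ))) (berLS K (MvPolynomial (Fin r) K)) where
  toFun := An.toBer (T.evPoly σ he) (by
    intro c
    show MvPolynomial.eval₂Hom _ _ (MvPolynomial.C c) = _
    rw [MvPolynomial.coe_eval₂Hom, MvPolynomial.eval₂_C])
  cont := An.toBer_continuous _ _
  ix f := ⟨T.U σ, T.evPoly σ he f⟩
  dom_sub f z h := ⟨z.2, h⟩
  lf_eq f z h := rfl

theorem locMor_v (σ : F.cones) {r : ℕ} {e : Fin r → Fin n → ℤ} (he : IsPB σ.1 e)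
    (z : An.opn ι (T.U σ)) (f : MvPolynomial (Fin r) K) :
    ((T.locMor σ he).toFun z).v f = An.absv (T.U σ) (T.evPoly σ he f) z.1 := rfl

theorem locMor_X_ne_zero (σ : F.cones) {r : ℕ} {e : Fin r → Fin n → ℤ} (he : IsPB σ.1 e)
    (z : An.opn ι (T.U σ)) (i : Fin r) :
    ((T.locMor σ he).toFun z).v (MvPolynomial.X i) ≠ 0 := by
  rw [T.locMor_v]
  have e1 : T.evPoly σ he (MvPolynomial.X i) = T.chi σ ⟨e i, TropPt.perp_dual (he.mem i)⟩ :=
    MvPolynomial.eval₂_X _ _ _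
  rw [e1]
  exact T.absv_chi_ne_zero (he.mem i) z.2

end Toric

end Pool.Agent.TD
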