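import Pool.Agent.TD.Y.LocP
import Pool.Agent.TD.Y.LocBer

/-! Block Y: the comparison morphism is a homeomorphism on the orbit (module TD_Y_L2). -/

open scoped ContDiff Topology
open AlgebraicGeometry CategoryTheory

namespace Pool.Agent.TD

namespace Loc2

variable {K : Type} [NormedField K] {n r : ℕ} {σ : Set (Fin n → ℝ)} {e : Fin r → Fin n → ℤ}

/-- The points of `M(K[T])` outside the coordinate hyperplanes. -/
abbrev Tor (K : Type) [NormedField K] (r : ℕ) : Type :=
  {y : Ber K (MvPolynomial (Fin r) K) // ∀ i, y.v (MvPolynomial.X i) ≠ 0}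

theorem exists_ext (he : IsPB σ e) (y : Tor K r) :
    ∃ w : MSN (AddMonoidAlgebra K (perpM σ)), ∀ f, w.v (polyH K he f) = y.1.v f := by
  letI := (polyH K he).toRingHom.toAlgebra
  haveI : IsLocalization (varM K r) (AddMonoidAlgebra K (perpM σ)) := polyH_loc he
  exact MSN.exists_loc (B := AddMonoidAlgebra K (perpM σ)) (varM K r)
    { v := y.1.v
      nonneg := y.1.nonneg
      one := y.1.one
      mul := y.1.mul
      add := y.1.add } (fun g hg => varM_ne_zero y.2 hg)

theorem ext_unique (he : IsPB σ e) (w w' : MSN (AddMonoidAlgebra K (perpM σ)))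
    (h : ∀ f, w.v (polyH K he f) = w'.v (polyH K he f)) : ∀ b, w.v b = w'.v b := by
  letI := (polyH K he).toRingHom.toAlgebra
  haveI : IsLocalization (varM K r) (AddMonoidAlgebra K (perpM σ)) := polyH_loc he
  exact MSN.loc_unique (varM K r) w w' h

/-- The extension to the Laurent polynomials. -/
noncomputable def ext (he : IsPB σ e) (y : Tor K r) : MSN (AddMonoidAlgebra K (perpM σ)) :=
  (exists_ext he y).choose

theorem ext_v (he : IsPB σ e) (y : Tor K r) (f : MvPolynomial (Fin r) K) :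
    (ext he y).v (polyH K he f) = y.1.v f := (exists_ext he y).choose_spec f

theorem continuous_ext (he : IsPB σ e) (a : AddMonoidAlgebra K (perpM σ)) :
    Continuous fun y : Tor K r => (ext he y).v a := by
  obtain ⟨f, g, hg, h⟩ := exists_poly he a
  have h1 : ∀ y : Tor K r, (ext he y).v a = y.1.v f / y.1.v g := by
    intro y
    have h2 := congrArg (ext he y).v h
    rw [(ext he y).mul, ext_v, ext_v] at h2
    rw [eq_div_iff (varM_ne_zero y.2 hg), mul_comm]
    exact h2
  simp only [h1]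
  exact ((Ber.continuous_v f).comp continuous_subtype_val).div
    ((Ber.continuous_v g).comp continuous_subtype_val) (fun y => varM_ne_zero y.2 hg)

/-- The point of `M(K[S_σ])`. -/
noncomputable def bpt (he : IsPB σ e) (y : Tor K r) :
    Ber K (AddMonoidAlgebra K (dualM σ)) where
  v a := (ext he y).v (projH K σ a)
  nonneg a := (ext he y).nonneg _
  one := by rw [map_one, (ext he y).one]
  mul a b := by rw [map_mul, (ext he y).mul]
  add a b := by rw [map_add]; exact (ext he y).add _ _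
  ext c := by
    rw [AlgHom.commutes, ← AlgHom.commutes (polyH K he), ext_v]
    exact y.1.ext c

theorem continuous_bpt (he : IsPB σ e) : Continuous (bpt (K := K) he) := by
  rw [Ber.continuous_iff]
  exact fun a => continuous_ext he _

end Loc2

namespace Toric

variable {K : Type} [NormedField K] {n : ℕ} {F : Fan n} {Y : Scheme.{0}} {ι : K →+* Γ(Y, ⊤)}
  (T : Toric F Y ι)

theorem chart_v (σ : F.cones) (z : An.opn ι (T.U σ)) (a : AddMonoidAlgebra K (dualM σ.1)) :
    (T.chart σ z).v a = An.absv (T.U σ) (T.evHom σ a) z.1 := rfl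

/-- The orbit of `σ`: the seminorm `g ↦ |g_0|_y` on `K[S_σ]`,
`g_0 = ∑_{m ∈ σ^⊥} a_m χ^m`, for `y` in `M(K[T])` with `|T_i|_y ≠ 0` for all `i`. -/
theorem locMor_section (σ : F.cones) {r : ℕ} {e : Fin r → Fin n → ℤ} (he : IsPB σ.1 e) :
    ∃ s : {y : Ber K (MvPolynomial (Fin r) K) // ∀ i, y.v (MvPolynomial.X i) ≠ 0} →
      An.opn ι (T.U σ), Continuous s ∧ ∀ y, T.minCone (s y).1.pt = σ ∧
        (T.locMor σ he).toFun (s y) = y.1 := by
  let Φ := (T.chart_homeo σ).homeomorph
  have hΦ : ∀ z, Φ z = T.chart σ z := fun z => rfl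
  refine ⟨fun y => Φ.symm (Loc2.bpt he y), Φ.symm.continuous.comp (Loc2.continuous_bpt he), ?_⟩
  intro y
  have hs : ∀ a : AddMonoidAlgebra K (dualM σ.1),
      An.absv (T.U σ) (T.evHom σ a) (Φ.symm (Loc2.bpt he y)).1 =
        (Loc2.ext he y).v (projH K σ.1 a) := by
    intro a
    rw [← T.chart_v, ← hΦ, Φ.apply_symm_apply]
    rfl
  show T.minCone (Φ.symm (Loc2.bpt he y)).1.pt = σ ∧
    (T.locMor σ he).toFun (Φ.symm (Loc2.bpt he y)) = y.1
  generalize Φ.symm (Loc2.bpt he y) = z at hs ⊢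
  constructor
  · have hsub : (T.minCone z.1.pt).1 ⊆ σ.1 := T.minCone_le z.2
    apply Subtype.ext
    refine Set.Subset.antisymm hsub ?_
    obtain ⟨m, hm, hτ⟩ := F.face_of_sub hsub
    have hmp : m ∈ perpM (T.minCone z.1.pt).1 := by
      intro x hx
      rw [hτ] at hx
      exact hx.2
    have h1 := T.absv_trop_perp (z := z.1) (σ := σ) z.2 (m := ⟨m, hm⟩) hmp
    have h2 : TropPt.absv m (T.trop z.1) ≠ 0 := by
      unfold TropPt.absv
      rw [dif_pos (show m ∈ perpM (T.trop z.1).cone.1 from hmp)]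
      exact (Real.exp_pos _).ne'
    have h3 := hs (AddMonoidAlgebra.single ⟨m, hm⟩ 1)
    rw [evHom_single, map_one, one_mul, ← h1] at h3
    have h4 : m ∈ perpM σ.1 := by
      by_contra h4
      rw [projH_single_zero _ _ _ h4] at h3
      apply h2
      refine h3.trans ?_
      have h5 := Loc2.ext_v he y 0
      rw [map_zero, y.1.zero] at h5
      exact h5
    intro x hx
    rw [hτ]
    exact ⟨hx, h4 x hx⟩
  · apply Ber.ext_v
    intro f
    rw [T.locMor_v, T.evPoly_eq, hs, projH_incH, Loc2.ext_v]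

theorem locMor_inj (σ : F.cones) {r : ℕ} {e : Fin r → Fin n → ℤ} (he : IsPB σ.1 e)
    (z z' : An.opn ι (T.U σ)) (hz : T.minCone z.1.pt = σ) (hz' : T.minCone z'.1.pt = σ)
    (h : (T.locMor σ he).toFun z = (T.locMor σ he).toFun z') : z = z' := by
  let w : An.opn ι (T.U σ) → MSN (AddMonoidAlgebra K (perpM σ.1)) := fun z =>
    { v := fun b => An.absv (T.U σ) (T.evHom σ (incH K σ.1 b)) z.1
      nonneg := fun b => An.absv_nonneg _ _ _
      one := by rw [map_one, map_one, An.absv_one z.2]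
      mul := fun a b => by rw [map_mul, map_mul, An.absv_mul]
      add := fun a b => by rw [map_add, map_add]; exact An.absv_add _ _ _ }
  have hw : ∀ b, (w z).v b = (w z').v b := by
    refine Loc2.ext_unique he _ _ fun f => ?_
    show An.absv (T.U σ) (T.evHom σ (incH K σ.1 (polyH K he f))) z.1 =
      An.absv (T.U σ) (T.evHom σ (incH K σ.1 (polyH K he f))) z'.1
    rw [← T.evPoly_eq, ← T.locMor_v, ← T.locMor_v, h]
  apply (T.chart_homeo σ).injective
  apply Ber.ext_v
  intro a
  rw [T.chart_v, T.chart_v, T.absv_incH_projH σ a hz, T.absv_incH_projH σ a hz']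
  exact hw _

theorem locMor_open (σ : F.cones) {r : ℕ} {e : Fin r → Fin n → ℤ} (he : IsPB σ.1 e)
    (z : An.opn ι (T.U σ)) (hz : T.minCone z.1.pt = σ) :
    ∀ V ∈ 𝓝 z, (T.locMor σ he).toFun '' V ∈ 𝓝 ((T.locMor σ he).toFun z) := by
  intro V hV
  obtain ⟨s, hs, hs'⟩ := T.locMor_section σ he
  have ho : IsOpen {y : Ber K (MvPolynomial (Fin r) K) | ∀ i, y.v (MvPolynomial.X i) ≠ 0} := by
    simp only [Set.setOf_forall]
    exact isOpen_iInter_of_finite fun i => isOpen_ne_fun (Ber.continuous_v _) continuous_const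
  let y : {y : Ber K (MvPolynomial (Fin r) K) // ∀ i, y.v (MvPolynomial.X i) ≠ 0} :=
    ⟨(T.locMor σ he).toFun z, T.locMor_X_ne_zero σ he z⟩
  have hy : s y = z := T.locMor_inj σ he _ _ (hs' y).1 hz (hs' y).2
  have h1 : s ⁻¹' V ∈ 𝓝 y := hs.continuousAt.preimage_mem_nhds (by rw [hy]; exact hV)
  have h2 : Subtype.val '' (s ⁻¹' V) ∈ 𝓝 y.1 := by
    rw [← map_nhds_subtype_coe_eq_nhds y.2 (ho.mem_nhds y.2)]
    exact Filter.image_mem_map h1
  refine Filter.mem_of_superset h2 ?_
  rintro _ ⟨y', hy', rfl⟩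
  exact ⟨s y', hy', (hs' y').2⟩

end Toric

end Pool.Agent.TD
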