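import Pool.Agent.TD.Y.Loc1
import Pool.Agent.TD.Y.Loc2

/-! Block Y: the fibres of the tropicalization map (module TD_Y_L3). -/

open scoped ContDiff Topology
open AlgebraicGeometry CategoryTheory

namespace Pool.Agent.TD

/-- Two points of the same stratum which agree at the characters of a basis are equal. -/
theorem TropPt.ext_basis {n : ℕ} {F : Fan n} {b b' : TropPt F} (h : b'.cone = b.cone) {r : ℕ}
    {e : Fin r → Fin n → ℤ} (he : IsPB b.cone.1 e)
    (hv : ∀ i, TropPt.absv (e i) b' = TropPt.absv (e i) b) : b' = b := by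
  obtain ⟨σ, v⟩ := b
  obtain ⟨σ', v'⟩ := b'
  have h' : σ' = σ := h
  subst h'
  have he' : IsPB σ'.1 e := he
  have hv' : ∀ i, v' ⟨e i, he'.mem i⟩ = v ⟨e i, he'.mem i⟩ := by
    intro i
    have h1 := hv i
    unfold TropPt.absv at h1
    have h2 : e i ∈ perpM σ'.1 := he'.mem i
    rw [dif_pos h2, dif_pos h2] at h1
    exact Real.exp_injective h1
  have h3 : v' = v := by
    apply AddMonoidHom.ext
    intro m
    obtain ⟨a, ha, -⟩ := he'.uniq m.1 m.2
    have h4 : m = ∑ i, a i • (⟨e i, he'.mem i⟩ : perpM σ'.1) := by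
      apply Subtype.ext
      rw [ha]
      simp
    rw [h4, map_sum, map_sum]
    refine Finset.sum_congr rfl fun i _ => ?_
    rw [map_zsmul, map_zsmul, hv']
  rw [h3]

namespace Toric

variable {K : Type} [NormedField K] {n : ℕ} {F : Fan n} {Y : Scheme.{0}} {ι : K →+* Γ(Y, ⊤)}
  (T : Toric F Y ι)

/-- The fibre of the tropicalization over `b` corresponds to the torus `Sb`. -/
theorem trop_eq_iff {b : TropPt F} {r : ℕ} {e : Fin r → Fin n → ℤ} (he : IsPB b.cone.1 e)
    (z : An Y ι) : T.trop z = b ↔ ∃ hz : z.pt ∈ T.U b.cone, T.minCone z.pt = b.cone ∧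
      (T.locMor b.cone he).toFun ⟨z, hz⟩ ∈ Sb (K := K) (fun i => (tropLS F).lf (e i) b) := by
  have key : ∀ (hz : z.pt ∈ T.U b.cone) (i : Fin r),
      ((T.locMor b.cone he).toFun ⟨z, hz⟩).v (MvPolynomial.X i) =
        TropPt.absv (e i) (T.trop z) := by
    intro hz i
    rw [T.locMor_v]
    have e1 : T.evPoly b.cone he (MvPolynomial.X i) =
        T.chi b.cone ⟨e i, TropPt.perp_dual (he.mem i)⟩ := MvPolynomial.eval₂_X _ _ _
    rw [e1]
    exact (T.absv_trop hz ⟨e i, TropPt.perp_dual (he.mem i)⟩).symm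
  have key2 : ∀ i, Real.exp ((tropLS F).lf (e i) b) = TropPt.absv (e i) b := by
    intro i
    show Real.exp (Real.log (TropPt.absv (e i) b)) = TropPt.absv (e i) b
    apply Real.exp_log
    unfold TropPt.absv
    rw [dif_pos (he.mem i)]
    exact Real.exp_pos _
  constructor
  · intro h
    have hz : z.pt ∈ T.U b.cone := by
      rw [T.mem_U_iff, ← h]
      exact Set.Subset.refl _
    refine ⟨hz, ?_, ?_⟩
    · rw [← h]
      rfl
    · intro i
      rw [key hz i, key2 i, h]
  · rintro ⟨hz, h1, h2⟩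
    refine TropPt.ext_basis h1 he fun i => ?_
    rw [← key hz i, ← key2 i]
    exact h2 i

end Toric

end Pool.Agent.TD
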