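import Pool.Agent.TD.Y.Loc

/-! Block Y: `K[σ^⊥]` is the ring of Laurent polynomials (module TD_Y_LP). -/

open scoped ContDiff Topology
open AlgebraicGeometry CategoryTheory

namespace Pool.Agent.TD

section poly

variable {K : Type} [NormedField K] {n r : ℕ} {σ : Set (Fin n → ℝ)} {e : Fin r → Fin n → ℤ}

/-- The multiplicative set generated by the variables. -/
noncomputable def varM (K : Type) [NormedField K] (r : ℕ) : Submonoid (MvPolynomial (Fin r) K) :=
  Submonoid.closure (Set.range MvPolynomial.X)

namespace LocP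

/-- The character of a monomial. -/
def mon (he : IsPB σ e) (m : Fin r →₀ ℕ) : perpM σ := ∑ i, m i • (⟨e i, he.mem i⟩ : perpM σ)

theorem mon_val (he : IsPB σ e) (m : Fin r →₀ ℕ) :
    (mon he m).1 = ∑ i, (m i : ℤ) • e i := by
  unfold mon
  rw [AddSubgroup.val_finsetSum]
  refine Finset.sum_congr rfl fun i _ => ?_
  rw [natCast_zsmul]
  rfl

theorem mon_inj (he : IsPB σ e) : Function.Injective (mon he) := by
  intro m m' h
  have h1 := congrArg Subtype.val h
  rw [mon_val] at h1
  obtain ⟨a, -, ha⟩ := he.uniq _ (mon he m').2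
  have h2 := ha (fun i => (m i : ℤ)) h1.symm
  have h3 := ha (fun i => (m' i : ℤ)) (mon_val he m')
  ext i
  have h4 := congrFun (h2.trans h3.symm) i
  exact_mod_cast h4

theorem prod_single (he : IsPB σ e) (m : Fin r → ℕ) (s : Finset (Fin r)) :
    ∏ i ∈ s, (AddMonoidAlgebra.single (⟨e i, he.mem i⟩ : perpM σ) (1 : K)) ^ m i =
      AddMonoidAlgebra.single (∑ i ∈ s, m i • (⟨e i, he.mem i⟩ : perpM σ)) 1 := by
  classical
  induction s using Finset.induction_on with
  | empty =>
    rw [Finset.prod_empty, Finset.sum_empty]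
    rfl
  | insert i s hi ih =>
    rw [Finset.prod_insert hi, ih, Finset.sum_insert hi, AddMonoidAlgebra.single_pow,
      AddMonoidAlgebra.single_mul_single]
    simp

theorem polyH_monomial (he : IsPB σ e) (m : Fin r →₀ ℕ) (c : K) :
    polyH K he (MvPolynomial.monomial m c) = AddMonoidAlgebra.single (mon he m) c := by
  unfold polyH
  rw [MvPolynomial.aeval_monomial, Finsupp.prod_fintype _ _ (fun i => pow_zero _),
    prod_single he m Finset.univ, AddMonoidAlgebra.coe_algebraMap]
  show AddMonoidAlgebra.single 0 c * AddMonoidAlgebra.single _ 1 = _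
  rw [AddMonoidAlgebra.single_mul_single, zero_add, mul_one]
  rfl

theorem coeff_polyH (he : IsPB σ e) (f : MvPolynomial (Fin r) K) (m : Fin r →₀ ℕ) :
    (polyH K he f).coeff (mon he m) = f.coeff m := by
  classical
  have h1 : polyH K he f =
      ∑ m ∈ f.support, AddMonoidAlgebra.single (mon he m) (f.coeff m) := by
    conv_lhs => rw [f.as_sum, map_sum]
    exact Finset.sum_congr rfl fun m _ => polyH_monomial he m _
  rw [h1, AddMonoidAlgebra.coeff_sum, Finsupp.finsetSum_apply]
  simp only [AddMonoidAlgebra.coeff_single, Finsupp.single_apply, (mon_inj he).eq_iff]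
  rw [Finset.sum_ite_eq' f.support m]
  split_ifs with h
  · rfl
  · exact (MvPolynomial.notMem_support_iff.1 h).symm

theorem polyH_inj (he : IsPB σ e) : Function.Injective (polyH K he) := by
  intro f g h
  ext m
  rw [← coeff_polyH he, h, coeff_polyH he]

theorem X_mem (i : Fin r) : (MvPolynomial.X i : MvPolynomial (Fin r) K) ∈ varM K r :=
  Submonoid.subset_closure ⟨i, rfl⟩

theorem monomial_mem (m : Fin r →₀ ℕ) : MvPolynomial.monomial m (1 : K) ∈ varM K r := by
  rw [MvPolynomial.monomial_eq, map_one, one_mul, Finsupp.prod_fintype _ _ (fun i => pow_zero _)]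
  exact Submonoid.prod_mem _ fun i _ => Submonoid.pow_mem _ (X_mem i) _

theorem exists_poly_aux (he : IsPB σ e) (a : AddMonoidAlgebra K (perpM σ)) :
    ∃ f : MvPolynomial (Fin r) K, ∃ g ∈ varM K r, polyH K he g * a = polyH K he f := by
  induction a using AddMonoidAlgebra.induction_linear with
  | zero => exact ⟨0, 1, Submonoid.one_mem _, by rw [mul_zero, map_zero]⟩
  | add a b ha hb =>
    obtain ⟨f, g, hg, h⟩ := ha
    obtain ⟨f', g', hg', h'⟩ := hb
    refine ⟨g' * f + g * f', g * g', Submonoid.mul_mem _ hg hg', ?_⟩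
    rw [map_add, map_mul, map_mul, map_mul, ← h, ← h']
    ring
  | single m c =>
    obtain ⟨a, ha, -⟩ := he.uniq m.1 m.2
    refine ⟨MvPolynomial.monomial (Finsupp.equivFunOnFinite.symm fun i => (a i).toNat) c,
      MvPolynomial.monomial (Finsupp.equivFunOnFinite.symm fun i => (-a i).toNat) 1,
      monomial_mem _, ?_⟩
    rw [polyH_monomial, polyH_monomial, AddMonoidAlgebra.single_mul_single, one_mul]
    congr 1
    apply Subtype.ext
    rw [AddSubgroup.coe_add, mon_val, mon_val]
    conv_lhs => rw [ha]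
    rw [← Finset.sum_add_distrib]
    refine Finset.sum_congr rfl fun i _ => ?_
    rw [← add_smul]
    congr 1
    show ((-a i).toNat : ℤ) + a i = ((a i).toNat : ℤ)
    omega

theorem isUnit_polyH (he : IsPB σ e) {g : MvPolynomial (Fin r) K} (hg : g ∈ varM K r) :
    IsUnit (polyH K he g) := by
  induction hg using Submonoid.closure_induction with
  | mem x h =>
    obtain ⟨i, rfl⟩ := h
    have h1 : polyH K he (MvPolynomial.X i) =
        AddMonoidAlgebra.single ⟨e i, he.mem i⟩ 1 := by
      unfold polyH
      rw [MvPolynomial.aeval_X]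
    rw [h1]
    refine IsUnit.of_mul_eq_one
      (AddMonoidAlgebra.single (-⟨e i, he.mem i⟩ : perpM σ) (1 : K)) ?_
    rw [AddMonoidAlgebra.single_mul_single, add_neg_cancel, mul_one]
    rfl
  | one => rw [map_one]; exact isUnit_one
  | mul x y _ _ hx hy => rw [map_mul]; exact hx.mul hy

end LocP

/-- `K[σ^⊥]` is the localization of `K[T_1, ..., T_r]` at the variables. -/
theorem polyH_loc (he : IsPB σ e) :
    letI := (polyH K he).toRingHom.toAlgebra
    IsLocalization (varM K r) (AddMonoidAlgebra K (perpM σ)) := by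
  letI := (polyH K he).toRingHom.toAlgebra
  have hal : ∀ f : MvPolynomial (Fin r) K,
      algebraMap (MvPolynomial (Fin r) K) (AddMonoidAlgebra K (perpM σ)) f = polyH K he f :=
    fun f => rfl
  refine ⟨?_, ?_, ?_⟩
  · intro y
    rw [hal]
    exact LocP.isUnit_polyH he y.2
  · intro z
    obtain ⟨f, g, hg, h⟩ := LocP.exists_poly_aux he z
    refine ⟨⟨f, ⟨g, hg⟩⟩, ?_⟩
    show z * algebraMap _ _ g = algebraMap _ _ f
    rw [hal, hal, mul_comm, h]
  · intro x y h
    rw [hal, hal] at h
    exact ⟨1, by rw [LocP.polyH_inj he h]⟩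

/-- Every element of `K[σ^⊥]` is a polynomial in the `χ^{e_i}` divided by a monomial. -/
theorem exists_poly (he : IsPB σ e) (a : AddMonoidAlgebra K (perpM σ)) :
    ∃ f : MvPolynomial (Fin r) K, ∃ g ∈ varM K r, polyH K he g * a = polyH K he f :=
  LocP.exists_poly_aux he a

/-- A point of `M(K[T])` with `|T_i| ≠ 0` does not vanish on monomials. -/
theorem varM_ne_zero {y : Ber K (MvPolynomial (Fin r) K)}
    (hy : ∀ i, y.v (MvPolynomial.X i) ≠ 0) {g : MvPolynomial (Fin r) K} (hg : g ∈ varM K r) :
    y.v g ≠ 0 := by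
  induction hg using Submonoid.closure_induction with
  | mem x h =>
    obtain ⟨i, rfl⟩ := h
    exact hy i
  | one => rw [y.one]; exact one_ne_zero
  | mul x z _ _ hx hz => rw [y.mul]; exact mul_ne_zero hx hz

end poly

namespace Toric

variable {K : Type} [NormedField K] {n : ℕ} {F : Fan n} {Y : Scheme.{0}} {ι : K →+* Γ(Y, ⊤)}
  (T : Toric F Y ι)

/-- `evPoly` is the evaluation of the polynomial in the characters. -/
theorem evPoly_eq (σ : F.cones) {r : ℕ} {e : Fin r → Fin n → ℤ} (he : IsPB σ.1 e)
    (f : MvPolynomial (Fin r) K) :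
    T.evPoly σ he f = T.evHom σ (incH K σ.1 (polyH K he f)) := by
  have h : T.evPoly σ he =
      (T.evHom σ).comp ((incH K σ.1).toRingHom.comp (polyH K he).toRingHom) := by
    apply MvPolynomial.ringHom_ext
    · intro c
      have h1 : T.evPoly σ he (MvPolynomial.C c) = stK ι (T.U σ) c := by
        unfold evPoly
        rw [MvPolynomial.coe_eval₂Hom, MvPolynomial.eval₂_C]
      have h2 : polyH K he (MvPolynomial.C c) = AddMonoidAlgebra.single 0 c := by
        have h3 : (MvPolynomial.C c : MvPolynomial (Fin r) K) = algebraMap K _ c := rfl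
        rw [h3, AlgHom.commutes]
        rfl
      have h4 : incH K σ.1 (AddMonoidAlgebra.single 0 c) = AddMonoidAlgebra.single 0 c := by
        rw [incH_single]
        rfl
      show T.evPoly σ he (MvPolynomial.C c) =
        T.evHom σ (incH K σ.1 (polyH K he (MvPolynomial.C c)))
      rw [h1, h2, h4, T.evHom_single, T.chi_zero, mul_one]
    · intro i
      have h1 : T.evPoly σ he (MvPolynomial.X i) =
          T.chi σ ⟨e i, TropPt.perp_dual (he.mem i)⟩ := by
        unfold evPoly
        rw [MvPolynomial.coe_eval₂Hom, MvPolynomial.eval₂_X]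
      have h2 : polyH K he (MvPolynomial.X i) =
          AddMonoidAlgebra.single ⟨e i, he.mem i⟩ 1 := by
        unfold polyH
        rw [MvPolynomial.aeval_X]
      show T.evPoly σ he (MvPolynomial.X i) =
        T.evHom σ (incH K σ.1 (polyH K he (MvPolynomial.X i)))
      rw [h1, h2, incH_single, T.evHom_single, map_one, one_mul]
  rw [h]
  rfl

end Toric

end Pool.Agent.TD
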