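import Pool.Agent.TD.Y.Cone3
import Pool.Agent.TD.Y.Cone4

/-! Block Y: the topology of the tropical toric variety: boxes are compact
(module TD_Y_TropBox). -/

open scoped Topology

namespace Pool.Agent.TD

variable {n : ℕ} {F : Fan n}

/-- A finite set of generators of `S_σ`. -/
noncomputable def gens (F : Fan n) (σ : F.cones) : Finset (Fin n → ℤ) :=
  (gordan (F.rat σ.1 σ.2)).choose

theorem closure_gens (F : Fan n) (σ : F.cones) :
    AddSubmonoid.closure (gens F σ : Set (Fin n → ℤ)) = dualM σ.1 :=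
  (gordan (F.rat σ.1 σ.2)).choose_spec

theorem gens_mem {σ : F.cones} {g : Fin n → ℤ} (h : g ∈ gens F σ) : g ∈ dualM σ.1 := by
  rw [← closure_gens F σ]
  exact AddSubmonoid.subset_closure h

/-- The box `|χ^g| ≤ R` in `Trop(U_σ)`. -/
def boxT (σ : F.cones) (R : ℝ) : Set (TropPt F) :=
  {b | b ∈ TropPt.opn σ ∧ ∀ g ∈ gens F σ, TropPt.absv g b ≤ R}


theorem TropPt.absv_of_mem {m : Fin n → ℤ} {b : TropPt F} (h : m ∈ perpM b.cone.1) :
    TropPt.absv m b = Real.exp (b.val ⟨m, h⟩) := by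
  simp only [TropPt.absv, dif_pos h]

theorem TropPt.absv_of_not_mem {m : Fin n → ℤ} {b : TropPt F} (h : m ∉ perpM b.cone.1) :
    TropPt.absv m b = 0 := by
  simp only [TropPt.absv, dif_neg h]

theorem TropPt.absv_ne_zero_iff {m : Fin n → ℤ} {b : TropPt F} :
    TropPt.absv m b ≠ 0 ↔ m ∈ perpM b.cone.1 := by
  constructor
  · intro h
    by_contra h'
    exact h (TropPt.absv_of_not_mem h')
  · intro h
    rw [TropPt.absv_of_mem h]
    exact (Real.exp_pos _).ne'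

theorem TropPt.absv_nonneg (m : Fin n → ℤ) (b : TropPt F) : 0 ≤ TropPt.absv m b := by
  by_cases h : m ∈ perpM b.cone.1
  · rw [TropPt.absv_of_mem h]
    exact (Real.exp_pos _).le
  · rw [TropPt.absv_of_not_mem h]

/-- The values `|χ^m|` at a point of `Trop(U_σ)` are multiplicative in `m ∈ S_σ`. -/
theorem TropPt.absv_add {σ : F.cones} {b : TropPt F} (hb : b ∈ TropPt.opn σ) {m m' : Fin n → ℤ}
    (hm : m ∈ dualM σ.1) (hm' : m' ∈ dualM σ.1) :
    TropPt.absv (m + m') b = TropPt.absv m b * TropPt.absv m' b := by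
  by_cases h : m ∈ perpM b.cone.1
  · by_cases h' : m' ∈ perpM b.cone.1
    · rw [TropPt.absv_of_mem h, TropPt.absv_of_mem h', TropPt.absv_of_mem (add_mem h h'),
        ← Real.exp_add, ← map_add]
      rfl
    · rw [TropPt.absv_of_not_mem h', mul_zero, TropPt.absv_of_not_mem]
      intro h2
      apply h'
      have h3 : m' = (m + m') - m := by abel
      rw [h3]
      exact sub_mem h2 h
  · rw [TropPt.absv_of_not_mem h, zero_mul, TropPt.absv_of_not_mem]
    intro h2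
    apply h
    intro x hx
    have h3 := h2 x hx
    rw [pair_add_left] at h3
    have h4 := hm x (hb hx)
    have h5 := hm' x (hb hx)
    linarith

theorem TropPt.absv_zero (b : TropPt F) : TropPt.absv (0 : Fin n → ℤ) b = 1 := by
  rw [TropPt.absv_of_mem (zero_mem _)]
  have h : (⟨0, zero_mem _⟩ : perpM b.cone.1) = 0 := rfl
  rw [h, map_zero, Real.exp_zero]

theorem TropPt.absv_nsmul {σ : F.cones} {b : TropPt F} (hb : b ∈ TropPt.opn σ) {m : Fin n → ℤ}
    (hm : m ∈ dualM σ.1) (k : ℕ) : TropPt.absv (k • m) b = TropPt.absv m b ^ k := by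
  induction k with
  | zero => rw [zero_smul, pow_zero, TropPt.absv_zero]
  | succ k ih =>
    rw [succ_nsmul, TropPt.absv_add hb (nsmul_mem hm k) hm, ih, pow_succ]

/-- Every multiplicative map `S_σ → [0,∞)` is a point of `Trop(U_σ)`. -/
theorem TropPt.exists_pt (σ : F.cones) (h : dualM σ.1 → ℝ) (h0 : h 0 = 1) (hnn : ∀ m, 0 ≤ h m)
    (hmul : ∀ m m', h (m + m') = h m * h m') :
    ∃ b : TropPt F, b ∈ TropPt.opn σ ∧ ∀ m : dualM σ.1, TropPt.absv m.1 b = h m := by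
  classical
  have hpow : ∀ (m : dualM σ.1) (k : ℕ), h (k • m) = h m ^ k := by
    intro m k
    induction k with
    | zero => rw [zero_smul, pow_zero, h0]
    | succ k ih => rw [succ_nsmul, hmul, ih, pow_succ]
  -- the sum of the generators at which `h` does not vanish
  have hsum : ∃ m0 : dualM σ.1, h m0 ≠ 0 ∧ ∀ g (hg : g ∈ gens F σ), h ⟨g, gens_mem hg⟩ ≠ 0 →
      ∀ x ∈ σ.1, pair m0.1 x = 0 → pair g x = 0 := by
    have key : ∀ S : Finset (Fin n → ℤ), ∃ m0 : dualM σ.1, h m0 ≠ 0 ∧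
        ∀ g ∈ S, ∀ hg : g ∈ dualM σ.1, h ⟨g, hg⟩ ≠ 0 →
          ∀ x ∈ σ.1, pair m0.1 x = 0 → pair g x = 0 := by
      intro S
      induction S using Finset.induction_on with
      | empty => exact ⟨0, by rw [h0]; exact one_ne_zero, by simp⟩
      | insert a S _ ih =>
        obtain ⟨m0, hm0, hS⟩ := ih
        by_cases ha : ∃ hg : a ∈ dualM σ.1, h ⟨a, hg⟩ ≠ 0
        · obtain ⟨hg, ha⟩ := ha
          refine ⟨m0 + ⟨a, hg⟩, by rw [hmul]; exact mul_ne_zero hm0 ha, ?_⟩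
          intro g hgS hg' hgne x hx hx0
          have e : pair (m0.1 + a) x = pair m0.1 x + pair a x := pair_add_left _ _ _
          have h1 : pair m0.1 x + pair a x = 0 := by rw [← e]; exact hx0
          have h2 := m0.2 x hx
          have h3 := hg x hx
          rcases Finset.mem_insert.1 hgS with rfl | hgS
          · linarith
          · exact hS g hgS hg' hgne x hx (by linarith)
        · refine ⟨m0, hm0, ?_⟩
          intro g hgS hg' hgne x hx hx0
          rcases Finset.mem_insert.1 hgS with rfl | hgS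
          · exact absurd ⟨hg', hgne⟩ ha
          · exact hS g hgS hg' hgne x hx hx0
    obtain ⟨m0, hm0, hm1⟩ := key (gens F σ)
    exact ⟨m0, hm0, fun g hg hne x hx hx0 => hm1 g hg (gens_mem hg) hne x hx hx0⟩
  obtain ⟨m0, hm0, hgen⟩ := hsum
  have hm0pos : 0 < h m0 := lt_of_le_of_ne (hnn m0) (Ne.symm hm0)
  -- the face
  set τ : F.cones := F.faceC σ m0 with hτ
  have hτmem : ∀ x, x ∈ τ.1 ↔ x ∈ σ.1 ∧ pair m0.1 x = 0 := fun x => Iff.rfl
  have hfwd : ∀ m : Fin n → ℤ, ∀ hm : m ∈ AddSubmonoid.closure (gens F σ : Set (Fin n → ℤ)),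
      h ⟨m, by rw [← closure_gens F σ]; exact hm⟩ ≠ 0 → m ∈ perpM τ.1 := by
    intro m hm
    induction hm using AddSubmonoid.closure_induction with
    | mem g hg =>
      intro hne x hx
      exact hgen g hg hne x hx.1 hx.2
    | zero =>
      intro _
      exact zero_mem _
    | add m m' hm hm' ih ih' =>
      intro hne
      have hmd : m ∈ dualM σ.1 := by rw [← closure_gens F σ]; exact hm
      have hmd' : m' ∈ dualM σ.1 := by rw [← closure_gens F σ]; exact hm'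
      have e : h ⟨m + m', add_mem hmd hmd'⟩ = h ⟨m, hmd⟩ * h ⟨m', hmd'⟩ := hmul ⟨m, hmd⟩ ⟨m', hmd'⟩
      rw [e] at hne
      exact add_mem (ih (left_ne_zero_of_mul hne)) (ih' (right_ne_zero_of_mul hne))
  have hne_iff : ∀ m : dualM σ.1, h m ≠ 0 ↔ m.1 ∈ perpM τ.1 := by
    intro m
    constructor
    · intro hne
      exact hfwd m.1 (by rw [closure_gens F σ]; exact m.2) hne
    · intro hm hzero
      have h1 : -m.1 ∈ dualM {x ∈ σ.1 | pair m0.1 x = 0} := TropPt.perp_dual (neg_mem hm)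
      obtain ⟨k, hk⟩ := face_dual (F.rat σ.1 σ.2) m0.2 h1
      have h2 : m + ⟨-m.1 + k • m0.1, hk⟩ = k • m0 := by
        apply Subtype.ext
        show m.1 + (-m.1 + k • m0.1) = k • m0.1
        abel
      have h3 := hmul m ⟨-m.1 + k • m0.1, hk⟩
      rw [h2, hzero, zero_mul, hpow] at h3
      exact pow_ne_zero k hm0 h3
  have hpos : ∀ m : dualM σ.1, m.1 ∈ perpM τ.1 → 0 < h m := fun m hm =>
    lt_of_le_of_ne (hnn m) (Ne.symm ((hne_iff m).2 hm))
  have hex : ∀ m : perpM τ.1, ∃ k : ℕ, m.1 + k • m0.1 ∈ dualM σ.1 := fun m =>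
    face_dual (F.rat σ.1 σ.2) m0.2 (TropPt.perp_dual m.2)
  have hm0perp : m0.1 ∈ perpM τ.1 := fun x hx => hx.2
  choose kk hkk using hex
  have hwd : ∀ (m : perpM τ.1) (k : ℕ) (hk : m.1 + k • m0.1 ∈ dualM σ.1) (k' : ℕ)
      (hk' : m.1 + k' • m0.1 ∈ dualM σ.1),
      Real.log (h ⟨m.1 + k • m0.1, hk⟩) - k * Real.log (h m0) =
      Real.log (h ⟨m.1 + k' • m0.1, hk'⟩) - k' * Real.log (h m0) := by
    intro m k hk k' hk'
    have e1 : (⟨m.1 + k • m0.1, hk⟩ : dualM σ.1) + k' • m0 =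
        (⟨m.1 + k' • m0.1, hk'⟩ : dualM σ.1) + k • m0 := by
      apply Subtype.ext
      show m.1 + k • m0.1 + k' • m0.1 = m.1 + k' • m0.1 + k • m0.1
      abel
    have e2 := congrArg h e1
    rw [hmul, hmul, hpow, hpow] at e2
    have p1 : 0 < h ⟨m.1 + k • m0.1, hk⟩ := hpos _ (add_mem m.2 (nsmul_mem hm0perp k))
    have p2 : 0 < h ⟨m.1 + k' • m0.1, hk'⟩ := hpos _ (add_mem m.2 (nsmul_mem hm0perp k'))
    have e3 := congrArg Real.log e2
    rw [Real.log_mul p1.ne' (pow_ne_zero _ hm0), Real.log_mul p2.ne' (pow_ne_zero _ hm0),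
      Real.log_pow, Real.log_pow] at e3
    linarith
  refine ⟨⟨τ, ⟨⟨fun m => Real.log (h ⟨m.1 + kk m • m0.1, hkk m⟩) - kk m * Real.log (h m0), ?_⟩,
    ?_⟩⟩, ?_, ?_⟩
  · have h1 : (0 : perpM τ.1).1 + (0 : ℕ) • m0.1 ∈ dualM σ.1 := by
      have : (0 : perpM τ.1).1 + (0 : ℕ) • m0.1 = 0 := by simp
      rw [this]
      exact zero_mem _
    rw [hwd 0 (kk 0) (hkk 0) 0 h1]
    have h2 : (⟨(0 : perpM τ.1).1 + (0 : ℕ) • m0.1, h1⟩ : dualM σ.1) = 0 := by
      apply Subtype.ext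
      simp
    rw [h2, h0]
    simp
  · intro m m'
    have hk : (m + m').1 + (kk m + kk m') • m0.1 ∈ dualM σ.1 := by
      have : (m + m').1 + (kk m + kk m') • m0.1 = (m.1 + kk m • m0.1) + (m'.1 + kk m' • m0.1) := by
        rw [add_smul]
        show m.1 + m'.1 + _ = _
        abel
      rw [this]
      exact add_mem (hkk m) (hkk m')
    show Real.log (h ⟨(m + m').1 + kk (m + m') • m0.1, hkk (m + m')⟩) -
      kk (m + m') * Real.log (h m0) = _
    rw [hwd (m + m') (kk (m + m')) (hkk (m + m')) (kk m + kk m') hk]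
    have e1 : (⟨(m + m').1 + (kk m + kk m') • m0.1, hk⟩ : dualM σ.1) =
        ⟨m.1 + kk m • m0.1, hkk m⟩ + ⟨m'.1 + kk m' • m0.1, hkk m'⟩ := by
      apply Subtype.ext
      show m.1 + m'.1 + (kk m + kk m') • m0.1 = (m.1 + kk m • m0.1) + (m'.1 + kk m' • m0.1)
      rw [add_smul]
      abel
    have p1 : 0 < h ⟨m.1 + kk m • m0.1, hkk m⟩ := hpos _ (add_mem m.2 (nsmul_mem hm0perp _))
    have p2 : 0 < h ⟨m'.1 + kk m' • m0.1, hkk m'⟩ := hpos _ (add_mem m'.2 (nsmul_mem hm0perp _))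
    rw [e1, hmul, Real.log_mul p1.ne' p2.ne']
    push_cast
    ring
  · intro x hx
    exact hx.1
  · intro m
    by_cases hm : m.1 ∈ perpM τ.1
    · rw [TropPt.absv_of_mem (b := ⟨τ, _⟩) hm]
      have h1 : m.1 + (0 : ℕ) • m0.1 ∈ dualM σ.1 := by
        rw [zero_smul, add_zero]
        exact m.2
      show Real.exp (Real.log (h ⟨m.1 + kk ⟨m.1, hm⟩ • m0.1, hkk ⟨m.1, hm⟩⟩) -
        kk ⟨m.1, hm⟩ * Real.log (h m0)) = h m
      rw [hwd ⟨m.1, hm⟩ (kk ⟨m.1, hm⟩) (hkk ⟨m.1, hm⟩) 0 h1]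
      have h2 : (⟨m.1 + (0 : ℕ) • m0.1, h1⟩ : dualM σ.1) = m := by
        apply Subtype.ext
        simp
      have h3 : (⟨(⟨m.1, hm⟩ : perpM τ.1).1 + (0 : ℕ) • m0.1, h1⟩ : dualM σ.1) = m := h2
      rw [h3, Nat.cast_zero, zero_mul, sub_zero, Real.exp_log (hpos m hm)]
    · rw [TropPt.absv_of_not_mem (b := ⟨τ, _⟩) hm]
      by_contra hne
      exact hm ((hne_iff m).1 (Ne.symm hne))

/-- The points of `Trop(U_σ)` are determined by the values of the characters of `S_σ`. -/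
theorem TropPt.ext_absv {σ : F.cones} {b b' : TropPt F} (hb : b ∈ TropPt.opn σ)
    (hb' : b' ∈ TropPt.opn σ) (h : ∀ m ∈ dualM σ.1, TropPt.absv m b = TropPt.absv m b') :
    b = b' := by
  have key : ∀ {b b' : TropPt F}, b ∈ TropPt.opn σ → b' ∈ TropPt.opn σ →
      (∀ m ∈ dualM σ.1, TropPt.absv m b = TropPt.absv m b') → b'.cone.1 ⊆ b.cone.1 := by
    intro b b' hb hb' h
    obtain ⟨m, hm, e⟩ := F.face_of_sub (σ := σ) (τ := b.cone) hb
    have h1 : m ∈ perpM b.cone.1 := by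
      intro x hx
      rw [e] at hx
      exact hx.2
    have h2 : m ∈ perpM b'.cone.1 := by
      rw [← TropPt.absv_ne_zero_iff, ← h m hm]
      exact TropPt.absv_ne_zero_iff.2 h1
    intro x hx
    rw [e]
    exact ⟨hb' hx, h2 x hx⟩
  have hcone : b.cone = b'.cone := Subtype.ext
    (Set.Subset.antisymm (key hb' hb fun m hm => (h m hm).symm) (key hb hb' h))
  obtain ⟨τ, v⟩ := b
  obtain ⟨τ', v'⟩ := b'
  simp only at hcone
  subst hcone
  congr 1
  ext m
  obtain ⟨m0, hm0, e⟩ := F.face_of_sub (σ := σ) (τ := τ) hb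
  have hm0p : m0 ∈ perpM τ.1 := by
    intro x hx
    rw [e] at hx
    exact hx.2
  have hmd : m.1 ∈ dualM {x ∈ σ.1 | pair m0 x = 0} := by
    intro x hx
    have hx' : x ∈ τ.1 := by
      rw [e]
      exact hx
    exact (m.2 x hx').ge
  obtain ⟨k, hk⟩ := face_dual (F.rat σ.1 σ.2) hm0 hmd
  have hkp : m.1 + k • m0 ∈ perpM τ.1 := add_mem m.2 (nsmul_mem hm0p k)
  have h1 := h m0 hm0
  have h2 := h _ hk
  rw [TropPt.absv_of_mem (b := ⟨τ, v⟩) hm0p, TropPt.absv_of_mem (b := ⟨τ, v'⟩) hm0p] at h1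
  rw [TropPt.absv_of_mem (b := ⟨τ, v⟩) hkp, TropPt.absv_of_mem (b := ⟨τ, v'⟩) hkp] at h2
  have h3 := Real.exp_injective h1
  have h4 := Real.exp_injective h2
  have e1 : (⟨m.1 + k • m0, hkp⟩ : perpM τ.1) = m + k • ⟨m0, hm0p⟩ := rfl
  simp only at h3 h4
  rw [e1, map_add, map_add, map_nsmul, map_nsmul, h3] at h4
  exact add_right_cancel h4

theorem isCompact_boxT (σ : F.cones) (R : ℝ) : IsCompact (boxT σ R) := by
  classical
  let C : Set (dualM σ.1 → ℝ) := {h | h 0 = 1 ∧ (∀ m, 0 ≤ h m) ∧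
    (∀ m m', h (m + m') = h m * h m') ∧ ∀ g : gens F σ, h ⟨g.1, gens_mem g.2⟩ ≤ R}
  have hCclosed : IsClosed C := by
    have h1 : IsClosed {h : dualM σ.1 → ℝ | h 0 = 1} :=
      isClosed_eq (continuous_apply _) continuous_const
    have h2 : IsClosed {h : dualM σ.1 → ℝ | ∀ m, 0 ≤ h m} := by
      rw [Set.ofPred_forall]
      exact isClosed_iInter fun m => isClosed_le continuous_const (continuous_apply m)
    have h3 : IsClosed {h : dualM σ.1 → ℝ | ∀ m m', h (m + m') = h m * h m'} := by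
      rw [Set.ofPred_forall]
      refine isClosed_iInter fun m => ?_
      rw [Set.ofPred_forall]
      exact isClosed_iInter fun m' => isClosed_eq (continuous_apply _)
        ((continuous_apply m).mul (continuous_apply m'))
    have h4 : IsClosed {h : dualM σ.1 → ℝ | ∀ g : gens F σ, h ⟨g.1, gens_mem g.2⟩ ≤ R} := by
      rw [Set.ofPred_forall]
      exact isClosed_iInter fun g => isClosed_le (continuous_apply _) continuous_const
    have e : C = {h : dualM σ.1 → ℝ | h 0 = 1} ∩ ({h : dualM σ.1 → ℝ | ∀ m, 0 ≤ h m} ∩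
        ({h : dualM σ.1 → ℝ | ∀ m m', h (m + m') = h m * h m'} ∩
        {h : dualM σ.1 → ℝ | ∀ g : gens F σ, h ⟨g.1, gens_mem g.2⟩ ≤ R})) := rfl
    rw [e]
    exact h1.inter (h2.inter (h3.inter h4))
  have hbd : ∀ m : Fin n → ℤ, ∀ hm : m ∈ AddSubmonoid.closure (gens F σ : Set (Fin n → ℤ)),
      ∃ B : ℝ, ∀ h ∈ C, h ⟨m, by rw [← closure_gens F σ]; exact hm⟩ ≤ B := by
    intro m hm
    induction hm using AddSubmonoid.closure_induction with
    | mem g hg => exact ⟨R, fun h hh => hh.2.2.2 ⟨g, hg⟩⟩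
    | zero => exact ⟨1, fun h hh => hh.1.le⟩
    | add m m' hm hm' ih ih' =>
      obtain ⟨B, hB⟩ := ih
      obtain ⟨B', hB'⟩ := ih'
      refine ⟨B * B', fun h hh => ?_⟩
      have hmd : m ∈ dualM σ.1 := by rw [← closure_gens F σ]; exact hm
      have hmd' : m' ∈ dualM σ.1 := by rw [← closure_gens F σ]; exact hm'
      have e : h ⟨m + m', add_mem hmd hmd'⟩ = h ⟨m, hmd⟩ * h ⟨m', hmd'⟩ :=
        hh.2.2.1 ⟨m, hmd⟩ ⟨m', hmd'⟩
      have h1 := hB h hh
      have h2 := hB' h hh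
      have h3 := hh.2.1 ⟨m, hmd⟩
      have h4 := hh.2.1 ⟨m', hmd'⟩
      show h ⟨m + m', add_mem hmd hmd'⟩ ≤ B * B'
      rw [e]
      exact mul_le_mul h1 h2 h4 (h3.trans h1)
  have hbd2 : ∀ m : dualM σ.1, ∃ B : ℝ, ∀ h ∈ C, h m ≤ B := fun m =>
    hbd m.1 (by rw [closure_gens F σ]; exact m.2)
  choose B hB using hbd2
  have hCcompact : IsCompact C := by
    have h1 : IsCompact (Set.univ.pi fun m : dualM σ.1 => Set.Icc (0 : ℝ) (B m)) :=
      isCompact_univ_pi fun m => isCompact_Icc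
    exact h1.of_isClosed_subset hCclosed fun h hh m _ => ⟨hh.2.1 m, hB m h hh⟩
  have hpt : ∀ h : C, ∃ b : TropPt F, b ∈ TropPt.opn σ ∧
      ∀ m : dualM σ.1, TropPt.absv m.1 b = h.1 m := fun h =>
    TropPt.exists_pt σ h.1 h.2.1 h.2.2.1 h.2.2.2.1
  choose ψ hψ1 hψ2 using hpt
  have hψc : Continuous ψ := by
    rw [continuous_generateFrom_iff]
    rintro _ ⟨σ', m', V, hV, rfl⟩
    obtain ⟨m0, hm0, e0⟩ := (F.inter σ.1 σ.2 σ'.1 σ'.2).1
    have hmd : m'.1 ∈ dualM {x ∈ σ.1 | pair m0 x = 0} := by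
      intro x hx
      have hx' : x ∈ σ.1 ∩ σ'.1 := by
        rw [e0]
        exact hx
      exact m'.2 x hx'.2
    obtain ⟨k, hk⟩ := face_dual (F.rat σ.1 σ.2) hm0 hmd
    have hopn : ∀ h : C, ψ h ∈ TropPt.opn σ' ↔ h.1 ⟨m0, hm0⟩ ≠ 0 := by
      intro h
      rw [← hψ2 h ⟨m0, hm0⟩]
      show _ ↔ TropPt.absv m0 (ψ h) ≠ 0
      rw [TropPt.absv_ne_zero_iff]
      constructor
      · intro h1 x hx
        have hx' : x ∈ σ.1 ∩ σ'.1 := ⟨hψ1 h hx, h1 hx⟩
        rw [e0] at hx'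
        exact hx'.2
      · intro h1 x hx
        have hx' : x ∈ σ.1 ∩ σ'.1 := by
          rw [e0]
          exact ⟨hψ1 h hx, h1 x hx⟩
        exact hx'.2
    have hval : ∀ h : C, h.1 ⟨m0, hm0⟩ ≠ 0 → TropPt.absv m'.1 (ψ h) =
        h.1 ⟨m'.1 + k • m0, hk⟩ / h.1 ⟨m0, hm0⟩ ^ k := by
      intro h hne
      have h1 := (hopn h).2 hne
      have hin : ψ h ∈ TropPt.opn (F.faceC σ ⟨m0, hm0⟩) := by
        intro x hx
        have hx' : x ∈ σ.1 ∩ σ'.1 := ⟨hψ1 h hx, h1 hx⟩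
        rw [e0] at hx'
        exact hx'
      have hm0d : m0 ∈ dualM (F.faceC σ ⟨m0, hm0⟩).1 := fun x hx => hm0 x hx.1
      have h2 : TropPt.absv (m'.1 + k • m0) (ψ h) =
          TropPt.absv m'.1 (ψ h) * TropPt.absv m0 (ψ h) ^ k := by
        rw [TropPt.absv_add hin hmd (nsmul_mem hm0d k), TropPt.absv_nsmul hin hm0d]
      have h3 := hψ2 h ⟨m'.1 + k • m0, hk⟩
      have h4 := hψ2 h ⟨m0, hm0⟩
      simp only at h3 h4
      rw [h3, h4] at h2
      rw [eq_div_iff (pow_ne_zero _ hne), ← h2]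
    have hU : IsOpen {h : C | h.1 ⟨m0, hm0⟩ ≠ 0} :=
      isOpen_ne_fun ((continuous_apply _).comp continuous_subtype_val) continuous_const
    have hcont : ContinuousOn (fun h : C => h.1 ⟨m'.1 + k • m0, hk⟩ / h.1 ⟨m0, hm0⟩ ^ k)
        {h : C | h.1 ⟨m0, hm0⟩ ≠ 0} := by
      refine ContinuousOn.div ?_ ?_ fun h hh => pow_ne_zero _ hh
      · exact ((continuous_apply _).comp continuous_subtype_val).continuousOn
      · exact (((continuous_apply (⟨m0, hm0⟩ : dualM σ.1)).comp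
          continuous_subtype_val).pow k).continuousOn
    have h5 := hcont.isOpen_inter_preimage hU hV
    convert h5 using 1
    ext h
    simp only [Set.mem_preimage, Set.mem_ofPred_eq, Set.mem_inter_iff]
    rw [hopn h]
    constructor
    · rintro ⟨h6, h7⟩
      exact ⟨h6, by rw [← hval h h6]; exact h7⟩
    · rintro ⟨h6, h7⟩
      exact ⟨h6, by rw [hval h h6]; exact h7⟩
  have hrange : boxT σ R = Set.range ψ := by
    ext b
    constructor
    · rintro ⟨hb, hbR⟩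
      refine ⟨⟨fun m => TropPt.absv m.1 b, TropPt.absv_zero b, fun m => TropPt.absv_nonneg _ _,
        fun m m' => TropPt.absv_add hb m.2 m'.2, fun g => hbR g.1 g.2⟩, ?_⟩
      apply TropPt.ext_absv (hψ1 _) hb
      intro m hm
      exact hψ2 _ ⟨m, hm⟩
    · rintro ⟨h, rfl⟩
      refine ⟨hψ1 h, fun g hg => ?_⟩
      rw [hψ2 h ⟨g, gens_mem hg⟩]
      exact h.2.2.2.2 ⟨g, hg⟩
  rw [hrange]
  have : CompactSpace C := isCompact_iff_compactSpace.1 hCcompact
  exact isCompact_range hψc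

end Pool.Agent.TD
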