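import Pool.Agent.TD.Y.Open
import Pool.Agent.TD.Y.Glue
import Pool.Agent.TD.Y.Restr

/-! Block Y: the tropicalization morphism. -/

open scoped ContDiff Topology
open AlgebraicGeometry CategoryTheory

namespace Pool.Agent.TD

namespace Toric

variable {K : Type} [NormedField K] {n : ℕ} {F : Fan n} {Y : Scheme.{0}} {ι : K →+* Γ(Y, ⊤)}
  (T : Toric F Y ι)

theorem absv_chiU_trop {m : Fin n → ℤ} {z : An Y ι} (h : m ∈ perpM (T.minCone z.pt).1) :
    An.absv (T.Um m) (T.chiU m) z = TropPt.absv m (T.trop z) := by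
  rw [T.absv_chiU h (T.mem_minCone z.pt)]
  exact (T.absv_trop (T.mem_minCone z.pt) ⟨m, TropPt.perp_dual h⟩).symm

/-- The tropicalization map as a morphism: the character `m` goes to the function `χ^m`. -/
noncomputable def tropMor : Mor (anLS Y ι) (tropLS F) where
  toFun := T.trop
  cont := T.continuous_trop
  ix m := ⟨T.Um m, T.chiU m⟩
  dom_sub m z h := by
    have h' : m ∈ perpM (T.minCone z.pt).1 := h
    refine ⟨T.U_le_Um h' (T.mem_minCone z.pt), ?_⟩
    show An.absv (T.Um m) (T.chiU m) z ≠ 0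
    rw [T.absv_chiU h' (T.mem_minCone z.pt)]
    exact T.absv_chi_ne_zero h' (T.mem_minCone z.pt)
  lf_eq m z h := by
    have h' : m ∈ perpM (T.minCone z.pt).1 := h
    show Real.log (An.absv (T.Um m) (T.chiU m) z) = Real.log (TropPt.absv m (T.trop z))
    rw [T.absv_chiU_trop h']

end Toric

end Pool.Agent.TD
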